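import Mathlib
import Pool.Agent.Lib.MP_bbe012_lc.CV.Defs
import Pool.Agent.Lib.MP_bbe012_lc.HC.Dir

/-!
# Fair coins with cubic polynomials: products of intervals and discs (definitions)

The rounds of the folder CV are used with the new variables in unit discs; all corrections are then
averages of polynomials, which are rational numbers.
-/

namespace Pool.Agent.Lib.MP_bbe012_lc.CD

open MeasureTheory Set HC CV

/-- The open unit disc. -/
def disc : Set (Fin 2 → ℝ) := {w | w 0 ^ 2 + w 1 ^ 2 < 1}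

/-- The product of `n` intervals `(-1, 1)` and `m` open unit discs. -/
def boxDisc (n m : ℕ) : Set (Fin (n + 2 * m) → ℝ) :=
  {x | (∀ i : Fin n, |x (Fin.castAdd (2 * m) i)| < 1) ∧
    ∀ j : Fin m, x ⟨n + 2 * j, by omega⟩ ^ 2 + x ⟨n + 2 * j + 1, by omega⟩ ^ 2 < 1}

/-- The set of the points of the product of `n` intervals and `m` discs at which a polynomial is
positive, for `F = ((n, m), f)`. -/
def posBD (F : (ℕ × ℕ) × PCode) : Set (Fin (F.1.1 + 2 * F.1.2) → ℝ) :=
  {x | x ∈ boxDisc F.1.1 F.1.2 ∧ 0 < pcEval (F.1.1 + 2 * F.1.2) F.2 x}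

/-- The product of two sets. -/
def pS {a b : ℕ} (A : Set (Fin a → ℝ)) (B : Set (Fin b → ℝ)) : Set (Fin (a + b) → ℝ) :=
  {z | (fun i => z (Fin.castAdd b i)) ∈ A ∧ (fun i => z (Fin.natAdd a i)) ∈ B}

/-- The average over the product of intervals and discs. -/
noncomputable def Av (n m : ℕ) (φ : (Fin (n + 2 * m) → ℝ) → ℝ) : ℝ :=
  (∫ x in boxDisc n m, φ x) / (2 ^ n * Real.pi ^ m)

/-- The average over the unit disc. -/
noncomputable def dAv (φ : (Fin 2 → ℝ) → ℝ) : ℝ := (∫ w in disc, φ w) / Real.pi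

/-- The average of a truncated power of a polynomial. -/
noncomputable def AA (n m : ℕ) (p : PCode) (k : ℕ) : ℝ :=
  Av n m fun x => pp k (pcEval (n + 2 * m) p x)

/-! ### Constant polynomials -/

/-- All exponents are zero. -/
def CC0 (q : PCode) : Prop := ∀ t ∈ q, t.2 = []

/-- The value of a constant polynomial. -/
def cval (q : PCode) : ℚ := (q.map fun t => qval t.1).sum

/-- The average of `x^(2i) y^(2j)` over the unit disc, as a constant polynomial:
`1 / (i + j + 1) * ∏ l < i, (2l + 1) * ∏ l < j, (2l + 1) / ∏ l < i + j, (2l + 2)`. -/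
def dMom (i j : ℕ) : PCode :=
  pcMul [(qinv (i + j), [])] (pcMul (pcProdRange i fun l => pcNat (2 * l + 1))
    (pcMul (pcProdRange j fun l => pcNat (2 * l + 1))
      (pcProdRange (i + j) fun l => [(qinv (2 * l + 1), [])])))

/-- The factor of the interval number `i` in the average of the monomial with the exponents `e`. -/
def iFac (e : List ℕ) (i : ℕ) : PCode :=
  if e.getD i 0 % 2 = 1 then [] else [(qinv (e.getD i 0), [])]

/-- The factor of the disc number `j` in the average of the monomial with the exponents `e`. -/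
def dFac (n : ℕ) (e : List ℕ) (j : ℕ) : PCode :=
  if e.getD (n + 2 * j) 0 % 2 = 1 ∨ e.getD (n + 2 * j + 1) 0 % 2 = 1 then [] else
    dMom (e.getD (n + 2 * j) 0 / 2) (e.getD (n + 2 * j + 1) 0 / 2)

/-- The exact average over the product of intervals and discs, as a constant polynomial. -/
def pcAv (n m : ℕ) (p : PCode) : PCode :=
  p.flatMap fun t => pcMul [(t.1, [])] (pcMul (pcProdRange n (iFac t.2)) (pcProdRange m (dFac n t.2)))

/-! ### The rounds -/

/-- The new rational number. -/
def nextQD (n m k T Y : ℕ) (f q : PCode) : PCode :=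
  pcMul [(qinv (Y ^ 2 * (k + 1) - 1), [])] (pcAv n (m + 1) (pcPow f (k + 1)) ++
    pcMul [(qinv (T ^ 2 * (k + 2) - 1), [])] q)

/-- One round; the state is `((m, S), q)`: number of discs, sum of products, rational number. The
number of variables is `n + 2 m`. -/
def stepD (n k : ℕ) (s : St) : St :=
  ((s.1.1 + 2,
    nextS (n + 2 * s.1.1) (tB (pick (trS (n + 2 * s.1.1) s.1.2)).1 (pick (trS (n + 2 * s.1.1) s.1.2)).2)
      (yB (n + 2 * s.1.1)
        (tB (pick (trS (n + 2 * s.1.1) s.1.2)).1 (pick (trS (n + 2 * s.1.1) s.1.2)).2)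
        (pick (trS (n + 2 * s.1.1) s.1.2)).1 (pick (trS (n + 2 * s.1.1) s.1.2)).2)
      (pick (trS (n + 2 * s.1.1) s.1.2)).1 (pick (trS (n + 2 * s.1.1) s.1.2)).2),
    nextQD n s.1.1 k
      (tB (pick (trS (n + 2 * s.1.1) s.1.2)).1 (pick (trS (n + 2 * s.1.1) s.1.2)).2)
      (yB (n + 2 * s.1.1)
        (tB (pick (trS (n + 2 * s.1.1) s.1.2)).1 (pick (trS (n + 2 * s.1.1) s.1.2)).2)
        (pick (trS (n + 2 * s.1.1) s.1.2)).1 (pick (trS (n + 2 * s.1.1) s.1.2)).2)
      (fC (n + 2 * s.1.1)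
        (tB (pick (trS (n + 2 * s.1.1) s.1.2)).1 (pick (trS (n + 2 * s.1.1) s.1.2)).2)
        (pick (trS (n + 2 * s.1.1) s.1.2)).1 (pick (trS (n + 2 * s.1.1) s.1.2)).2) s.2)

/-- The state after `j` rounds, with the exponents `2 κ, 2 κ - 2, ...`. -/
def runD (n κ : ℕ) (s : St) (j : ℕ) : St := j.rec s fun i t => stepD n (2 * (κ - 1 - i)) t

/-! ### The initial state -/

/-- The exponents after the exchange of the block of `2 n2` variables after the first `n1` variables
with the block of the last `k` variables. -/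
def swE (n1 n2 k : ℕ) (e : List ℕ) : List ℕ :=
  (List.range (n1 + k + 2 * n2)).map fun i =>
    e.getD (if i < n1 then i else if i < n1 + k then i + 2 * n2 else i - k) 0

/-- The exchange of the blocks of variables in a polynomial. -/
def swP (n1 n2 k : ℕ) (p : PCode) : PCode := p.map fun t => (t.1, swE n1 n2 k t.2)

/-- The exchange of the blocks of variables in a sum of products. -/
def swS (n1 n2 k : ℕ) (S : SCode) : SCode := S.map fun L => L.map (swP n1 n2 k)

/-- The initial rational number. -/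
def q0D (n1 n2 r m : ℕ) (P Q : PCode) (rows : List (List QCode)) : PCode :=
  pcMul (pcPow [(qinv 1, [])] (m + 1)) (pcMul (c0C m (t0C (n1 + 2 * n2) r P Q rows))
    (pcMul (pcNat (kC (n1 + 2 * n2) r P Q rows))
      (pcAv n1 n2 (pcPow (pcTrunc (n1 + 2 * n2) Q) ((r + 1) * (2 * m + 1))))))

/-- The number of intervals. -/
def nI (n1 : ℕ) (c : CC) : ℕ := n1 + (c.1.1.1 + 1 + 2 * c.1.1.2)

/-- The initial state. -/
def st0D (n1 n2 : ℕ) (P Q : PCode) (c : CC) : St :=
  ((n2, swS n1 n2 (c.1.1.1 + 1 + 2 * c.1.1.2)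
      (s0C (n1 + 2 * n2) c.1.1.1 (2 * c.1.1.2) P Q c.2.1.2)),
    q0D n1 n2 c.1.1.1 (2 * c.1.1.2) P Q c.2.1.2)

/-! ### The last step -/

/-- The square of the norm of the disc variable which starts at `x_i`. -/
def nsq (i : ℕ) : PCode := pcMul (pcVar i) (pcVar i) ++ pcMul (pcVar (i + 1)) (pcVar (i + 1))

/-- The polynomial `(2 x_i - x_j)^2 + (2 x_(i+1))^2`. -/
def offC (i j : ℕ) : PCode :=
  pcMul (pcMul (pcNat 2) (pcVar i) ++ pcNeg (pcVar j)) (pcMul (pcNat 2) (pcVar i) ++ pcNeg (pcVar j)) ++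
    pcMul (pcMul (pcNat 2) (pcVar (i + 1))) (pcMul (pcNat 2) (pcVar (i + 1)))

/-- The polynomial `(2 w_1 - c_1)^2 + (2 w_2)^2 + 17 (1 - |c|^2) + |w'|^2` with the disc variables
`c`, `w`, `w'` which start at `x_N`, `x_(N+2)`, `x_(N+4)`. -/
def psiC (N : ℕ) : PCode :=
  offC (N + 2) N ++ (pcMul (pcNat 17) (pcNat 1 ++ pcNeg (nsq N)) ++ nsq (N + 4))

/-- The scale of the last step. -/
def scC (h q : PCode) : ℕ := 12 * pcK h + 4 * pcK q + 4

/-- The coefficient of the last disc variable. -/
def mC (n m : ℕ) (h q : PCode) : PCode :=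
  pcMul (pcNat 2) (pcMul [(qinv 3, [])] (pcNat (45 * scC h q)) ++
    (pcNeg (pcAv n m h) ++ pcMul [(qinv (1632 * scC h q ^ 3 - 1), [])] q))

/-- The final polynomial. -/
def gadC (n m : ℕ) (h q : PCode) : PCode :=
  h ++ (pcNeg (pcMul (pcNat (scC h q)) (psiC (n + 2 * m))) ++
    pcMul (mC n m h q) (nsq (n + 2 * m + 6)))

/-- The final state of the rounds. -/
def stFD (n1 n2 : ℕ) (P Q : PCode) (c : CC) : St :=
  runD (nI n1 c) c.1.1.2 (st0D n1 n2 P Q c) (c.1.1.2 - 2)

/-- The polynomial before the last step. -/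
def hFD (n1 n2 : ℕ) (P Q : PCode) (c : CC) : PCode :=
  flat (trS (nI n1 c + 2 * (stFD n1 n2 P Q c).1.1) (stFD n1 n2 P Q c).1.2)

/-- The cubic polynomial (with the numbers of intervals and discs) attached to a certificate. -/
def coinD (n1 n2 : ℕ) (P Q : PCode) (c : CC) : (ℕ × ℕ) × PCode :=
  ((nI n1 c, (stFD n1 n2 P Q c).1.1 + 4),
    gadC (nI n1 c) (stFD n1 n2 P Q c).1.1 (hFD n1 n2 P Q c) (stFD n1 n2 P Q c).2)

/-- The verification of a certificate. -/
def dCheck (n : ℕ) (P Q : PCode) (c : CC) : Prop :=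
  hcCheck n P Q (toHC n P Q c) ∧ mu (s0C n c.1.1.1 (2 * c.1.1.2) P Q c.2.1.2) + 2 ≤ c.1.1.2

instance (n : ℕ) (P Q : PCode) (c : CC) : Decidable (dCheck n P Q c) := by
  unfold dCheck; infer_instance

/-- The search for a certificate. -/
def dSearch (R : ℕ × PCode × PCode) : Part CC :=
  Nat.rfindOpt fun m => (Encodable.decode (α := CC) m).bind fun c =>
    if dCheck R.1 R.2.1 R.2.2 c then some c else none

/-! ### The forward direction -/

/-- The system of inequalities of the product of intervals and discs. -/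
def sysBD (n m : ℕ) : SysCode :=
  ((List.range n).map fun i => (true, pcNat 1 ++ pcNeg (pcMul (pcVar i) (pcVar i)))) ++
    (List.range m).map fun j => (true, pcNat 1 ++ pcNeg (nsq (n + 2 * j)))

/-- The integral of `2` over the set of the points with positive value. -/
def volD (F : (ℕ × ℕ) × PCode) : IntCode :=
  (F.1.1 + 2 * F.1.2, (pcNat 2, pcNat 1), (true, F.2) :: sysBD F.1.1 F.1.2)

/-- The integral of `1` over the product of intervals and discs. -/
def boxD (F : (ℕ × ℕ) × PCode) : IntCode :=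
  (F.1.1 + 2 * F.1.2, (pcNat 1, pcNat 1), sysBD F.1.1 F.1.2)

/-- The pair of periods whose equality means that the polynomial is positive with probability one
half. -/
def pairD (F : (ℕ × ℕ) × PCode) : PeriodCode × PeriodCode :=
  ((volD F, constInt (qnat 0)), (boxD F, constInt (qnat 0)))

end Pool.Agent.Lib.MP_bbe012_lc.CD
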