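import Mathlib
import Pool.Agent.Lib.MP_bbe012_lc.CD.Defs
import Pool.Agent.Lib.MP_bbe012_lc.CV.Deg
import Pool.Agent.Lib.MP_bbe012_lc.CV.Disc

/-!
# Constant polynomials
-/

namespace Pool.Agent.Lib.MP_bbe012_lc.CD

open MeasureTheory Set HC CV

private theorem Cst_cval_cons (t : QCode × List ℕ) (q : PCode) :
    cval (t :: q) = qval t.1 + cval q := by
  simp [cval]

private theorem Cst_cval_nil : cval [] = 0 := by
  simp [cval]

/-- `pcEval_cons`: the monomial of a term with exponents `[]` is `1`. -/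
theorem CC0.eval {q : PCode} (h : CC0 q) (m : ℕ) (y : Fin m → ℝ) : pcEval m q y = cval q := by
  induction q with
  | nil => simp [Cst_cval_nil]
  | cons t q ih =>
    have h1 : t.2 = [] := h t List.mem_cons_self
    have h2 : CC0 q := fun s hs => h s (List.mem_cons_of_mem _ hs)
    rw [pcEval_cons, ih h2, Cst_cval_cons, h1]
    simp

private theorem Cst_pcPoly {q : PCode} (h : CC0 q) (m : ℕ) :
    pcPoly m q = MvPolynomial.C (cval q) := by
  induction q with
  | nil => simp [Cst_cval_nil]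
  | cons t q ih =>
    have h1 : t.2 = [] := h t List.mem_cons_self
    have h2 : CC0 q := fun s hs => h s (List.mem_cons_of_mem _ hs)
    have h3 : expVec m [] = 0 := by ext i; simp
    rw [pcPoly_cons, ih h2, Cst_cval_cons, termPoly, h1, h3, MvPolynomial.C_add]
    rfl

theorem CC0.deg {q : PCode} (h : CC0 q) (m : ℕ) : (pcPoly m q).totalDegree = 0 := by
  rw [Cst_pcPoly h, MvPolynomial.totalDegree_C]

theorem CC0.append {p q : PCode} (hp : CC0 p) (hq : CC0 q) : CC0 (p ++ q) := by
  intro t ht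
  rcases List.mem_append.mp ht with h | h
  · exact hp t h
  · exact hq t h

theorem CC0.neg {p : PCode} (hp : CC0 p) : CC0 (pcNeg p) := by
  intro t ht
  obtain ⟨s, hs, rfl⟩ := List.mem_map.mp ht
  exact hp s hs

/-- `expAdd [] [] = []`. -/
theorem CC0.mul {p q : PCode} (hp : CC0 p) (hq : CC0 q) : CC0 (pcMul p q) := by
  intro t ht
  obtain ⟨s, hs, hst⟩ := List.mem_flatMap.mp ht
  obtain ⟨r, hr, rfl⟩ := List.mem_map.mp hst
  show expAdd s.2 r.2 = []
  rw [hp s hs, hq r hr]
  rfl

theorem CC0.single (c : QCode) : CC0 [(c, [])] := by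
  intro t ht
  rw [List.mem_singleton.mp ht]

theorem CC0.nil : CC0 [] := by
  intro t ht
  exact absurd ht List.not_mem_nil

theorem CC0.nat (k : ℕ) : CC0 (pcNat k) := CC0.single _

theorem CC0.pow {p : PCode} (hp : CC0 p) (k : ℕ) : CC0 (pcPow p k) := by
  induction k with
  | zero => exact CC0.nat 1
  | succ k ih => exact hp.mul ih

theorem CC0.prodRange {R : ℕ} {g : ℕ → PCode} (h : ∀ i, CC0 (g i)) : CC0 (pcProdRange R g) := by
  have key : ∀ L : List ℕ, CC0 (L.foldr (fun j acc => pcMul (g j) acc) (pcNat 1)) := by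
    intro L
    induction L with
    | nil => exact CC0.nat 1
    | cons a L ih => exact (h a).mul ih
  exact key _

theorem CC0.dMom (i j : ℕ) : CC0 (dMom i j) :=
  (CC0.single _).mul ((CC0.prodRange fun _ => CC0.nat _).mul
    ((CC0.prodRange fun _ => CC0.nat _).mul (CC0.prodRange fun _ => CC0.single _)))

private theorem Cst_iFac (e : List ℕ) (i : ℕ) : CC0 (iFac e i) := by
  unfold iFac
  split
  · exact CC0.nil
  · exact CC0.single _

private theorem Cst_dFac (n : ℕ) (e : List ℕ) (j : ℕ) : CC0 (dFac n e j) := by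
  unfold dFac
  split
  · exact CC0.nil
  · exact CC0.dMom _ _

theorem CC0.pcAv (n m : ℕ) (p : PCode) : CC0 (pcAv n m p) := by
  intro t ht
  obtain ⟨s, _, hst⟩ := List.mem_flatMap.mp ht
  exact (CC0.single _).mul ((CC0.prodRange fun i => Cst_iFac _ i).mul
    (CC0.prodRange fun j => Cst_dFac _ _ j)) t hst

theorem CC0.c0C (m T : ℕ) : CC0 (c0C m T) :=
  ((CC0.single _).pow _).mul (CC0.prodRange fun _ => CC0.single _)

/-- `abs_pcEval_le` (CV/Disc.lean) for `m = 0`, `CC0.eval`. -/
theorem CC0.abs_le {q : PCode} (h : CC0 q) : |(cval q : ℝ)| ≤ pcK q := by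
  have hx : (fun i : Fin 0 => (0 : ℝ)) ∈ cube 0 := by
    simp [cube]
  have h1 := abs_pcEval_le q hx
  rwa [h.eval] at h1

private theorem Cst_inj {a b : ℚ} (h : (a : ℝ) = b) : a = b := by exact_mod_cast h

theorem cval_mul {p q : PCode} (hp : CC0 p) (hq : CC0 q) : cval (pcMul p q) = cval p * cval q := by
  have h1 := (hp.mul hq).eval 0 (fun _ => 0)
  rw [pcEval_mul, hp.eval, hq.eval] at h1
  apply Cst_inj
  rw [← h1]
  push_cast
  ring

theorem cval_append (p q : PCode) : cval (p ++ q) = cval p + cval q := by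
  simp [cval]

theorem cval_neg (p : PCode) : cval (pcNeg p) = - cval p := by
  induction p with
  | nil => simp [cval, pcNeg]
  | cons t p ih =>
    have : pcNeg (t :: p) = (qneg t.1, t.2) :: pcNeg p := rfl
    rw [this, Cst_cval_cons, Cst_cval_cons, ih, qval_qneg]
    ring

theorem cval_single (c : QCode) : cval [(c, [])] = qval c := by
  simp [cval]

theorem cval_nat (k : ℕ) : cval (pcNat k) = k := by
  rw [pcNat, cval_single, qval_qnat]

theorem cval_qinv (i : ℕ) : cval [(qinv i, [])] = 1 / ((i : ℚ) + 1) := by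
  rw [cval_single]
  simp [qinv, qval]

/-- For `1 ≤ N`. -/
theorem cval_qinv' {N : ℕ} (h : 1 ≤ N) : cval [(qinv (N - 1), [])] = 1 / (N : ℚ) := by
  rw [cval_qinv, Nat.cast_sub h]
  simp

theorem cval_pow {p : PCode} (hp : CC0 p) (k : ℕ) : cval (pcPow p k) = cval p ^ k := by
  induction k with
  | zero =>
    show cval (pcNat 1) = cval p ^ 0
    rw [cval_nat, pow_zero, Nat.cast_one]
  | succ k ih =>
    have : pcPow p (k + 1) = pcMul p (pcPow p k) := rfl
    rw [this, cval_mul hp (hp.pow k), ih, pow_succ, mul_comm]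

end Pool.Agent.Lib.MP_bbe012_lc.CD
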