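import Mathlib
import Pool.Agent.Lib.MP_bbe012_lc.CD.Defs
import Pool.Agent.Lib.MP_bbe012_lc.CV.Top

/-!
# Products of sets, Fubini's theorem
-/

namespace Pool.Agent.Lib.MP_bbe012_lc.CD

open MeasureTheory Set HC CV

variable {a b : ℕ} {A : Set (Fin a → ℝ)} {B : Set (Fin b → ℝ)}

theorem append_mem_pS {x : Fin a → ℝ} {y : Fin b → ℝ} :
    (Fin.append x y : Fin (a + b) → ℝ) ∈ pS A B ↔ x ∈ A ∧ y ∈ B := by
  unfold pS
  rw [Set.mem_ofPred_eq]
  simp only [Fin.append_left, Fin.append_right]

theorem append_parts (z : Fin (a + b) → ℝ) :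
    Fin.append (fun i => z (Fin.castAdd b i)) (fun i => z (Fin.natAdd a i)) = z := by
  funext i
  refine Fin.addCases (fun i => ?_) (fun i => ?_) i
  · rw [Fin.append_left]
  · rw [Fin.append_right]

theorem cube_pS (a b : ℕ) : cube (a + b) = pS (cube a) (cube b) := by
  ext z
  constructor
  · intro h
    exact ⟨fun i => h (Fin.castAdd b i), fun i => h (Fin.natAdd a i)⟩
  · rintro ⟨h1, h2⟩ i
    refine Fin.addCases (fun i => ?_) (fun i => ?_) i
    · exact h1 i
    · exact h2 i

theorem pS_mono {A' : Set (Fin a → ℝ)} {B' : Set (Fin b → ℝ)} (hA : A ⊆ A') (hB : B ⊆ B') :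
    pS A B ⊆ pS A' B' := fun _ hz => ⟨hA hz.1, hB hz.2⟩

theorem measurableSet_pS (hA : MeasurableSet A) (hB : MeasurableSet B) :
    MeasurableSet (pS A B) := by
  have h1 : Measurable fun z : Fin (a + b) → ℝ => fun i : Fin a => z (Fin.castAdd b i) :=
    measurable_pi_lambda _ fun i => measurable_pi_apply _
  have h2 : Measurable fun z : Fin (a + b) → ℝ => fun i : Fin b => z (Fin.natAdd a i) :=
    measurable_pi_lambda _ fun i => measurable_pi_apply _
  exact (h1 hA).inter (h2 hB)

theorem Prod_symm (x : Fin a → ℝ) (y : Fin b → ℝ) : (split a b).symm (x, y) = Fin.append x y := by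
  rw [MeasurableEquiv.symm_apply_eq, split_apply]
  ext i
  · simp
  · simp

theorem Prod_ind (G : (Fin (a + b) → ℝ) → ℝ) (x : Fin a → ℝ) (y : Fin b → ℝ) :
    (pS A B).indicator G (Fin.append x y) =
      A.indicator (fun x => B.indicator (fun y => G (Fin.append x y)) y) x := by
  have h1 : Fin.append x y ∈ pS A B ↔ x ∈ A ∧ y ∈ B := append_mem_pS
  by_cases hx : x ∈ A
  · by_cases hy : y ∈ B
    · rw [indicator_of_mem (h1.2 ⟨hx, hy⟩), indicator_of_mem hx, indicator_of_mem hy]
    · rw [indicator_of_notMem (fun h => hy (h1.1 h).2), indicator_of_mem hx, indicator_of_notMem hy]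
  · rw [indicator_of_notMem (fun h => hx (h1.1 h).1), indicator_of_notMem hx]

/-- As `integral_cube_add` (HC/LogB.lean): `split a b`, `measurePreserving_split` (Split.lean). -/
theorem integral_pS (hA : MeasurableSet A) (hB : MeasurableSet B) {G : (Fin (a + b) → ℝ) → ℝ}
    (hG : IntegrableOn G (pS A B)) :
    ∫ z in pS A B, G z = ∫ x in A, ∫ y in B, G (Fin.append x y) := by
  have hm := measurableSet_pS hA hB
  have hF : Integrable ((pS A B).indicator G) := (integrable_indicator_iff hm).2 hG
  have hmp := (measurePreserving_split a b).symm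
  have hF2 : Integrable (fun w : (Fin a → ℝ) × (Fin b → ℝ) => (pS A B).indicator G ((split a b).symm w)) :=
    hmp.integrable_comp_of_integrable hF
  rw [← integral_indicator hm, ← hmp.integral_comp (MeasurableEquiv.measurableEmbedding _)]
  rw [Measure.volume_eq_prod] at hF2 ⊢
  rw [integral_prod _ hF2, ← integral_indicator hA]
  refine integral_congr_ae (Filter.Eventually.of_forall fun x => ?_)
  show ∫ y, (pS A B).indicator G ((split a b).symm (x, y)) = _
  simp only [Prod_symm, Prod_ind]
  by_cases hx : x ∈ A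
  · rw [indicator_of_mem hx]
    simp only [indicator_of_mem hx]
    rw [integral_indicator hB]
  · rw [indicator_of_notMem hx]
    simp only [indicator_of_notMem hx]
    exact integral_zero _ _

/-- As `Top_integrable_add` (CV/Top.lean). -/
theorem integrable_pS (hA : MeasurableSet A) (hB : MeasurableSet B) {G : (Fin (a + b) → ℝ) → ℝ}
    (hG : IntegrableOn G (pS A B)) :
    IntegrableOn (fun x => ∫ y in B, G (Fin.append x y)) A := by
  have hF : Integrable ((pS A B).indicator G) :=
    (integrable_indicator_iff (measurableSet_pS hA hB)).2 hG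
  have hmp := (measurePreserving_split a b).symm
  have hF2 : Integrable (fun w : (Fin a → ℝ) × (Fin b → ℝ) =>
      (pS A B).indicator G ((split a b).symm w)) := hmp.integrable_comp_of_integrable hF
  rw [Measure.volume_eq_prod] at hF2
  have h3 := hF2.integral_prod_left
  rw [← integrable_indicator_iff hA]
  refine h3.congr (Filter.Eventually.of_forall fun x => ?_)
  simp only [Prod_symm, Prod_ind]
  by_cases hx : x ∈ A
  · simp only [indicator_of_mem hx]
    rw [integral_indicator hB]
  · simp only [indicator_of_notMem hx]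
    exact integral_zero _ _

/-- `Measure.prod_prod`, `measurePreserving_split`. -/
theorem volume_pS (hA : MeasurableSet A) (hB : MeasurableSet B) :
    volume (pS A B) = volume A * volume B := by
  have h1 : pS A B = (split a b) ⁻¹' (A ×ˢ B) := by
    ext z
    rw [mem_preimage, split_apply, mem_prod]
    rfl
  rw [h1, (measurePreserving_split a b).measure_preimage (hA.prod hB).nullMeasurableSet,
    Measure.volume_eq_prod, Measure.prod_prod]

/-- `pS A B \ pS A' B = pS (A \ A') B`, `volume_pS`. -/
theorem volume_pS_diff {A' : Set (Fin a → ℝ)} (hA : MeasurableSet A) (hA' : MeasurableSet A')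
    (hB : MeasurableSet B) (h : volume (A \ A') = 0) : volume (pS A B \ pS A' B) = 0 := by
  have h1 : pS A B \ pS A' B = pS (A \ A') B := by
    ext z
    constructor
    · rintro ⟨h1, h2⟩
      exact ⟨⟨h1.1, fun h3 => h2 ⟨h3, h1.2⟩⟩, h1.2⟩
    · rintro ⟨h1, h2⟩
      exact ⟨⟨h1.1, h2⟩, fun h3 => h1.2 h3.1⟩
  rw [h1, volume_pS (hA.diff hA') hB, h, zero_mul]

end Pool.Agent.Lib.MP_bbe012_lc.CD
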