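import Mathlib
import Pool.Agent.Lib.MP_bbe012_lc.CD.Prod
import Pool.Agent.Lib.MP_bbe012_lc.CV.Disc2

/-!
# The product of intervals and discs
-/

namespace Pool.Agent.Lib.MP_bbe012_lc.CD

open MeasureTheory Set HC CV

theorem disc_sub_cube : disc ⊆ cube 2 := by
  intro w hw i
  have h : w 0 ^ 2 + w 1 ^ 2 < 1 := hw
  have h0 : |w 0| < 1 := by
    rw [← sq_lt_one_iff_abs_lt_one]
    nlinarith [sq_nonneg (w 1)]
  have h1 : |w 1| < 1 := by
    rw [← sq_lt_one_iff_abs_lt_one]
    nlinarith [sq_nonneg (w 0)]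
  fin_cases i
  · exact abs_lt.1 h0
  · exact abs_lt.1 h1

theorem measurableSet_disc : MeasurableSet disc := by
  unfold disc
  exact measurableSet_lt (by fun_prop) measurable_const

/-- Polar coordinates, or `integral_pp_disc` (CV/Disc2.lean) with `k = 0`, `a = 1`, `c = 0`, `Y = 1`: `pp 0 (1 - |w|^2)` is the indicator of the disc; or
`EuclideanSpace.volume_ball` / `Complex.volume_ball`. -/
theorem volume_disc : volume disc = ENNReal.ofReal Real.pi := by
  have h := integral_pp_disc (a := 1) (c := 0) (Y := 1) one_pos (by norm_num) 0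
  have hfun : (fun v : Fin 2 → ℝ => pp 0 (1 - ((1 * v 0 - 0) ^ 2 + (1 * v 1) ^ 2))) =
      disc.indicator (fun _ => (1 : ℝ)) := by
    funext v
    by_cases hv : v ∈ disc
    · have h1 : v 0 ^ 2 + v 1 ^ 2 < 1 := hv
      rw [indicator_of_mem hv, pp_of_pos (by linarith)]
      simp
    · have h1 : ¬ v 0 ^ 2 + v 1 ^ 2 < 1 := hv
      rw [indicator_of_notMem hv, pp_of_nonpos (by linarith)]
  rw [hfun, setIntegral_indicator measurableSet_disc, inter_eq_right.2 disc_sub_cube,
    pp_of_pos (by norm_num)] at h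
  simp only [integral_const, smul_eq_mul, mul_one, MeasurableSet.univ, measureReal_restrict_apply,
    univ_inter, Nat.cast_zero, zero_add, one_pow, pow_one, div_one] at h
  have hfin : volume disc ≠ ⊤ := by
    refine ne_top_of_le_ne_top ?_ (measure_mono disc_sub_cube)
    rw [volume_cube]
    exact ENNReal.pow_ne_top ENNReal.ofNat_ne_top
  rw [← h, measureReal_def, ENNReal.ofReal_toReal hfin]

/-- The types are the same: `n + 2 * 0` is `n` by definition. -/
theorem boxDisc_zero (n : ℕ) : boxDisc n 0 = cube (n + 2 * 0) := by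
  ext x
  constructor
  · rintro ⟨h, -⟩ i
    exact abs_lt.1 (h i)
  · intro h
    exact ⟨fun i => abs_lt.2 (h i), fun j => j.elim0⟩

/-- The types `Fin (n + 2 * (m + 1)) → ℝ` and `Fin (n + 2 * m + 2) → ℝ` are equal by definition. -/
theorem boxDisc_succ (n m : ℕ) :
    (boxDisc n (m + 1) : Set (Fin (n + 2 * m + 2) → ℝ)) = pS (boxDisc n m) disc := by
  ext z
  constructor
  · rintro ⟨h1, h2⟩
    exact ⟨⟨fun i => h1 i, fun j => h2 j.castSucc⟩, h2 (Fin.last m)⟩
  · rintro ⟨⟨h1, h2⟩, h3⟩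
    refine ⟨fun i => h1 i, fun j => ?_⟩
    rcases j.eq_castSucc_or_eq_last with ⟨j', rfl⟩ | rfl
    · exact h2 j'
    · exact h3

theorem boxDisc_sub_cube (n m : ℕ) : boxDisc n m ⊆ cube (n + 2 * m) := by
  induction m with
  | zero => exact (boxDisc_zero n).le
  | succ m ih =>
    show (boxDisc n (m + 1) : Set (Fin (n + 2 * m + 2) → ℝ)) ⊆ cube (n + 2 * m + 2)
    rw [boxDisc_succ, cube_pS]
    exact pS_mono ih disc_sub_cube

theorem measurableSet_boxDisc (n m : ℕ) : MeasurableSet (boxDisc n m) := by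
  have h : boxDisc n m = (⋂ i : Fin n, {x | |x (Fin.castAdd (2 * m) i)| < 1}) ∩
      ⋂ j : Fin m, {x | x ⟨n + 2 * j, by omega⟩ ^ 2 + x ⟨n + 2 * j + 1, by omega⟩ ^ 2 < 1} := by
    ext x
    simp [boxDisc]
  rw [h]
  refine (MeasurableSet.iInter fun i => ?_).inter (MeasurableSet.iInter fun j => ?_)
  · exact measurableSet_lt (by fun_prop) measurable_const
  · exact measurableSet_lt (by fun_prop) measurable_const

/-- Induction on `m`: `boxDisc_zero`, `volume_cube` (HC/LogA.lean), `boxDisc_succ`, `volume_pS`, `volume_disc`. -/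
theorem volume_boxDisc (n m : ℕ) : volume (boxDisc n m) = ENNReal.ofReal (2 ^ n * Real.pi ^ m) := by
  induction m with
  | zero =>
    rw [boxDisc_zero, volume_cube, pow_zero, mul_one, ENNReal.ofReal_pow (by norm_num)]
    simp
  | succ m ih =>
    show volume (boxDisc n (m + 1) : Set (Fin (n + 2 * m + 2) → ℝ)) = _
    rw [boxDisc_succ, volume_pS (measurableSet_boxDisc n m) measurableSet_disc, ih, volume_disc,
      ← ENNReal.ofReal_mul (by positivity)]
    congr 1
    ring

theorem integrableOn_boxDisc {n m : ℕ} {φ : (Fin (n + 2 * m) → ℝ) → ℝ} (h : IntegrableOn φ (cube (n + 2 * m))) :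
    IntegrableOn φ (boxDisc n m) := h.mono_set (boxDisc_sub_cube n m)

theorem integrableOn_boxDisc_pc (n m : ℕ) (p : PCode) :
    IntegrableOn (fun x => pcEval (n + 2 * m) p x) (boxDisc n m) :=
  integrableOn_boxDisc (LogB_aux2 _ (continuous_pcEval _ p))

theorem integrableOn_boxDisc_pp (n m k : ℕ) (p : PCode) :
    IntegrableOn (fun x => pp k (pcEval (n + 2 * m) p x)) (boxDisc n m) :=
  integrableOn_boxDisc (integrableOn_pp_pcEval _ k p)

/-- Fubini's theorem (`integral_pS`, `boxDisc_succ`). -/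
theorem Av_succ {n m : ℕ} {φ : (Fin (n + 2 * (m + 1)) → ℝ) → ℝ}
    (h : IntegrableOn φ (boxDisc n (m + 1))) :
    Av n (m + 1) φ = Av n m fun x => dAv fun w => φ (Fin.append x w : Fin (n + 2 * m + 2) → ℝ) := by
  have h' : IntegrableOn (fun z : Fin (n + 2 * m + 2) → ℝ => φ z) (pS (boxDisc n m) disc) := by
    rw [← boxDisc_succ]
    exact h
  have h1 : ∫ x in boxDisc n (m + 1), φ x =
      ∫ z in (pS (boxDisc n m) disc : Set (Fin (n + 2 * m + 2) → ℝ)), φ z := by
    rw [← boxDisc_succ]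
    rfl
  unfold Av dAv
  rw [h1, integral_pS (measurableSet_boxDisc n m) measurableSet_disc h', integral_div, div_div]
  congr 1
  ring

theorem Av_congr {n m : ℕ} {φ ψ : (Fin (n + 2 * m) → ℝ) → ℝ} (h : ∀ x ∈ boxDisc n m, φ x = ψ x) :
    Av n m φ = Av n m ψ := by
  unfold Av
  rw [setIntegral_congr_fun (measurableSet_boxDisc n m) h]

theorem Av_add {n m : ℕ} {φ ψ : (Fin (n + 2 * m) → ℝ) → ℝ} (h : IntegrableOn φ (boxDisc n m))
    (h' : IntegrableOn ψ (boxDisc n m)) : Av n m (fun x => φ x + ψ x) = Av n m φ + Av n m ψ := by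
  unfold Av
  rw [integral_add h h', add_div]

theorem Av_sub {n m : ℕ} {φ ψ : (Fin (n + 2 * m) → ℝ) → ℝ} (h : IntegrableOn φ (boxDisc n m))
    (h' : IntegrableOn ψ (boxDisc n m)) : Av n m (fun x => φ x - ψ x) = Av n m φ - Av n m ψ := by
  unfold Av
  rw [integral_sub h h', sub_div]

theorem Av_const_mul {n m : ℕ} (c : ℝ) (φ : (Fin (n + 2 * m) → ℝ) → ℝ) :
    Av n m (fun x => c * φ x) = c * Av n m φ := by
  unfold Av
  rw [integral_const_mul, mul_div_assoc]

theorem Dom_real (n m : ℕ) : volume.real (boxDisc n m) = 2 ^ n * Real.pi ^ m := by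
  rw [measureReal_def, volume_boxDisc, ENNReal.toReal_ofReal (by positivity)]

theorem Av_const (n m : ℕ) (c : ℝ) : Av n m (fun _ => c) = c := by
  unfold Av
  rw [setIntegral_const, Dom_real, smul_eq_mul]
  have h : (2 : ℝ) ^ n * Real.pi ^ m ≠ 0 := by positivity
  field_simp

/-- Bounds for averages. -/
theorem abs_Av_le {n m : ℕ} {φ : (Fin (n + 2 * m) → ℝ) → ℝ} {K : ℝ} (h : ∀ x ∈ boxDisc n m, |φ x| ≤ K) :
    |Av n m φ| ≤ K := by
  have hp : (0 : ℝ) < 2 ^ n * Real.pi ^ m := by positivity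
  have hfin : volume (boxDisc n m) < ⊤ := by
    rw [volume_boxDisc]
    exact ENNReal.ofReal_lt_top
  have h1 := norm_setIntegral_le_of_norm_le_const hfin (f := φ) (C := K) h
  rw [Dom_real, Real.norm_eq_abs] at h1
  unfold Av
  rw [abs_div, abs_of_pos hp, div_le_iff₀ hp]
  exact h1

/-- As `II_zero` (CV/Run.lean). -/
theorem AA_zero (n m : ℕ) (p : PCode) :
    AA n m p 0 = (volume (posBD ((n, m), p))).toReal / (2 ^ n * Real.pi ^ m) := by
  have hms : MeasurableSet {x : Fin (n + 2 * m) → ℝ | 0 < pcEval (n + 2 * m) p x} :=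
    measurableSet_lt measurable_const (measurable_pcEval (n + 2 * m) p)
  have hset : posBD ((n, m), p) = boxDisc n m ∩
      {x : Fin (n + 2 * m) → ℝ | 0 < pcEval (n + 2 * m) p x} := rfl
  have hfun : (fun x : Fin (n + 2 * m) → ℝ => pp 0 (pcEval (n + 2 * m) p x)) =
      ({x : Fin (n + 2 * m) → ℝ | 0 < pcEval (n + 2 * m) p x}).indicator (fun _ => (1 : ℝ)) := by
    funext x
    by_cases hx : 0 < pcEval (n + 2 * m) p x
    · rw [indicator_of_mem (by exact hx)]
      simp [pp, hx]
    · rw [indicator_of_notMem (by exact hx)]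
      simp [pp, hx]
  unfold AA Av
  rw [hfun, setIntegral_indicator hms, ← hset]
  simp [Measure.real]

end Pool.Agent.Lib.MP_bbe012_lc.CD
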