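import Mathlib
import Pool.Agent.Lib.MP_bbe012_lc.CD.Dom

/-!
# Averages over the disc
-/

namespace Pool.Agent.Lib.MP_bbe012_lc.CD

open MeasureTheory Set HC CV

/-- An integral over the disc as an integral over the plane. -/
theorem DiscA_prod (f : (Fin 2 → ℝ) → ℝ) (g : ℝ × ℝ → ℝ) (h : ∀ w : Fin 2 → ℝ, g (w 0, w 1) = f w) :
    ∫ w in disc, f w = ∫ w : ℝ × ℝ, {w : ℝ × ℝ | w.1 ^ 2 + w.2 ^ 2 < 1}.indicator g w := by
  rw [← integral_indicator measurableSet_disc]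
  have h2 := (volume_preserving_finTwoArrow ℝ).integral_comp'
      (fun w : ℝ × ℝ => {w : ℝ × ℝ | w.1 ^ 2 + w.2 ^ 2 < 1}.indicator g w)
  rw [← h2]
  refine integral_congr_ae (Filter.Eventually.of_forall fun w => ?_)
  show disc.indicator f w = {w : ℝ × ℝ | w.1 ^ 2 + w.2 ^ 2 < 1}.indicator g (w 0, w 1)
  by_cases hw : w ∈ disc
  · have hw' : ((w 0, w 1) : ℝ × ℝ) ∈ {w : ℝ × ℝ | w.1 ^ 2 + w.2 ^ 2 < 1} := hw
    rw [indicator_of_mem hw, indicator_of_mem hw', h]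
  · have hw' : ((w 0, w 1) : ℝ × ℝ) ∉ {w : ℝ × ℝ | w.1 ^ 2 + w.2 ^ 2 < 1} := hw
    rw [indicator_of_notMem hw, indicator_of_notMem hw']

/-- Polar coordinates. -/
theorem DiscA_polar (ψ : ℝ → ℝ) :
    ∫ w : ℝ × ℝ, ψ (w.1 ^ 2 + w.2 ^ 2) = Real.pi * ∫ s in Ioi (0 : ℝ), ψ s := by
  rw [← integral_comp_polarCoord_symm (fun w : ℝ × ℝ => ψ (w.1 ^ 2 + w.2 ^ 2))]
  have h1 : ∫ p in polarCoord.target, p.1 • ψ ((polarCoord.symm p).1 ^ 2 + (polarCoord.symm p).2 ^ 2) =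
      ∫ p in Ioi (0 : ℝ) ×ˢ Ioo (-Real.pi) Real.pi, (p.1 * ψ (p.1 ^ 2)) * (fun _ : ℝ => (1 : ℝ)) p.2 := by
    refine setIntegral_congr_fun (measurableSet_Ioi.prod measurableSet_Ioo) ?_
    intro p _
    show p.1 • ψ ((polarCoord.symm p).1 ^ 2 + (polarCoord.symm p).2 ^ 2) = (p.1 * ψ (p.1 ^ 2)) * 1
    rw [polarCoord_symm_apply]
    have h2 : (p.1 * Real.cos p.2) ^ 2 + (p.1 * Real.sin p.2) ^ 2 = p.1 ^ 2 := by
      have h3 := Real.cos_sq_add_sin_sq p.2
      calc (p.1 * Real.cos p.2) ^ 2 + (p.1 * Real.sin p.2) ^ 2 =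
          p.1 ^ 2 * (Real.cos p.2 ^ 2 + Real.sin p.2 ^ 2) := by ring
        _ = p.1 ^ 2 := by rw [h3, mul_one]
    show p.1 • ψ ((p.1 * Real.cos p.2) ^ 2 + (p.1 * Real.sin p.2) ^ 2) = (p.1 * ψ (p.1 ^ 2)) * 1
    rw [h2, smul_eq_mul, mul_one]
  rw [h1, Measure.volume_eq_prod,
    setIntegral_prod_mul (fun r : ℝ => r * ψ (r ^ 2)) (fun _ : ℝ => (1 : ℝ)) (Ioi 0) (Ioo (-Real.pi) Real.pi)]
  have h2 : ∫ _ in Ioo (-Real.pi) Real.pi, (1 : ℝ) = 2 * Real.pi := by
    rw [setIntegral_const, smul_eq_mul, mul_one, Real.volume_real_Ioo_of_le (by linarith [Real.pi_pos])]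
    ring
  have h3 : ∫ s in Ioi (0 : ℝ), ψ s = 2 * ∫ r in Ioi (0 : ℝ), r * ψ (r ^ 2) := by
    rw [← integral_comp_rpow_Ioi ψ (two_ne_zero : (2 : ℝ) ≠ 0), ← integral_const_mul]
    refine setIntegral_congr_fun measurableSet_Ioi ?_
    intro r hr
    show (|(2 : ℝ)| * r ^ ((2 : ℝ) - 1)) • ψ (r ^ (2 : ℝ)) = 2 * (r * ψ (r ^ 2))
    have h4 : (2 : ℝ) - 1 = 1 := by norm_num
    have h5 : r ^ (2 : ℝ) = r ^ 2 := by
      rw [← Real.rpow_natCast]
      norm_num
    rw [h4, Real.rpow_one, h5, abs_of_pos (by norm_num : (0 : ℝ) < 2), smul_eq_mul, mul_assoc]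
  rw [h2, h3]
  ring

/-- Polar coordinates and the substitution `s = r^2` (compare the proof of `integral_pp_plane` in CV/Disc2.lean). -/
theorem dAv_radial {φ : ℝ → ℝ} (hφ : Measurable φ) :
    dAv (fun w => φ (w 0 ^ 2 + w 1 ^ 2)) = ∫ s in Ioo (0 : ℝ) 1, φ s := by
  unfold dAv
  rw [DiscA_prod _ (fun w => φ (w.1 ^ 2 + w.2 ^ 2)) (fun w => rfl)]
  have h1 : (fun w : ℝ × ℝ => {w : ℝ × ℝ | w.1 ^ 2 + w.2 ^ 2 < 1}.indicator
      (fun w => φ (w.1 ^ 2 + w.2 ^ 2)) w) = fun w => (Iio (1 : ℝ)).indicator φ (w.1 ^ 2 + w.2 ^ 2) := by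
    funext w
    by_cases hw : w.1 ^ 2 + w.2 ^ 2 < 1
    · rw [indicator_of_mem (show w ∈ {w : ℝ × ℝ | w.1 ^ 2 + w.2 ^ 2 < 1} from hw),
        indicator_of_mem (show w.1 ^ 2 + w.2 ^ 2 ∈ Iio (1 : ℝ) from hw)]
    · rw [indicator_of_notMem (show w ∉ {w : ℝ × ℝ | w.1 ^ 2 + w.2 ^ 2 < 1} from hw),
        indicator_of_notMem (show w.1 ^ 2 + w.2 ^ 2 ∉ Iio (1 : ℝ) from hw)]
  rw [h1, DiscA_polar, setIntegral_indicator measurableSet_Iio, Ioi_inter_Iio]
  have hpi : Real.pi ≠ 0 := Real.pi_ne_zero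
  field_simp

/-- The integrand vanishes for `v ∈ cube 2` outside of the disc: `|(Y v_0 - c, Y v_1)| < √a` implies `|Y v| < √a + |c| ≤ Y`. So the integral over
the disc is the integral over `cube 2`, `integral_pp_disc` (CV/Disc2.lean). -/
theorem dAv_pp {a c Y : ℝ} (hY : 0 < Y) (h : |c| + √a ≤ Y) (k : ℕ) :
    dAv (fun v => pp k (a - ((Y * v 0 - c) ^ 2 + (Y * v 1) ^ 2))) =
      1 / (Y ^ 2 * (k + 1)) * pp (k + 1) a := by
  have h1 : ∫ v in disc, pp k (a - ((Y * v 0 - c) ^ 2 + (Y * v 1) ^ 2)) =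
      ∫ v in cube 2, pp k (a - ((Y * v 0 - c) ^ 2 + (Y * v 1) ^ 2)) := by
    symm
    refine setIntegral_eq_of_subset_of_forall_sdiff_eq_zero isOpen_cube.measurableSet disc_sub_cube ?_
    intro v hv
    refine pp_of_nonpos ?_
    have hv2 : 1 ≤ v 0 ^ 2 + v 1 ^ 2 := not_lt.1 hv.2
    by_contra hcon
    have h3 : (Y * v 0 - c) ^ 2 + (Y * v 1) ^ 2 < a := by linarith
    have ha : 0 < a := lt_of_le_of_lt (by positivity) h3
    have hs : 0 < √a := Real.sqrt_pos.mpr ha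
    have hsq : √a ^ 2 = a := Real.sq_sqrt ha.le
    have hc : |c| ≤ Y - √a := by linarith
    have hYs : 0 ≤ Y - √a := le_trans (abs_nonneg c) hc
    have hc2 : c ^ 2 ≤ (Y - √a) ^ 2 := by
      rw [← sq_abs c]
      exact pow_le_pow_left₀ (abs_nonneg c) hc 2
    -- `|Y v|^2 = |Y v - (c, 0)|^2 + 2 c (Y v_0 - c) + c^2 < a + 2 |c| √a + c^2 = (√a + |c|)^2 ≤ Y^2`
    have h4 : |Y * v 0 - c| ≤ √a := by
      apply Real.le_sqrt_of_sq_le
      rw [sq_abs]
      nlinarith [sq_nonneg (Y * v 1)]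
    have h5 : c * (Y * v 0 - c) ≤ |c| * √a := by
      calc c * (Y * v 0 - c) ≤ |c * (Y * v 0 - c)| := le_abs_self _
        _ = |c| * |Y * v 0 - c| := abs_mul _ _
        _ ≤ |c| * √a := mul_le_mul_of_nonneg_left h4 (abs_nonneg c)
    have h6 : (√a + |c|) ^ 2 ≤ Y ^ 2 := pow_le_pow_left₀ (by positivity) (by linarith) 2
    have h7 : |c| ^ 2 = c ^ 2 := sq_abs c
    have h8 : Y ^ 2 * 1 ≤ Y ^ 2 * (v 0 ^ 2 + v 1 ^ 2) := mul_le_mul_of_nonneg_left hv2 (by positivity)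
    nlinarith
  have hpi : Real.pi ≠ 0 := Real.pi_ne_zero
  unfold dAv
  rw [h1, integral_pp_disc hY h k]
  field_simp

/-- `dAv_radial`. -/
theorem dAv_top {M b : ℝ} (hM : 0 < M) (hb : b ≤ M) :
    dAv (fun w => pp 0 (M * (w 0 ^ 2 + w 1 ^ 2) - b)) = 1 - pp 1 b / M := by
  rw [dAv_radial (φ := fun s => pp 0 (M * s - b)) ((measurable_pp 0).comp (by fun_prop))]
  have h1 : ∫ s in Ioo (0 : ℝ) 1, pp 0 (M * s - b) = ∫ s in Ioo (0 : ℝ) 1, (Ioi (b / M)).indicator (fun _ => (1 : ℝ)) s := by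
    refine setIntegral_congr_fun measurableSet_Ioo ?_
    intro s _
    show pp 0 (M * s - b) = (Ioi (b / M)).indicator (fun _ => (1 : ℝ)) s
    by_cases hs : b / M < s
    · rw [indicator_of_mem (show s ∈ Ioi (b / M) from hs), pp_of_pos, pow_zero]
      have := (div_lt_iff₀ hM).1 hs
      linarith
    · rw [indicator_of_notMem (show s ∉ Ioi (b / M) from hs), pp_of_nonpos]
      have := (le_div_iff₀ hM).1 (not_lt.1 hs)
      linarith
  rw [h1, setIntegral_indicator measurableSet_Ioi, setIntegral_const, smul_eq_mul, mul_one]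
  have hbM : b / M ≤ 1 := (div_le_one hM).2 hb
  rcases le_or_gt b 0 with hb0 | hb0
  · have h2 : Ioo (0 : ℝ) 1 ∩ Ioi (b / M) = Ioo 0 1 := by
      refine inter_eq_left.2 fun s hs => ?_
      exact lt_of_le_of_lt (div_nonpos_of_nonpos_of_nonneg hb0 hM.le) hs.1
    rw [h2, Real.volume_real_Ioo_of_le zero_le_one, pp_of_nonpos hb0]
    ring
  · have h2 : Ioo (0 : ℝ) 1 ∩ Ioi (b / M) = Ioo (b / M) 1 := by
      ext s
      have h3 : 0 < b / M := div_pos hb0 hM
      constructor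
      · rintro ⟨hs1, hs2⟩
        exact ⟨hs2, hs1.2⟩
      · rintro ⟨hs1, hs2⟩
        exact ⟨⟨h3.trans hs1, hs2⟩, hs1⟩
    rw [h2, Real.volume_real_Ioo_of_le hbM, pp_of_pos hb0, pow_one]

/-- `dAv_radial`: `∫ s in (0, 1), pp k (h - L (1 - s)) = ∫ s in (0, 1), pp k (h - L s) = pp (k + 1) h / (L (k + 1))` for `h ≤ L`. -/
theorem dAv_edge {L h : ℝ} (hL : 0 < L) (hh : h ≤ L) (k : ℕ) :
    dAv (fun w => pp k (h - L * (1 - (w 0 ^ 2 + w 1 ^ 2)))) = pp (k + 1) h / (L * (k + 1)) := by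
  rw [dAv_radial (φ := fun s => pp k (h - L * (1 - s))) ((measurable_pp k).comp (by fun_prop))]
  rcases le_or_gt h 0 with h0 | h0
  · rw [pp_of_nonpos h0, zero_div]
    refine (setIntegral_congr_fun measurableSet_Ioo fun s hs => ?_).trans (integral_zero _ _)
    refine pp_of_nonpos ?_
    have h1 : 0 < 1 - s := by linarith [hs.2]
    have h2 : 0 < L * (1 - s) := mul_pos hL h1
    linarith
  · rw [pp_of_pos h0]
    have hs1 : h / L ≤ 1 := (div_le_one hL).2 hh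
    have hs0 : 0 < h / L := div_pos h0 hL
    have hs2 : h / L * L = h := div_mul_cancel₀ h hL.ne'
    have h1 : ∫ s in Ioo (0 : ℝ) 1, pp k (h - L * (1 - s)) = ∫ s in Ioo (1 - h / L) 1, pp k (h - L * (1 - s)) := by
      refine setIntegral_eq_of_subset_of_forall_sdiff_eq_zero measurableSet_Ioo
        (Ioo_subset_Ioo_left (by linarith)) ?_
      intro s hs
      refine pp_of_nonpos ?_
      have h2 : s ≤ 1 - h / L := by
        by_contra hcon
        exact hs.2 ⟨not_le.1 hcon, hs.1.2⟩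
      have h3 : h / L * L ≤ (1 - s) * L := mul_le_mul_of_nonneg_right (by linarith) hL.le
      rw [hs2] at h3
      linarith
    have h2 : ∫ s in Ioo (1 - h / L) 1, pp k (h - L * (1 - s)) = ∫ s in Ioo (1 - h / L) 1, (h - L * (1 - s)) ^ k := by
      refine setIntegral_congr_fun measurableSet_Ioo ?_
      intro s hs
      refine pp_of_pos ?_
      have h3 : (1 - s) * L < h / L * L := mul_lt_mul_of_pos_right (by linarith [hs.1]) hL
      rw [hs2] at h3
      linarith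
    have h3 : ∫ s in Ioo (1 - h / L) 1, (h - L * (1 - s)) ^ k = ∫ s in (1 - h / L)..1, (h - L * (1 - s)) ^ k := by
      rw [intervalIntegral.integral_of_le (by linarith), integral_Ioc_eq_integral_Ioo]
    have hk : (k : ℝ) + 1 ≠ 0 := by positivity
    have h4 : ∫ s in (1 - h / L)..1, (h - L * (1 - s)) ^ k =
        (h - L * (1 - 1)) ^ (k + 1) / (L * (k + 1)) - (h - L * (1 - (1 - h / L))) ^ (k + 1) / (L * (k + 1)) := by
      have hd : ∀ s ∈ uIcc (1 - h / L) 1, HasDerivAt (fun s : ℝ => (h - L * (1 - s)) ^ (k + 1) / (L * (k + 1)))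
          ((h - L * (1 - s)) ^ k) s := by
        intro s _
        have h5 : HasDerivAt (fun s : ℝ => h - L * (1 - s)) L s := by
          have h6 := (((hasDerivAt_id s).const_sub 1).const_mul L).const_sub h
          simpa using h6
        have h7 := (h5.pow (k + 1)).div_const (L * ((k : ℝ) + 1))
        refine h7.congr_deriv ?_
        simp only [Nat.add_sub_cancel]
        push_cast
        field_simp
      have hi : IntervalIntegrable (fun s : ℝ => (h - L * (1 - s)) ^ k) volume (1 - h / L) 1 :=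
        (by fun_prop : Continuous fun s : ℝ => (h - L * (1 - s)) ^ k).intervalIntegrable _ _
      exact intervalIntegral.integral_eq_sub_of_hasDerivAt hd hi
    have h5 : h - L * (1 - (1 - h / L)) = 0 := by
      have : L * (h / L) = h := by rw [mul_comm]; exact hs2
      linarith
    rw [h1, h2, h3, h4, h5, zero_pow (Nat.succ_ne_zero k)]
    ring

theorem dAv_const (c : ℝ) : dAv (fun _ => c) = c := by
  unfold dAv
  rw [setIntegral_const, measureReal_def, volume_disc, ENNReal.toReal_ofReal Real.pi_pos.le, smul_eq_mul]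
  have hpi : Real.pi ≠ 0 := Real.pi_ne_zero
  field_simp

/-- `dAv_radial`. -/
theorem dAv_norm : dAv (fun w => w 0 ^ 2 + w 1 ^ 2) = 1 / 2 := by
  rw [dAv_radial (φ := fun s => s) measurable_id, ← integral_Ioc_eq_integral_Ioo,
    ← intervalIntegral.integral_of_le zero_le_one, integral_id]
  norm_num

/-- The symmetry `w ↦ -w`, or `(w_0, w_1) ↦ (-w_0, w_1)`. -/
theorem dAv_x : dAv (fun w => w 0) = 0 := by
  unfold dAv
  have h1 : ∫ w in disc, w 0 = -∫ w in disc, w 0 := by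
    rw [← integral_indicator measurableSet_disc]
    have h2 := integral_neg_eq_self (μ := (volume : Measure (Fin 2 → ℝ))) (disc.indicator fun w => w 0)
    rw [← integral_neg, ← h2]
    refine integral_congr_ae (Filter.Eventually.of_forall fun w => ?_)
    show disc.indicator (fun w : Fin 2 → ℝ => w 0) (-w) = - disc.indicator (fun w : Fin 2 → ℝ => w 0) w
    by_cases hw : w ∈ disc
    · have hw' : -w ∈ disc := by
        have h3 : w 0 ^ 2 + w 1 ^ 2 < 1 := hw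
        show (-w) 0 ^ 2 + (-w) 1 ^ 2 < 1
        simpa using h3
      rw [indicator_of_mem hw, indicator_of_mem hw']
      rfl
    · have hw' : -w ∉ disc := by
        intro h3
        apply hw
        have h4 : (-w) 0 ^ 2 + (-w) 1 ^ 2 < 1 := h3
        show w 0 ^ 2 + w 1 ^ 2 < 1
        simpa using h4
      rw [indicator_of_notMem hw, indicator_of_notMem hw', neg_zero]
  have h2 : ∫ w in disc, w 0 = 0 := by linarith
  rw [h2, zero_div]

theorem dAv_congr {φ ψ : (Fin 2 → ℝ) → ℝ} (h : ∀ w ∈ disc, φ w = ψ w) : dAv φ = dAv ψ := by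
  unfold dAv
  rw [setIntegral_congr_fun measurableSet_disc h]

theorem dAv_add {φ ψ : (Fin 2 → ℝ) → ℝ} (h : IntegrableOn φ disc) (h' : IntegrableOn ψ disc) :
    dAv (fun w => φ w + ψ w) = dAv φ + dAv ψ := by
  unfold dAv
  rw [integral_add h h', add_div]

theorem dAv_sub {φ ψ : (Fin 2 → ℝ) → ℝ} (h : IntegrableOn φ disc) (h' : IntegrableOn ψ disc) :
    dAv (fun w => φ w - ψ w) = dAv φ - dAv ψ := by
  unfold dAv
  rw [integral_sub h h', sub_div]

theorem dAv_const_mul (c : ℝ) (φ : (Fin 2 → ℝ) → ℝ) : dAv (fun w => c * φ w) = c * dAv φ := by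
  unfold dAv
  rw [integral_const_mul, mul_div_assoc]

/-- Continuous functions, and truncated powers of continuous functions, are integrable on the disc. -/
theorem integrableOn_disc {φ : (Fin 2 → ℝ) → ℝ} (h : Continuous φ) : IntegrableOn φ disc :=
  (LogB_aux2 _ h).mono_set disc_sub_cube

theorem integrableOn_disc_pp {φ : (Fin 2 → ℝ) → ℝ} (h : Continuous φ) (k : ℕ) :
    IntegrableOn (fun w => pp k (φ w)) disc := by
  have hK : IsCompact (Icc (fun _ => (-1 : ℝ)) (fun _ => (1 : ℝ)) : Set (Fin 2 → ℝ)) := isCompact_Icc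
  obtain ⟨B, hB⟩ := hK.exists_bound_of_continuousOn h.continuousOn
  refine IntegrableOn.mono_set (integrableOn_pp k h.measurable (B := B) fun x hx => ?_) disc_sub_cube
  have h1 := hB x ⟨fun i => (hx i).1.le, fun i => (hx i).2.le⟩
  rwa [Real.norm_eq_abs] at h1

/-- The symmetry which exchanges the coordinates and `dAv_norm`. -/
theorem DiscA_swap : dAv (fun w => w 0 ^ 2) = dAv (fun w => w 1 ^ 2) := by
  unfold dAv
  rw [DiscA_prod _ (fun w => w.1 ^ 2) (fun w => rfl), DiscA_prod _ (fun w => w.2 ^ 2) (fun w => rfl)]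
  congr 1
  have h1 := integral_prod_swap (μ := (volume : Measure ℝ)) (ν := (volume : Measure ℝ))
    (fun w : ℝ × ℝ => {w : ℝ × ℝ | w.1 ^ 2 + w.2 ^ 2 < 1}.indicator (fun w => w.2 ^ 2) w)
  rw [← Measure.volume_eq_prod] at h1
  rw [← h1]
  refine integral_congr_ae (Filter.Eventually.of_forall fun w => ?_)
  show {w : ℝ × ℝ | w.1 ^ 2 + w.2 ^ 2 < 1}.indicator (fun w => w.1 ^ 2) w =
    {w : ℝ × ℝ | w.1 ^ 2 + w.2 ^ 2 < 1}.indicator (fun w => w.2 ^ 2) w.swap
  by_cases hw : w.1 ^ 2 + w.2 ^ 2 < 1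
  · have hw' : w.swap.1 ^ 2 + w.swap.2 ^ 2 < 1 := by
      rw [Prod.fst_swap, Prod.snd_swap]
      linarith
    rw [indicator_of_mem (show w ∈ {w : ℝ × ℝ | w.1 ^ 2 + w.2 ^ 2 < 1} from hw),
      indicator_of_mem (show w.swap ∈ {w : ℝ × ℝ | w.1 ^ 2 + w.2 ^ 2 < 1} from hw'), Prod.snd_swap]
  · have hw' : ¬ w.swap.1 ^ 2 + w.swap.2 ^ 2 < 1 := by
      rw [Prod.fst_swap, Prod.snd_swap]
      intro h
      exact hw (by linarith)
    rw [indicator_of_notMem (show w ∉ {w : ℝ × ℝ | w.1 ^ 2 + w.2 ^ 2 < 1} from hw),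
      indicator_of_notMem (show w.swap ∉ {w : ℝ × ℝ | w.1 ^ 2 + w.2 ^ 2 < 1} from hw')]

theorem dAv_xx : dAv (fun w => w 0 ^ 2) = 1 / 4 := by
  have h1 := dAv_add (φ := fun w => w 0 ^ 2) (ψ := fun w => w 1 ^ 2)
    (integrableOn_disc (by fun_prop)) (integrableOn_disc (by fun_prop))
  rw [dAv_norm, ← DiscA_swap] at h1
  linarith

theorem dAv_yy : dAv (fun w => w 1 ^ 2) = 1 / 4 := by
  rw [← DiscA_swap, dAv_xx]

end Pool.Agent.Lib.MP_bbe012_lc.CD
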