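import Mathlib
import Pool.Agent.Lib.MP_bbe012_lc.CD.DiscA
import Pool.Agent.Lib.MP_bbe012_lc.CV.StepI

/-!
# The moments of the disc
-/

namespace Pool.Agent.Lib.MP_bbe012_lc.CD

open MeasureTheory Set HC CV

/-- The trigonometric integral. -/
noncomputable def Mom_J (a b : ℕ) : ℝ := ∫ θ in (-Real.pi)..Real.pi, Real.cos θ ^ a * Real.sin θ ^ b

theorem Mom_int (a b : ℕ) :
    IntervalIntegrable (fun θ : ℝ => Real.cos θ ^ a * Real.sin θ ^ b) volume (-Real.pi) Real.pi :=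
  ((Real.continuous_cos.pow a).mul (Real.continuous_sin.pow b)).intervalIntegrable _ _

theorem Mom_add (a b : ℕ) : Mom_J (a + 2) b + Mom_J a (b + 2) = Mom_J a b := by
  unfold Mom_J
  rw [← intervalIntegral.integral_add (Mom_int _ _) (Mom_int _ _)]
  refine intervalIntegral.integral_congr fun θ _ => ?_
  show Real.cos θ ^ (a + 2) * Real.sin θ ^ b + Real.cos θ ^ a * Real.sin θ ^ (b + 2) =
    Real.cos θ ^ a * Real.sin θ ^ b
  have h := Real.cos_sq_add_sin_sq θ
  calc _ = Real.cos θ ^ a * Real.sin θ ^ b * (Real.cos θ ^ 2 + Real.sin θ ^ 2) := by ring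
    _ = _ := by rw [h, mul_one]

theorem Mom_parts (a b : ℕ) : ((a : ℝ) + 1) * Mom_J a (b + 2) = ((b : ℝ) + 1) * Mom_J (a + 2) b := by
  have hd : ∀ θ ∈ uIcc (-Real.pi) Real.pi,
      HasDerivAt (fun θ : ℝ => Real.cos θ ^ (a + 1) * Real.sin θ ^ (b + 1))
        (((b : ℝ) + 1) * (Real.cos θ ^ (a + 2) * Real.sin θ ^ b) -
          ((a : ℝ) + 1) * (Real.cos θ ^ a * Real.sin θ ^ (b + 2))) θ := by
    intro θ _
    have h1 := ((Real.hasDerivAt_cos θ).pow (a + 1)).mul ((Real.hasDerivAt_sin θ).pow (b + 1))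
    refine h1.congr_deriv ?_
    simp only [Nat.add_sub_cancel, Pi.pow_apply]
    push_cast
    ring
  have h2 := intervalIntegral.integral_eq_sub_of_hasDerivAt hd
    (((Mom_int (a + 2) b).const_mul _).sub ((Mom_int a (b + 2)).const_mul _))
  rw [intervalIntegral.integral_sub ((Mom_int (a + 2) b).const_mul _)
    ((Mom_int a (b + 2)).const_mul _), intervalIntegral.integral_const_mul,
    intervalIntegral.integral_const_mul] at h2
  have h3 : ((b : ℝ) + 1) * Mom_J (a + 2) b - ((a : ℝ) + 1) * Mom_J a (b + 2) = 0 := by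
    unfold Mom_J
    rw [h2]
    simp
  linarith

theorem Mom_left (a b : ℕ) : ((a : ℝ) + b + 2) * Mom_J (a + 2) b = ((a : ℝ) + 1) * Mom_J a b := by
  have h1 := Mom_add a b
  have h2 := Mom_parts a b
  rw [← h1]
  linarith

theorem Mom_right (a b : ℕ) : ((a : ℝ) + b + 2) * Mom_J a (b + 2) = ((b : ℝ) + 1) * Mom_J a b := by
  have h1 := Mom_add a b
  have h2 := Mom_parts a b
  rw [← h1]
  linarith

theorem Mom_zero_zero : Mom_J 0 0 = 2 * Real.pi := by
  unfold Mom_J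
  simp
  ring

theorem Mom_one_left (b : ℕ) : Mom_J 1 b = 0 := by
  have hd : ∀ θ ∈ uIcc (-Real.pi) Real.pi,
      HasDerivAt (fun θ : ℝ => Real.sin θ ^ (b + 1) / ((b : ℝ) + 1))
        (Real.cos θ ^ 1 * Real.sin θ ^ b) θ := by
    intro θ _
    have h1 := ((Real.hasDerivAt_sin θ).pow (b + 1)).div_const ((b : ℝ) + 1)
    refine h1.congr_deriv ?_
    have hb : (b : ℝ) + 1 ≠ 0 := by positivity
    simp only [Nat.add_sub_cancel]
    push_cast
    field_simp
  unfold Mom_J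
  rw [intervalIntegral.integral_eq_sub_of_hasDerivAt hd (Mom_int _ _)]
  simp

theorem Mom_one_right (a : ℕ) : Mom_J a 1 = 0 := by
  have hd : ∀ θ ∈ uIcc (-Real.pi) Real.pi,
      HasDerivAt (fun θ : ℝ => -(Real.cos θ ^ (a + 1) / ((a : ℝ) + 1)))
        (Real.cos θ ^ a * Real.sin θ ^ 1) θ := by
    intro θ _
    have h1 := (((Real.hasDerivAt_cos θ).pow (a + 1)).div_const ((a : ℝ) + 1)).neg
    refine h1.congr_deriv ?_
    have hb : (a : ℝ) + 1 ≠ 0 := by positivity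
    simp only [Nat.add_sub_cancel]
    push_cast
    field_simp
  unfold Mom_J
  rw [intervalIntegral.integral_eq_sub_of_hasDerivAt hd (Mom_int _ _)]
  simp

theorem Mom_odd_left (i b : ℕ) : Mom_J (2 * i + 1) b = 0 := by
  induction i with
  | zero => exact Mom_one_left b
  | succ i ih =>
    have h := Mom_left (2 * i + 1) b
    rw [ih, mul_zero] at h
    have h1 : (((2 * i + 1 : ℕ) : ℝ) + b + 2) ≠ 0 := by positivity
    have h2 := (mul_eq_zero.mp h).resolve_left h1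
    rw [show 2 * (i + 1) + 1 = 2 * i + 1 + 2 by ring]
    exact h2

theorem Mom_odd_right (a j : ℕ) : Mom_J a (2 * j + 1) = 0 := by
  induction j with
  | zero => exact Mom_one_right a
  | succ j ih =>
    have h := Mom_right a (2 * j + 1)
    rw [ih, mul_zero] at h
    have h1 : ((a : ℝ) + ((2 * j + 1 : ℕ) : ℝ) + 2) ≠ 0 := by positivity
    have h2 := (mul_eq_zero.mp h).resolve_left h1
    rw [show 2 * (j + 1) + 1 = 2 * j + 1 + 2 by ring]
    exact h2

theorem Mom_even_zero (j : ℕ) : Mom_J 0 (2 * j) = 2 * Real.pi *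
    ((∏ l ∈ Finset.range j, (2 * (l : ℝ) + 1)) * ∏ l ∈ Finset.range j, (1 / (2 * (l : ℝ) + 2))) := by
  induction j with
  | zero =>
    rw [mul_zero, Mom_zero_zero]
    simp
  | succ j ih =>
    have h := Mom_right 0 (2 * j)
    rw [ih] at h
    have h1 : (2 * (j : ℝ) + 2) ≠ 0 := by positivity
    rw [show 2 * (j + 1) = 2 * j + 2 by ring, Finset.prod_range_succ, Finset.prod_range_succ]
    push_cast at h
    rw [zero_add] at h
    have h2 : Mom_J 0 (2 * j + 2) = (1 / (2 * (j : ℝ) + 2)) * ((2 * (j : ℝ) + 2) * Mom_J 0 (2 * j + 2)) := by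
      field_simp
    rw [h2, h]
    ring

theorem Mom_even (i j : ℕ) : Mom_J (2 * i) (2 * j) = 2 * Real.pi *
    ((∏ l ∈ Finset.range i, (2 * (l : ℝ) + 1)) * ((∏ l ∈ Finset.range j, (2 * (l : ℝ) + 1)) *
      ∏ l ∈ Finset.range (i + j), (1 / (2 * (l : ℝ) + 2)))) := by
  induction i with
  | zero =>
    rw [mul_zero, Mom_even_zero]
    simp
  | succ i ih =>
    have h := Mom_left (2 * i) (2 * j)
    rw [ih] at h
    have h1 : (2 * (i : ℝ) + 2 * (j : ℝ) + 2) ≠ 0 := by positivity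
    rw [show 2 * (i + 1) = 2 * i + 2 by ring, show i + 1 + j = i + j + 1 by ring,
      Finset.prod_range_succ, Finset.prod_range_succ]
    push_cast at h ⊢
    have h2 : Mom_J (2 * i + 2) (2 * j) = (1 / (2 * (i : ℝ) + 2 * (j : ℝ) + 2)) *
        ((2 * (i : ℝ) + 2 * (j : ℝ) + 2) * Mom_J (2 * i + 2) (2 * j)) := by
      field_simp
    rw [h2, h]
    have h3 : 2 * ((i : ℝ) + j) + 2 = 2 * (i : ℝ) + 2 * (j : ℝ) + 2 := by ring
    rw [h3]
    ring

/-- Polar coordinates. -/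
theorem Mom_polar (a b : ℕ) :
    ∫ w in disc, w 0 ^ a * w 1 ^ b = 1 / ((a : ℝ) + b + 2) * Mom_J a b := by
  have h0 : ∫ w in disc, w 0 ^ a * w 1 ^ b =
      ∫ w : ℝ × ℝ, (if w.1 ^ 2 + w.2 ^ 2 < 1 then w.1 ^ a * w.2 ^ b else 0) := by
    rw [← integral_indicator measurableSet_disc]
    have h1 : ∀ w : Fin 2 → ℝ, disc.indicator (fun w : Fin 2 → ℝ => w 0 ^ a * w 1 ^ b) w =
        if w 0 ^ 2 + w 1 ^ 2 < 1 then w 0 ^ a * w 1 ^ b else 0 := fun w => rfl
    rw [integral_congr_ae (Filter.Eventually.of_forall h1)]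
    exact (volume_preserving_finTwoArrow ℝ).integral_comp'
      (fun w : ℝ × ℝ => if w.1 ^ 2 + w.2 ^ 2 < 1 then w.1 ^ a * w.2 ^ b else 0)
  rw [h0, ← integral_comp_polarCoord_symm
    (fun w : ℝ × ℝ => if w.1 ^ 2 + w.2 ^ 2 < 1 then w.1 ^ a * w.2 ^ b else 0)]
  have h1 : ∫ p in polarCoord.target, p.1 • (if (polarCoord.symm p).1 ^ 2 + (polarCoord.symm p).2 ^ 2 < 1 then
        (polarCoord.symm p).1 ^ a * (polarCoord.symm p).2 ^ b else 0) =
      ∫ p in Ioi (0 : ℝ) ×ˢ Ioo (-Real.pi) Real.pi,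
        (fun r : ℝ => if r < 1 then r ^ (a + b + 1) else 0) p.1 *
          (fun θ : ℝ => Real.cos θ ^ a * Real.sin θ ^ b) p.2 := by
    refine setIntegral_congr_fun (measurableSet_Ioi.prod measurableSet_Ioo) ?_
    intro p hp
    have hp0 : 0 < p.1 := hp.1
    show p.1 • (if (polarCoord.symm p).1 ^ 2 + (polarCoord.symm p).2 ^ 2 < 1 then
        (polarCoord.symm p).1 ^ a * (polarCoord.symm p).2 ^ b else 0) =
      (if p.1 < 1 then p.1 ^ (a + b + 1) else 0) * (Real.cos p.2 ^ a * Real.sin p.2 ^ b)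
    rw [polarCoord_symm_apply]
    show p.1 • (if (p.1 * Real.cos p.2) ^ 2 + (p.1 * Real.sin p.2) ^ 2 < 1 then
        (p.1 * Real.cos p.2) ^ a * (p.1 * Real.sin p.2) ^ b else 0) =
      (if p.1 < 1 then p.1 ^ (a + b + 1) else 0) * (Real.cos p.2 ^ a * Real.sin p.2 ^ b)
    have h2 : (p.1 * Real.cos p.2) ^ 2 + (p.1 * Real.sin p.2) ^ 2 = p.1 ^ 2 := by
      have h3 := Real.cos_sq_add_sin_sq p.2
      calc (p.1 * Real.cos p.2) ^ 2 + (p.1 * Real.sin p.2) ^ 2 =
          p.1 ^ 2 * (Real.cos p.2 ^ 2 + Real.sin p.2 ^ 2) := by ring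
        _ = p.1 ^ 2 := by rw [h3, mul_one]
    rw [h2, smul_eq_mul]
    by_cases h3 : p.1 < 1
    · rw [if_pos h3, if_pos (by nlinarith)]
      ring
    · rw [if_neg h3, if_neg (by nlinarith [not_lt.mp h3]), mul_zero, zero_mul]
  rw [h1, Measure.volume_eq_prod,
    setIntegral_prod_mul (fun r : ℝ => if r < 1 then r ^ (a + b + 1) else 0)
      (fun θ : ℝ => Real.cos θ ^ a * Real.sin θ ^ b) (Ioi 0) (Ioo (-Real.pi) Real.pi)]
  have h2 : ∫ r in Ioi (0 : ℝ), (if r < 1 then r ^ (a + b + 1) else 0) = 1 / ((a : ℝ) + b + 2) := by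
    have h3 : ∫ r in Ioi (0 : ℝ), (if r < 1 then r ^ (a + b + 1) else 0) =
        ∫ r in Ioo (0 : ℝ) 1, r ^ (a + b + 1) := by
      rw [← integral_indicator measurableSet_Ioi, ← integral_indicator measurableSet_Ioo]
      refine integral_congr_ae (Filter.Eventually.of_forall fun r => ?_)
      simp only [indicator, mem_Ioo, mem_Ioi]
      by_cases h4 : 0 < r
      · by_cases h5 : r < 1
        · rw [if_pos h4, if_pos h5, if_pos ⟨h4, h5⟩]
        · rw [if_pos h4, if_neg h5, if_neg fun h => h5 h.2]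
      · rw [if_neg h4, if_neg fun h => h4 h.1]
    rw [h3, ← integral_Ioc_eq_integral_Ioo, ← intervalIntegral.integral_of_le zero_le_one,
      integral_pow]
    push_cast
    rw [one_pow, zero_pow (by omega), sub_zero]
    congr 1
    ring
  have h3 : ∫ θ in Ioo (-Real.pi) Real.pi, Real.cos θ ^ a * Real.sin θ ^ b = Mom_J a b := by
    unfold Mom_J
    rw [intervalIntegral.integral_of_le (by linarith [Real.pi_pos]), integral_Ioc_eq_integral_Ioo]
  rw [h2, h3]

/-- The symmetries `w_0 ↦ - w_0`, `w_1 ↦ - w_1`. -/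
theorem dAv_odd {a b : ℕ} (h : a % 2 = 1 ∨ b % 2 = 1) : dAv (fun w => w 0 ^ a * w 1 ^ b) = 0 := by
  unfold dAv
  rw [Mom_polar]
  have h1 : Mom_J a b = 0 := by
    rcases h with h | h
    · rw [show a = 2 * (a / 2) + 1 by omega]
      exact Mom_odd_left _ _
    · rw [show b = 2 * (b / 2) + 1 by omega]
      exact Mom_odd_right _ _
  rw [h1, mul_zero, zero_div]

/-- Polar coordinates: `∫ r in (0, 1), r^(2i+2j+1) = 1 / (2 (i + j + 1))`, and
`J i j = ∫ θ in (-π, π), cos θ ^ (2i) * sin θ ^ (2j)` satisfies `J (i+1) j = (2i+1) / (2i+2j+2) * J i j` and `J i (j+1) = (2j+1) / (2i+2j+2) * J i j`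
(integration by parts; Mathlib has `integral_cos_pow`, `integral_sin_pow`, and the mixed case follows from `J (i+1) j + J i (j+1) = J i j` and one of the relations). -/
theorem dAv_moment (i j : ℕ) : dAv (fun w => w 0 ^ (2 * i) * w 1 ^ (2 * j)) =
    1 / ((i : ℝ) + j + 1) * ((∏ l ∈ Finset.range i, (2 * (l : ℝ) + 1)) *
      ((∏ l ∈ Finset.range j, (2 * (l : ℝ) + 1)) * ∏ l ∈ Finset.range (i + j), (1 / (2 * (l : ℝ) + 2)))) := by
  unfold dAv
  rw [Mom_polar, Mom_even]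
  have hpi : Real.pi ≠ 0 := Real.pi_ne_zero
  have h1 : (i : ℝ) + j + 1 ≠ 0 := by positivity
  have h2 : ((2 * i : ℕ) : ℝ) + ((2 * j : ℕ) : ℝ) + 2 = 2 * ((i : ℝ) + j + 1) := by
    push_cast
    ring
  rw [h2]
  field_simp

/-- `pcEval_mul`, `pcEval_prodRange` (Ratio.lean), `pcEval_nat`, `Fin.prod_univ_eq_prod_range`; `StepI_qinv` (CV/StepI.lean) for `qinv`. -/
theorem pcEval_dMom (i j m : ℕ) (y : Fin m → ℝ) :
    pcEval m (dMom i j) y = dAv (fun w => w 0 ^ (2 * i) * w 1 ^ (2 * j)) := by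
  rw [dAv_moment]
  unfold dMom
  rw [pcEval_mul, pcEval_mul, pcEval_mul, pcEval_prodRange, pcEval_prodRange, pcEval_prodRange,
    StepI_qinv]
  have h1 : ∀ k : ℕ, ∏ l : Fin k, pcEval m (pcNat (2 * (l : ℕ) + 1)) y =
      ∏ l ∈ Finset.range k, (2 * (l : ℝ) + 1) := by
    intro k
    rw [← Fin.prod_univ_eq_prod_range (fun l => 2 * (l : ℝ) + 1) k]
    refine Finset.prod_congr rfl fun l _ => ?_
    rw [pcEval_nat]
    push_cast
    ring
  have h2 : ∀ k : ℕ, ∏ l : Fin k, pcEval m [(qinv (2 * (l : ℕ) + 1), [])] y =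
      ∏ l ∈ Finset.range k, (1 / (2 * (l : ℝ) + 2)) := by
    intro k
    rw [← Fin.prod_univ_eq_prod_range (fun l => 1 / (2 * (l : ℝ) + 2)) k]
    refine Finset.prod_congr rfl fun l _ => ?_
    rw [StepI_qinv]
    push_cast
    congr 1
    ring
  rw [h1, h1, h2]
  push_cast
  ring

end Pool.Agent.Lib.MP_bbe012_lc.CD
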