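import Mathlib
import Pool.Agent.Lib.MP_bbe012_lc.CD.Mom
import Pool.Agent.Lib.MP_bbe012_lc.CD.Cst
import Pool.Agent.Lib.MP_bbe012_lc.CV.IntC

/-!
# Exact averages of polynomials
-/

namespace Pool.Agent.Lib.MP_bbe012_lc.CD

open MeasureTheory Set HC CV

theorem AvC_integrable {r : ℕ} {φ : (Fin r → ℝ) → ℝ} (h : Continuous φ) :
    IntegrableOn φ (cube r) := by
  have hc : IsCompact (Set.pi univ fun _ : Fin r => Icc (-1 : ℝ) 1) :=
    isCompact_univ_pi fun _ => isCompact_Icc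
  refine (h.continuousOn.integrableOn_compact hc).mono_set ?_
  intro y hy i _
  exact Ioo_subset_Icc_self (hy i)

theorem AvC_base (n : ℕ) (φ : Fin n → ℝ → ℝ) :
    Av n 0 (fun x => ∏ i : Fin n, φ i (x (Fin.castAdd (2 * 0) i))) =
      ∏ i : Fin n, (∫ s in Ioo (-1 : ℝ) 1, φ i s) / 2 := by
  unfold Av
  rw [boxDisc_zero]
  have h := integral_cube_prod n φ
  have h2 : (∫ x in cube (n + 2 * 0), ∏ i : Fin n, φ i (x (Fin.castAdd (2 * 0) i))) =
      ∫ s in cube n, ∏ i, φ i (s i) := rfl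
  rw [h2, h, pow_zero, mul_one, Finset.prod_div_distrib, Finset.prod_const, Finset.card_univ,
    Fintype.card_fin]

theorem AvC_cont (n m : ℕ) (φ : Fin n → ℝ → ℝ) (ψ : Fin m → ℝ → ℝ → ℝ)
    (hφ : ∀ i, Continuous (φ i)) (hψ : ∀ j, Continuous fun w : ℝ × ℝ => ψ j w.1 w.2) :
    Continuous fun x : Fin (n + 2 * m) → ℝ => (∏ i : Fin n, φ i (x (Fin.castAdd (2 * m) i))) *
      ∏ j : Fin m, ψ j (x ⟨n + 2 * j, by omega⟩) (x ⟨n + 2 * j + 1, by omega⟩) := by
  refine Continuous.mul (continuous_finsetProd _ fun i _ => (hφ i).comp (continuous_apply _))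
    (continuous_finsetProd _ fun j _ => ?_)
  have h1 : Continuous fun x : Fin (n + 2 * m) → ℝ =>
      ((x ⟨n + 2 * j, by omega⟩, x ⟨n + 2 * j + 1, by omega⟩) : ℝ × ℝ) :=
    (continuous_apply _).prodMk (continuous_apply _)
  exact (hψ j).comp h1

/-- Products of functions of the single interval and disc variables. Induction on `m`: for `m = 0` `integral_cube_prod` (HC/LogA.lean) and `boxDisc_zero`;
the step is `Av_succ` (with `h` = integrability; `φ i` and `ψ j` are continuous). -/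
theorem Av_prod (n m : ℕ) (φ : Fin n → ℝ → ℝ) (ψ : Fin m → ℝ → ℝ → ℝ) (hφ : ∀ i, Continuous (φ i))
    (hψ : ∀ j, Continuous fun w : ℝ × ℝ => ψ j w.1 w.2) :
    Av n m (fun x => (∏ i : Fin n, φ i (x (Fin.castAdd (2 * m) i))) *
      ∏ j : Fin m, ψ j (x ⟨n + 2 * j, by omega⟩) (x ⟨n + 2 * j + 1, by omega⟩)) =
    (∏ i : Fin n, (∫ s in Ioo (-1 : ℝ) 1, φ i s) / 2) * ∏ j : Fin m, dAv fun w => ψ j (w 0) (w 1) := by
  induction m with
  | zero =>
    simp only [Finset.univ_eq_empty, Finset.prod_empty, mul_one]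
    exact AvC_base n φ
  | succ m ih =>
    rw [Av_succ (integrableOn_boxDisc (AvC_integrable (AvC_cont n (m + 1) φ ψ hφ hψ)))]
    have h1 : ∀ (x : Fin (n + 2 * m) → ℝ) (w : Fin 2 → ℝ),
        (∏ i : Fin n, φ i ((Fin.append x w : Fin (n + 2 * m + 2) → ℝ)
          (Fin.castAdd (2 * (m + 1)) i))) *
        ∏ j : Fin (m + 1), ψ j ((Fin.append x w : Fin (n + 2 * m + 2) → ℝ) ⟨n + 2 * j, by omega⟩)
          ((Fin.append x w : Fin (n + 2 * m + 2) → ℝ) ⟨n + 2 * j + 1, by omega⟩) =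
        ((∏ i : Fin n, φ i (x (Fin.castAdd (2 * m) i))) *
        ∏ j : Fin m, ψ (Fin.castSucc j) (x ⟨n + 2 * j, by omega⟩) (x ⟨n + 2 * j + 1, by omega⟩)) *
        ψ (Fin.last m) (w 0) (w 1) := by
      intro x w
      have e0 : ∀ i : Fin n, (Fin.append x w : Fin (n + 2 * m + 2) → ℝ)
          (Fin.castAdd (2 * (m + 1)) i) = x (Fin.castAdd (2 * m) i) := fun i =>
        Fin.append_left x w (Fin.castAdd (2 * m) i)
      have e1 : ∀ j : Fin m, (Fin.append x w : Fin (n + 2 * m + 2) → ℝ)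
          ⟨n + 2 * (Fin.castSucc j : Fin (m + 1)), by have := j.2; simp; omega⟩ =
          x ⟨n + 2 * j, by omega⟩ := fun j =>
        Fin.append_left x w ⟨n + 2 * j, by omega⟩
      have e2 : ∀ j : Fin m, (Fin.append x w : Fin (n + 2 * m + 2) → ℝ)
          ⟨n + 2 * (Fin.castSucc j : Fin (m + 1)) + 1, by simp⟩ =
          x ⟨n + 2 * j + 1, by omega⟩ := fun j =>
        Fin.append_left x w ⟨n + 2 * j + 1, by omega⟩
      have e3 : (Fin.append x w : Fin (n + 2 * m + 2) → ℝ)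
          ⟨n + 2 * (Fin.last m : Fin (m + 1)), by simp⟩ = w 0 :=
        Fin.append_right x w 0
      have e4 : (Fin.append x w : Fin (n + 2 * m + 2) → ℝ)
          ⟨n + 2 * (Fin.last m : Fin (m + 1)) + 1, by simp⟩ = w 1 :=
        Fin.append_right x w 1
      rw [Fin.prod_univ_castSucc]
      simp only [e0, e1, e2, e3, e4]
      ring
    have key : ∀ x : Fin (n + 2 * m) → ℝ, (dAv fun w =>
        (∏ i : Fin n, φ i ((Fin.append x w : Fin (n + 2 * m + 2) → ℝ) (Fin.castAdd (2 * (m + 1)) i))) *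
        ∏ j : Fin (m + 1), ψ j ((Fin.append x w : Fin (n + 2 * m + 2) → ℝ) ⟨n + 2 * j, by omega⟩)
          ((Fin.append x w : Fin (n + 2 * m + 2) → ℝ) ⟨n + 2 * j + 1, by omega⟩)) =
        (dAv fun w => ψ (Fin.last m) (w 0) (w 1)) *
        ((∏ i : Fin n, φ i (x (Fin.castAdd (2 * m) i))) *
        ∏ j : Fin m, ψ (Fin.castSucc j) (x ⟨n + 2 * j, by omega⟩) (x ⟨n + 2 * j + 1, by omega⟩)) := by
      intro x
      exact (congrArg dAv (funext fun w => h1 x w)).trans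
        ((dAv_const_mul _ _).trans (mul_comm _ _))
    have h3 := ih (fun j => ψ (Fin.castSucc j)) fun j => hψ _
    calc _ = Av n m fun x => (dAv fun w => ψ (Fin.last m) (w 0) (w 1)) *
        ((∏ i : Fin n, φ i (x (Fin.castAdd (2 * m) i))) *
        ∏ j : Fin m, ψ (Fin.castSucc j) (x ⟨n + 2 * j, by omega⟩) (x ⟨n + 2 * j + 1, by omega⟩)) :=
          congrArg (Av n m) (funext fun x => key x)
      _ = _ := by
        rw [Av_const_mul, h3, Fin.prod_univ_castSucc]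
        ring

theorem AvC_pairs (m : ℕ) (g : Fin (2 * m) → ℝ) :
    ∏ k, g k = ∏ j : Fin m, g ⟨2 * j, by omega⟩ * g ⟨2 * j + 1, by omega⟩ := by
  induction m with
  | zero => rfl
  | succ m ih =>
    have h1 : ∏ k : Fin (2 * (m + 1)), g k = ∏ k : Fin (2 * m + 1 + 1), (g : Fin (2 * m + 1 + 1) → ℝ) k :=
      rfl
    rw [h1, Fin.prod_univ_castSucc, Fin.prod_univ_castSucc, Fin.prod_univ_castSucc,
      ih fun k => g (Fin.castSucc (Fin.castSucc k) : Fin (2 * m + 1 + 1)), mul_assoc]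
    rfl

theorem AvC_split (n m : ℕ) (x : Fin (n + 2 * m) → ℝ) (e : List ℕ) :
    ∏ k : Fin (n + 2 * m), x k ^ e.getD k 0 =
      (∏ i : Fin n, x (Fin.castAdd (2 * m) i) ^ e.getD i 0) *
        ∏ j : Fin m, (x ⟨n + 2 * j, by omega⟩ ^ e.getD (n + 2 * j) 0 *
          x ⟨n + 2 * j + 1, by omega⟩ ^ e.getD (n + 2 * j + 1) 0) := by
  rw [Fin.prod_univ_add, AvC_pairs]
  rfl

theorem AvC_iFac (e : List ℕ) (i : ℕ) (y : Fin 0 → ℝ) :
    pcEval 0 (iFac e i) y = (∫ s in Ioo (-1 : ℝ) 1, s ^ e.getD i 0) / 2 := by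
  rw [integral_pow_Ioo, iFac]
  split_ifs with h
  · simp
  · rw [pcEval_cons, pcEval_nil]
    simp [qinv, qval]
    ring

theorem AvC_dFac (n : ℕ) (e : List ℕ) (j : ℕ) (y : Fin 0 → ℝ) :
    pcEval 0 (dFac n e j) y =
      dAv fun w => w 0 ^ e.getD (n + 2 * j) 0 * w 1 ^ e.getD (n + 2 * j + 1) 0 := by
  rw [dFac]
  split_ifs with h
  · rw [dAv_odd h, pcEval_nil]
  · have h1 : 2 * (e.getD (n + 2 * j) 0 / 2) = e.getD (n + 2 * j) 0 := by omega
    have h2 : 2 * (e.getD (n + 2 * j + 1) 0 / 2) = e.getD (n + 2 * j + 1) 0 := by omega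
    rw [pcEval_dMom, h1, h2]

theorem AvC_term (n m : ℕ) (c : QCode) (e : List ℕ) (y : Fin 0 → ℝ) :
    pcEval 0 (pcMul [(c, [])] (pcMul (pcProdRange n (iFac e)) (pcProdRange m (dFac n e)))) y =
      (qval c : ℝ) * Av n m fun x => ∏ k : Fin (n + 2 * m), x k ^ e.getD k 0 := by
  have h1 : (Av n m fun x => ∏ k : Fin (n + 2 * m), x k ^ e.getD k 0) =
      (∏ i : Fin n, (∫ s in Ioo (-1 : ℝ) 1, s ^ e.getD i 0) / 2) *
        ∏ j : Fin m, dAv fun w => w 0 ^ e.getD (n + 2 * j) 0 * w 1 ^ e.getD (n + 2 * j + 1) 0 := by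
    rw [← Av_prod n m (fun i s => s ^ e.getD i 0)
      (fun j a b => a ^ e.getD (n + 2 * j) 0 * b ^ e.getD (n + 2 * j + 1) 0)
      (fun i => continuous_pow _) (fun j => by fun_prop)]
    exact congrArg (Av n m) (funext fun x => AvC_split n m x e)
  rw [h1, pcEval_mul, pcEval_mul, pcEval_prodRange, pcEval_prodRange, pcEval_cons, pcEval_nil]
  simp only [AvC_iFac, AvC_dFac]
  simp

/-- Induction on `p`, `Av_prod`; `pcEval_cons` (Eval.lean): the monomial is `∏ i : Fin (n + 2 m), x i ^ e_i`, to be split into the intervals and the discs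
(`Fin.prod_univ_add`, and the product over `Fin (2 m)` as the product over pairs: induction on `m`); `integral_pow_Ioo` (CV/IntC.lean), `dAv_odd`, `pcEval_dMom`. -/
theorem cval_pcAv (n m : ℕ) (p : PCode) :
    (cval (pcAv n m p) : ℝ) = Av n m fun x => pcEval (n + 2 * m) p x := by
  rw [← (CC0.pcAv n m p).eval 0 Fin.elim0]
  induction p with
  | nil =>
    have h : (fun x : Fin (n + 2 * m) → ℝ => pcEval (n + 2 * m) [] x) = fun _ => (0 : ℝ) :=
      funext fun x => pcEval_nil _ x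
    rw [h, Av_const]
    simp [pcAv]
  | cons t p ih =>
    have h : (fun x : Fin (n + 2 * m) → ℝ => pcEval (n + 2 * m) (t :: p) x) = fun x =>
        (qval t.1 : ℝ) * (∏ k : Fin (n + 2 * m), x k ^ t.2.getD k 0) +
          pcEval (n + 2 * m) p x := funext fun x => pcEval_cons _ t p x
    have h2 : pcAv n m (t :: p) = pcMul [(t.1, [])]
        (pcMul (pcProdRange n (iFac t.2)) (pcProdRange m (dFac n t.2))) ++ pcAv n m p := rfl
    have h3 : Continuous fun x : Fin (n + 2 * m) → ℝ =>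
        (qval t.1 : ℝ) * (∏ k : Fin (n + 2 * m), x k ^ t.2.getD k 0) := by fun_prop
    rw [h, h2, pcEval_append, AvC_term, ih,
      Av_add (integrableOn_boxDisc (AvC_integrable h3)) (integrableOn_boxDisc_pc n m p),
      Av_const_mul]

end Pool.Agent.Lib.MP_bbe012_lc.CD
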