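import Mathlib
import Pool.Agent.Lib.MP_bbe012_lc.CD.Defs
import Pool.Agent.Lib.MP_bbe012_lc.CV.Cert
import Pool.Agent.Lib.MP_bbe012_lc.CV.PrimB

/-!
# The certificates with two more rounds
-/

namespace Pool.Agent.Lib.MP_bbe012_lc.CD

open MvPolynomial HC CV

/-- As `exists_cCheck` in CV/Cert.lean with `κ = 3 + mu ..`. -/
theorem exists_dCheck {n : ℕ} (P : PCode) {Q : PCode} (hQ : pcPoly n Q ≠ 0) :
    ∃ c : CC, dCheck n P Q c := by
  obtain ⟨r, D, H⟩ := exists_special hQ (pcPoly n P)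
  obtain ⟨κ, hκ⟩ : ∃ κ, κ = 3 + mu (s0C n r 0 P Q (List.replicate D [])) := ⟨_, rfl⟩
  obtain ⟨K, A, ρ, g, hid⟩ := H (nN r κ)
  obtain ⟨Ac, hAc⟩ := exists_polyOf A
  choose rc hrc using fun i : ℕ => exists_rowP (ρ i)
  choose gc hgc using fun l : Fin n => exists_pcPoly (g l)
  obtain ⟨rows, hrows⟩ : ∃ rows : List (List QCode), rows = (List.range D).map rc := ⟨_, rfl⟩
  have hlen : rows.length = D := by rw [hrows]; simp
  have hgetD : ∀ i < D, rows.getD i [] = rc i := by
    intro i hi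
    rw [hrows, List.getD_eq_getElem?_getD, List.getElem?_map, List.getElem?_range hi]
    rfl
  have hκ1 : 1 ≤ κ := by omega
  refine ⟨(((r, κ), K), ((Ac, rows), List.ofFn gc)), ?_, ?_⟩
  · change hcCheck n P Q (((r, nN r κ), K), (Ac, wC n P Q rows), List.ofFn gc)
    rw [hcCheck_iff, hAc, pcPoly_wC, hlen]
    refine ⟨?_, ?_⟩
    · have h5 : 5 ≤ 2 * (2 * κ) + 1 := by omega
      have h6 : (r + 1) * 5 ≤ (r + 1) * (2 * (2 * κ) + 1) := Nat.mul_le_mul_left _ h5
      unfold nN
      omega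
    · have hgl : (fun l : Fin n => pcPoly (n + 1) ((List.ofFn gc).getD l [])) = g := by
        ext1 l
        rw [← hgc l]
        congr 1
        simp [List.getD_eq_getElem?_getD]
      have hs : (∑ i ∈ Finset.range D, beta n (rowP (rows.getD i [])) * hP (pcPoly n Q) ^ i) =
          ∑ i ∈ Finset.range D, beta n (ρ i) * hP (pcPoly n Q) ^ i := by
        refine Finset.sum_congr rfl fun i hi => ?_
        rw [hgetD i (Finset.mem_range.mp hi), hrc]
      rw [hgl, hs]
      exact hid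
  · change mu (s0C n r (2 * κ) P Q rows) + 2 ≤ κ
    have h7 : rows.length = (List.replicate D ([] : List QCode)).length := by
      rw [hlen]; simp
    rw [mu_s0C_congr n r (2 * κ) 0 P Q h7]
    omega

/-- As `mem_cSearch`. -/
theorem mem_dSearch {R : ℕ × PCode × PCode} {c : CC} (h : c ∈ dSearch R) :
    dCheck R.1 R.2.1 R.2.2 c := by
  obtain ⟨m, hm⟩ := Nat.rfindOpt_spec h
  obtain ⟨c', _, h2⟩ := Option.bind_eq_some_iff.mp hm
  split_ifs at h2 with hc'
  rw [← Option.some_injective _ h2]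
  exact hc'

/-- As `dom_cSearch`. -/
theorem dom_dSearch {R : ℕ × PCode × PCode} (hQ : pcPoly R.1 R.2.2 ≠ 0) : (dSearch R).Dom := by
  obtain ⟨c, hc⟩ := exists_dCheck R.2.1 hQ
  refine Nat.rfindOpt_dom.mpr ⟨Encodable.encode c, c, ?_⟩
  rw [Encodable.encodek]
  change (if dCheck R.1 R.2.1 R.2.2 c then some c else none) = some c
  rw [if_pos hc]

section
open Primrec

theorem CertD_n : Primrec fun x : (ℕ × PCode × PCode) × CC => x.1.1 := fst.comp fst

theorem CertD_P : Primrec fun x : (ℕ × PCode × PCode) × CC => x.1.2.1 :=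
  fst.comp (snd.comp fst)

theorem CertD_Q : Primrec fun x : (ℕ × PCode × PCode) × CC => x.1.2.2 :=
  snd.comp (snd.comp fst)

theorem CertD_r : Primrec fun x : (ℕ × PCode × PCode) × CC => x.2.1.1.1 :=
  fst.comp (fst.comp (fst.comp snd))

theorem CertD_kap : Primrec fun x : (ℕ × PCode × PCode) × CC => x.2.1.1.2 :=
  snd.comp (fst.comp (fst.comp snd))

theorem CertD_K : Primrec fun x : (ℕ × PCode × PCode) × CC => x.2.1.2 :=
  snd.comp (fst.comp snd)

theorem CertD_A : Primrec fun x : (ℕ × PCode × PCode) × CC => x.2.2.1.1 :=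
  fst.comp (fst.comp (snd.comp snd))

theorem CertD_rows : Primrec fun x : (ℕ × PCode × PCode) × CC => x.2.2.1.2 :=
  snd.comp (fst.comp (snd.comp snd))

theorem CertD_gs : Primrec fun x : (ℕ × PCode × PCode) × CC => x.2.2.2 :=
  snd.comp (snd.comp snd)

theorem CertD_two : Primrec fun x : (ℕ × PCode × PCode) × CC => 2 * x.2.1.1.2 :=
  nat_mul.comp (const 2) CertD_kap

theorem CertD_nN : Primrec fun x : (ℕ × PCode × PCode) × CC =>
    nN x.2.1.1.1 x.2.1.1.2 :=
  nat_add.comp (nat_mul.comp (succ.comp CertD_r)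
    (succ.comp (nat_mul.comp (const 2) CertD_two))) CertD_r

theorem CertD_toHC : Primrec fun x : (ℕ × PCode × PCode) × CC =>
    toHC x.1.1 x.1.2.1 x.1.2.2 x.2 :=
  pair (pair (pair CertD_r CertD_nN) CertD_K)
    (pair (pair CertD_A (pr_wC CertD_n CertD_P CertD_Q CertD_rows)) CertD_gs)

theorem CertD_s0 : Primrec fun x : (ℕ × PCode × PCode) × CC =>
    s0C x.1.1 x.2.1.1.1 (2 * x.2.1.1.2) x.1.2.1 x.1.2.2 x.2.2.1.2 :=
  pr_s0C CertD_n CertD_r CertD_two CertD_P CertD_Q CertD_rows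

/-- The verification is decidable by a primitive recursive function. -/
theorem CertD_dCheck :
    PrimrecPred fun x : (ℕ × PCode × PCode) × CC => dCheck x.1.1 x.1.2.1 x.1.2.2 x.2 := by
  have h2 : PrimrecPred fun x : (ℕ × PCode × PCode) × CC =>
      hcCheck x.1.1 x.1.2.1 x.1.2.2 (toHC x.1.1 x.1.2.1 x.1.2.2 x.2) :=
    primrecPred_hcCheck.comp (pair fst CertD_toHC)
  have h3 : PrimrecPred fun x : (ℕ × PCode × PCode) × CC =>
      mu (s0C x.1.1 x.2.1.1.1 (2 * x.2.1.1.2) x.1.2.1 x.1.2.2 x.2.2.1.2) + 2 ≤ x.2.1.1.2 :=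
    nat_le.comp (succ.comp (succ.comp (pr_mu CertD_s0))) CertD_kap
  exact h2.and h3

end

/-- As `partrec_cSearch` in CV/PrimB.lean (add the import; `primrecPred_cCheck`). -/
theorem partrec_dSearch : Partrec dSearch := by
  have h1 : Primrec fun y : (ℕ × PCode × PCode) × ℕ => Encodable.decode (α := CC) y.2 :=
    Primrec.decode.comp Primrec.snd
  have h2 : PrimrecPred fun y : ((ℕ × PCode × PCode) × ℕ) × CC =>
      dCheck y.1.1.1 y.1.1.2.1 y.1.1.2.2 y.2 :=
    CertD_dCheck.comp (Primrec.pair (Primrec.fst.comp Primrec.fst) Primrec.snd)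
  have h : Primrec₂ fun (R : ℕ × PCode × PCode) (m : ℕ) =>
      (Encodable.decode (α := CC) m).bind fun c =>
        if dCheck R.1 R.2.1 R.2.2 c then some c else none :=
    Primrec.option_bind h1
      ((Primrec.ite h2 (Primrec.option_some.comp Primrec.snd) (Primrec.const none)).to₂)
  exact Partrec.rfindOpt h.to_comp

end Pool.Agent.Lib.MP_bbe012_lc.CD
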