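import Mathlib
import Pool.Agent.Lib.MP_bbe012_lc.CD.AvC
import Pool.Agent.Lib.MP_bbe012_lc.CD.DiscA
import Pool.Agent.Lib.MP_bbe012_lc.CV.StepI

/-!
# The last step: probability exactly one half

For a number `h` and `a = N ((2 w_0 - c_0)^2 + (2 w_1)^2 + 17 (1 - |c|^2) + |u|^2)` with independent uniform points
`c`, `w`, `u`, `v` of the unit disc the probability of `h - a + M |v|^2 > 0` is `1 - (45 N / 4 - h + h_+^4 / (1632 N^3)) / M`.
-/

namespace Pool.Agent.Lib.MP_bbe012_lc.CD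

open MeasureTheory Set HC CV

/-- The number `a / N`. -/
def psi (c w u : Fin 2 → ℝ) : ℝ :=
  (2 * w 0 - c 0) ^ 2 + (2 * w 1) ^ 2 + 17 * (1 - (c 0 ^ 2 + c 1 ^ 2)) + (u 0 ^ 2 + u 1 ^ 2)

/-- `(2 w_0 - c_0)^2 + (2 w_1)^2 ≤ (2 + |c|)^2 = 4 + 4 |c| + |c|^2` (Cauchy-Schwarz) and `4 |c| ≤ 1/4 + 16 |c|^2`. -/
theorem psi_le {c w u : Fin 2 → ℝ} (hc : c ∈ disc) (hw : w ∈ disc) (hu : u ∈ disc) :
    psi c w u ≤ 89 / 4 := by
  have hc' : c 0 ^ 2 + c 1 ^ 2 < 1 := hc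
  have hw' : w 0 ^ 2 + w 1 ^ 2 < 1 := hw
  have hu' : u 0 ^ 2 + u 1 ^ 2 < 1 := hu
  unfold psi
  nlinarith [sq_nonneg (4 * c 0 + w 0 / 2), sq_nonneg (w 1), sq_nonneg (c 1)]

theorem psi_nonneg {c w u : Fin 2 → ℝ} (hc : c ∈ disc) : 0 ≤ psi c w u := by
  have hc' : c 0 ^ 2 + c 1 ^ 2 < 1 := hc
  unfold psi
  have h1 : 0 ≤ 17 * (1 - (c 0 ^ 2 + c 1 ^ 2)) := by linarith
  have h2 := sq_nonneg (2 * w 0 - c 0)
  have h3 := sq_nonneg (2 * w 1)
  have h4 := sq_nonneg (u 0)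
  have h5 := sq_nonneg (u 1)
  linarith

/-- `psi c w u` is `psi c w 0` plus the square of the norm of `u`. -/
theorem Gad_psi (c w u : Fin 2 → ℝ) : psi c w u = psi c w 0 + (u 0 ^ 2 + u 1 ^ 2) := by
  simp [psi]

/-- `psi c w 0` as a function of `w`. -/
theorem Gad_psi0 (c w : Fin 2 → ℝ) :
    psi c w 0 = (2 * w 0 - c 0) ^ 2 + (2 * w 1) ^ 2 + 17 * (1 - (c 0 ^ 2 + c 1 ^ 2)) := by
  simp [psi]

/-- The average of a polynomial of degree at most 2 without mixed terms. -/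
theorem Gad_quad (A B C D : ℝ) :
    dAv (fun w => A + B * w 0 + C * w 0 ^ 2 + D * w 1 ^ 2) = A + C / 4 + D / 4 := by
  have c0 : Continuous fun w : Fin 2 → ℝ => w 0 := continuous_apply 0
  have c1 : Continuous fun w : Fin 2 → ℝ => w 1 := continuous_apply 1
  have h0 : Continuous fun _ : Fin 2 → ℝ => A := continuous_const
  have h1 : Continuous fun w : Fin 2 → ℝ => B * w 0 := continuous_const.mul c0
  have h2 : Continuous fun w : Fin 2 → ℝ => C * w 0 ^ 2 := continuous_const.mul (c0.pow 2)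
  have h3 : Continuous fun w : Fin 2 → ℝ => D * w 1 ^ 2 := continuous_const.mul (c1.pow 2)
  have e3 := dAv_add (integrableOn_disc ((h0.add h1).add h2)) (integrableOn_disc h3)
  have e2 := dAv_add (integrableOn_disc (h0.add h1)) (integrableOn_disc h2)
  have e1 := dAv_add (integrableOn_disc h0) (integrableOn_disc h1)
  have f1 : dAv (fun w : Fin 2 → ℝ => B * w 0) = B * dAv (fun w => w 0) := dAv_const_mul B _
  have f2 : dAv (fun w : Fin 2 → ℝ => C * w 0 ^ 2) = C * dAv (fun w => w 0 ^ 2) := dAv_const_mul C _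
  have f3 : dAv (fun w : Fin 2 → ℝ => D * w 1 ^ 2) = D * dAv (fun w => w 1 ^ 2) := dAv_const_mul D _
  calc dAv (fun w => A + B * w 0 + C * w 0 ^ 2 + D * w 1 ^ 2)
      = dAv (fun w => A + B * w 0 + C * w 0 ^ 2) + dAv (fun w => D * w 1 ^ 2) := e3
    _ = (dAv (fun w => A + B * w 0) + dAv (fun w => C * w 0 ^ 2)) + dAv (fun w => D * w 1 ^ 2) := by
        rw [show dAv (fun w => A + B * w 0 + C * w 0 ^ 2) =
          dAv (fun w => A + B * w 0) + dAv (fun w => C * w 0 ^ 2) from e2]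
    _ = ((dAv (fun _ => A) + dAv (fun w => B * w 0)) + dAv (fun w => C * w 0 ^ 2)) +
          dAv (fun w => D * w 1 ^ 2) := by
        rw [show dAv (fun w => A + B * w 0) = dAv (fun _ => A) + dAv (fun w => B * w 0) from e1]
    _ = A + C / 4 + D / 4 := by
        rw [f1, f2, f3, dAv_const, dAv_x, dAv_xx, dAv_yy]
        ring

/-- The average of the sum of such a polynomial and a truncated power. -/
theorem Gad_comb (A B C D E V : ℝ) (k : ℕ) {φ : (Fin 2 → ℝ) → ℝ} (hφ : Continuous φ)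
    (hV : dAv (fun w => pp k (φ w)) = V) :
    dAv (fun w => A + B * w 0 + C * w 0 ^ 2 + D * w 1 ^ 2 + E * pp k (φ w)) =
      A + C / 4 + D / 4 + E * V := by
  have c0 : Continuous fun w : Fin 2 → ℝ => w 0 := continuous_apply 0
  have c1 : Continuous fun w : Fin 2 → ℝ => w 1 := continuous_apply 1
  have h0 : Continuous fun w : Fin 2 → ℝ => A + B * w 0 + C * w 0 ^ 2 + D * w 1 ^ 2 :=
    ((continuous_const.add (continuous_const.mul c0)).add (continuous_const.mul (c0.pow 2))).add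
      (continuous_const.mul (c1.pow 2))
  have h1 : IntegrableOn (fun w : Fin 2 → ℝ => E * pp k (φ w)) disc :=
    (integrableOn_disc_pp hφ k).const_mul E
  have e := dAv_add (integrableOn_disc h0) h1
  calc dAv (fun w => A + B * w 0 + C * w 0 ^ 2 + D * w 1 ^ 2 + E * pp k (φ w))
      = dAv (fun w => A + B * w 0 + C * w 0 ^ 2 + D * w 1 ^ 2) + dAv (fun w => E * pp k (φ w)) := e
    _ = A + C / 4 + D / 4 + E * V := by
        rw [Gad_quad, show dAv (fun w => E * pp k (φ w)) = E * dAv (fun w => pp k (φ w)) from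
          dAv_const_mul E _, hV]

/-- The average over `v`: `dAv_top` with `b = N psi - h ≤ M`, and `pp 1 b = b + pp 1 (-b)`. -/
theorem gad4 {N M h : ℝ} (hM : 0 < M) {c w u : Fin 2 → ℝ} (hb : N * psi c w u - h ≤ M) :
    dAv (fun v => pp 0 (h - N * psi c w u + M * (v 0 ^ 2 + v 1 ^ 2))) =
      1 - (N * psi c w u - h) / M - pp 1 (h - N * psi c w u) / M := by
  have h1 := dAv_top hM hb
  have h2 : (fun v : Fin 2 → ℝ => pp 0 (h - N * psi c w u + M * (v 0 ^ 2 + v 1 ^ 2))) =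
      fun v => pp 0 (M * (v 0 ^ 2 + v 1 ^ 2) - (N * psi c w u - h)) := by
    funext v
    congr 1
    ring
  have h3 := pow_eq_pp 0 (N * psi c w u - h)
  have h4 : -(N * psi c w u - h) = h - N * psi c w u := by ring
  rw [h4] at h3
  have h5 : pp 1 (N * psi c w u - h) = (N * psi c w u - h) + pp 1 (h - N * psi c w u) := by
    have h6 : (N * psi c w u - h) ^ (0 + 1) =
      pp (0 + 1) (N * psi c w u - h) + (-1) ^ (0 + 1) * pp (0 + 1) (h - N * psi c w u) := h3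
    rw [zero_add, pow_one, pow_one] at h6
    linarith
  rw [h2, h1, h5]
  ring

/-- The average over `u`: `dAv_norm`, `dAv_pp` with `Y = √N`, `c = 0`, `k = 1`. -/
theorem gad3 {N M h : ℝ} (hM : 0 < M) (hN : 0 < N) (hh : h ≤ N) {c w : Fin 2 → ℝ} (hc : c ∈ disc) :
    dAv (fun u => 1 - (N * psi c w u - h) / M - pp 1 (h - N * psi c w u) / M) =
      1 - (N * (psi c w 0 + 1 / 2) - h) / M - pp 2 (h - N * psi c w 0) / (2 * N * M) := by
  have hsN : √N ^ 2 = N := Real.sq_sqrt hN.le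
  have hs : 0 < √N := Real.sqrt_pos.mpr hN
  have hM' : M ≠ 0 := hM.ne'
  have hN' : N ≠ 0 := hN.ne'
  have ha : h - N * psi c w 0 ≤ N := by
    have := mul_nonneg hN.le (psi_nonneg (c := c) (w := w) (u := 0) hc)
    linarith
  have hle : |(0 : ℝ)| + √(h - N * psi c w 0) ≤ √N := by
    rw [abs_zero, zero_add]
    exact Real.sqrt_le_sqrt ha
  have h1 := dAv_pp hs hle 1
  have hφ : Continuous fun v : Fin 2 → ℝ =>
      h - N * psi c w 0 - ((√N * v 0 - 0) ^ 2 + (√N * v 1) ^ 2) := by fun_prop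
  have h2 := Gad_comb (1 - (N * psi c w 0 - h) / M) 0 (-N / M) (-N / M) (-1 / M) _ 1 hφ h1
  have h3 : (fun u : Fin 2 → ℝ => 1 - (N * psi c w u - h) / M - pp 1 (h - N * psi c w u) / M) =
      fun v => (1 - (N * psi c w 0 - h) / M) + 0 * v 0 + (-N / M) * v 0 ^ 2 + (-N / M) * v 1 ^ 2 +
        (-1 / M) * pp 1 (h - N * psi c w 0 - ((√N * v 0 - 0) ^ 2 + (√N * v 1) ^ 2)) := by
    funext u
    have e1 : h - N * psi c w 0 - ((√N * u 0 - 0) ^ 2 + (√N * u 1) ^ 2) = h - N * psi c w u := by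
      rw [Gad_psi c w u, sub_zero, mul_pow, mul_pow, hsN]
      ring
    rw [e1, Gad_psi c w u]
    ring
  rw [h3, h2, hsN]
  have e2 : (((1 : ℕ) : ℝ) + 1) = 2 := by norm_num
  rw [e2]
  show _ = 1 - (N * (psi c w 0 + 1 / 2) - h) / M - pp (1 + 1) (h - N * psi c w 0) / (2 * N * M)
  field_simp
  ring

/-- The average over `w`: `dAv_x`, `dAv_xx`, `dAv_yy`, `dAv_pp` with `Y = 2 √N`, centre `√N c_0`, `k = 2`. -/
theorem gad2 {N M h : ℝ} (hM : 0 < M) (hN : 0 < N) (hh : h ≤ N) {c : Fin 2 → ℝ} (hc : c ∈ disc) :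
    dAv (fun w => 1 - (N * (psi c w 0 + 1 / 2) - h) / M - pp 2 (h - N * psi c w 0) / (2 * N * M)) =
      1 - (N * (2 + c 0 ^ 2 + 17 * (1 - (c 0 ^ 2 + c 1 ^ 2)) + 1 / 2) - h) / M -
        pp 3 (h - 17 * N * (1 - (c 0 ^ 2 + c 1 ^ 2))) / (24 * N ^ 2 * M) := by
  have hsN : √N ^ 2 = N := Real.sq_sqrt hN.le
  have hs : 0 < √N := Real.sqrt_pos.mpr hN
  have hM' : M ≠ 0 := hM.ne'
  have hN' : N ≠ 0 := hN.ne'
  have hc' : c 0 ^ 2 + c 1 ^ 2 < 1 := hc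
  have ha : h - 17 * N * (1 - (c 0 ^ 2 + c 1 ^ 2)) ≤ N := by
    have : 0 ≤ 17 * N * (1 - (c 0 ^ 2 + c 1 ^ 2)) := by
      have h1 : 0 ≤ 1 - (c 0 ^ 2 + c 1 ^ 2) := by linarith
      positivity
    linarith
  have hc0 : |c 0| ≤ 1 := by
    rw [abs_le_one_iff_mul_self_le_one]
    nlinarith [sq_nonneg (c 1)]
  have hle : |√N * c 0| + √(h - 17 * N * (1 - (c 0 ^ 2 + c 1 ^ 2))) ≤ 2 * √N := by
    have h1 : √(h - 17 * N * (1 - (c 0 ^ 2 + c 1 ^ 2))) ≤ √N := Real.sqrt_le_sqrt ha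
    have h2 : |√N * c 0| ≤ √N := by
      rw [abs_mul, abs_of_pos hs]
      nlinarith
    linarith
  have h1 := dAv_pp (by positivity : (0 : ℝ) < 2 * √N) hle 2
  have hφ : Continuous fun v : Fin 2 → ℝ =>
      h - 17 * N * (1 - (c 0 ^ 2 + c 1 ^ 2)) -
        ((2 * √N * v 0 - √N * c 0) ^ 2 + (2 * √N * v 1) ^ 2) := by fun_prop
  have h2 := Gad_comb (1 - (N * (c 0 ^ 2 + 17 * (1 - (c 0 ^ 2 + c 1 ^ 2)) + 1 / 2) - h) / M)
    (4 * N * c 0 / M) (-4 * N / M) (-4 * N / M) (-1 / (2 * N * M)) _ 2 hφ h1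
  have h3 : (fun w : Fin 2 → ℝ => 1 - (N * (psi c w 0 + 1 / 2) - h) / M -
        pp 2 (h - N * psi c w 0) / (2 * N * M)) =
      fun v => (1 - (N * (c 0 ^ 2 + 17 * (1 - (c 0 ^ 2 + c 1 ^ 2)) + 1 / 2) - h) / M) +
        (4 * N * c 0 / M) * v 0 + (-4 * N / M) * v 0 ^ 2 + (-4 * N / M) * v 1 ^ 2 +
        (-1 / (2 * N * M)) * pp 2 (h - 17 * N * (1 - (c 0 ^ 2 + c 1 ^ 2)) -
          ((2 * √N * v 0 - √N * c 0) ^ 2 + (2 * √N * v 1) ^ 2)) := by
    funext w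
    have e1 : h - 17 * N * (1 - (c 0 ^ 2 + c 1 ^ 2)) -
        ((2 * √N * w 0 - √N * c 0) ^ 2 + (2 * √N * w 1) ^ 2) = h - N * psi c w 0 := by
      rw [Gad_psi0 c w]
      have e2 : (2 * √N * w 0 - √N * c 0) ^ 2 = √N ^ 2 * (2 * w 0 - c 0) ^ 2 := by ring
      have e3 : (2 * √N * w 1) ^ 2 = √N ^ 2 * (2 * w 1) ^ 2 := by ring
      rw [e2, e3, hsN]
      ring
    rw [e1, Gad_psi0 c w]
    ring
  have e4 : (2 * √N) ^ 2 = 4 * N := by
    rw [mul_pow, hsN]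
    norm_num
  rw [h3, h2, e4]
  have e5 : (((2 : ℕ) : ℝ) + 1) = 3 := by norm_num
  rw [e5]
  show _ = 1 - (N * (2 + c 0 ^ 2 + 17 * (1 - (c 0 ^ 2 + c 1 ^ 2)) + 1 / 2) - h) / M -
        pp (2 + 1) (h - 17 * N * (1 - (c 0 ^ 2 + c 1 ^ 2))) / (24 * N ^ 2 * M)
  field_simp
  ring

/-- The average over `c`: `dAv_xx`, `dAv_norm`, `dAv_edge` with `L = 17 N`, `k = 3`. -/
theorem gad1 {N M h : ℝ} (hM : 0 < M) (hN : 0 < N) (hh : h ≤ N) :
    dAv (fun c => 1 - (N * (2 + c 0 ^ 2 + 17 * (1 - (c 0 ^ 2 + c 1 ^ 2)) + 1 / 2) - h) / M -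
        pp 3 (h - 17 * N * (1 - (c 0 ^ 2 + c 1 ^ 2))) / (24 * N ^ 2 * M)) =
      1 - (45 / 4 * N - h) / M - pp 4 h / (1632 * N ^ 3 * M) := by
  have hM' : M ≠ 0 := hM.ne'
  have hN' : N ≠ 0 := hN.ne'
  have h1 := dAv_edge (by positivity : (0 : ℝ) < 17 * N) (by linarith : h ≤ 17 * N) 3
  have hφ : Continuous fun v : Fin 2 → ℝ => h - 17 * N * (1 - (v 0 ^ 2 + v 1 ^ 2)) := by fun_prop
  have h2 := Gad_comb (1 - (N * (2 + 17 + 1 / 2) - h) / M) 0 (16 * N / M) (17 * N / M)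
    (-1 / (24 * N ^ 2 * M)) _ 3 hφ h1
  have h3 : (fun c : Fin 2 → ℝ =>
        1 - (N * (2 + c 0 ^ 2 + 17 * (1 - (c 0 ^ 2 + c 1 ^ 2)) + 1 / 2) - h) / M -
        pp 3 (h - 17 * N * (1 - (c 0 ^ 2 + c 1 ^ 2))) / (24 * N ^ 2 * M)) =
      fun v => (1 - (N * (2 + 17 + 1 / 2) - h) / M) + 0 * v 0 + (16 * N / M) * v 0 ^ 2 +
        (17 * N / M) * v 1 ^ 2 +
        (-1 / (24 * N ^ 2 * M)) * pp 3 (h - 17 * N * (1 - (v 0 ^ 2 + v 1 ^ 2))) := by
    funext c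
    ring
  rw [h3, h2]
  have e5 : (((3 : ℕ) : ℝ) + 1) = 4 := by norm_num
  rw [e5]
  show _ = 1 - (45 / 4 * N - h) / M - pp (3 + 1) h / (1632 * N ^ 3 * M)
  field_simp
  ring

end Pool.Agent.Lib.MP_bbe012_lc.CD
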