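import Mathlib
import Pool.Agent.Lib.MP_bbe012_lc.CD.Gad

/-!
# The last step for polynomials
-/

namespace Pool.Agent.Lib.MP_bbe012_lc.CD

open MeasureTheory Set HC CV

private theorem GadB_sc_ge (h q : PCode) : 4 ≤ scC h q := by
  unfold scC
  omega

theorem CC0_mC {n m : ℕ} {h q : PCode} (hq : CC0 q) : CC0 (mC n m h q) :=
  (CC0.nat 2).mul (((CC0.single _).mul (CC0.nat _)).append
    ((CC0.pcAv n m h).neg.append ((CC0.single _).mul hq)))

/-- The value of `M` (`cval_pcAv`). -/
theorem cval_mC {n m : ℕ} {h q : PCode} (hq : CC0 q) : (cval (mC n m h q) : ℝ) =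
    2 * (45 / 4 * scC h q - Av n m (fun x => pcEval (n + 2 * m) h x) +
      cval q / (1632 * (scC h q : ℝ) ^ 3)) := by
  have hN : 1 ≤ 1632 * scC h q ^ 3 := by
    have h1 : 1 ≤ scC h q ^ 3 := Nat.one_le_pow _ _ (by have := GadB_sc_ge h q; omega)
    omega
  have h1 : cval (mC n m h q) = 2 * (1 / 4 * (45 * scC h q) +
      (-cval (pcAv n m h) + 1 / (1632 * (scC h q : ℚ) ^ 3) * cval q)) := by
    unfold mC
    rw [cval_mul (CC0.nat 2) (((CC0.single _).mul (CC0.nat _)).append
      ((CC0.pcAv n m h).neg.append ((CC0.single _).mul hq))), cval_append, cval_append,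
      cval_mul (CC0.single _) (CC0.nat _), cval_mul (CC0.single _) hq, cval_neg, cval_nat,
      cval_nat, cval_qinv, cval_qinv' hN]
    push_cast
    ring
  rw [h1]
  push_cast
  rw [cval_pcAv]
  ring

/-- `89/4 N + K ≤ M` for `|h| ≤ K = pcK h`, `N = scC h q`: `abs_Av_le`, `abs_pcEval_le` (CV/Disc.lean), `CC0.abs_le`. -/
theorem mC_bound {n m : ℕ} {h q : PCode} (hq : CC0 q) :
    89 / 4 * (scC h q : ℝ) + pcK h ≤ cval (mC n m h q) := by
  rw [cval_mC hq]
  have h1 : |Av n m (fun x => pcEval (n + 2 * m) h x)| ≤ pcK h :=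
    abs_Av_le fun x hx => abs_pcEval_le h (boxDisc_sub_cube n m hx)
  have h2 : |(cval q : ℝ)| ≤ pcK q := hq.abs_le
  have hN : (scC h q : ℝ) = 12 * pcK h + 4 * pcK q + 4 := by
    unfold scC
    push_cast
    ring
  have hK : (0 : ℝ) ≤ pcK h := Nat.cast_nonneg _
  have hKq : (0 : ℝ) ≤ pcK q := Nat.cast_nonneg _
  have hN1 : (1 : ℝ) ≤ scC h q := by rw [hN]; linarith
  have h3 : -(pcK q / 2 : ℝ) ≤ cval q / (1632 * (scC h q : ℝ) ^ 3) := by
    have h4 : (2 : ℝ) ≤ 1632 * (scC h q : ℝ) ^ 3 := by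
      have := one_le_pow₀ (n := 3) hN1
      linarith
    rw [le_div_iff₀ (by linarith)]
    have h5 := (abs_le.1 h2).1
    nlinarith
  have h6 := (abs_le.1 h1).2
  linarith

/-- The value of the final polynomial. `Tr` (CV/EvalS.lean): `h` depends only on the first `n + 2 m` variables. `Fin.append_left`, `Fin.append_right`,
`pcEval_var`; compare `eval_nextS` in CV/StepE.lean. -/
theorem eval_gadC {N : ℕ} {n m : ℕ} (hN : N = n + 2 * m) {h q : PCode} (hh : Tr N h) (hq : CC0 q)
    (x : Fin N → ℝ) (c w u v : Fin 2 → ℝ) :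
    pcEval (N + 2 + 2 + 2 + 2) (gadC n m h q)
      (Fin.append (Fin.append (Fin.append (Fin.append x c) w) u) v) =
      pcEval N h x - scC h q * psi c w u + cval (mC n m h q) * (v 0 ^ 2 + v 1 ^ 2) := by
  subst hN
  set z := Fin.append (Fin.append (Fin.append (Fin.append x c) w) u) v with hz
  have hx : pcEval (n + 2 * m + 2 + 2 + 2 + 2) h z = pcEval (n + 2 * m) h x := by
    rw [hh _ (by omega)]
    congr 1
    funext i
    have e1 := Fin.append_left (Fin.append (Fin.append (Fin.append x c) w) u) v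
      (Fin.castAdd 2 (Fin.castAdd 2 (Fin.castAdd 2 i)))
    have e2 := Fin.append_left (Fin.append (Fin.append x c) w) u (Fin.castAdd 2 (Fin.castAdd 2 i))
    have e3 := Fin.append_left (Fin.append x c) w (Fin.castAdd 2 i)
    have e4 := Fin.append_left x c i
    exact e1.trans (e2.trans (e3.trans e4))
  have hc : ∀ j : Fin 2, pcEval (n + 2 * m + 2 + 2 + 2 + 2) (pcVar (n + 2 * m + j)) z = c j := by
    intro j
    rw [pcEval_var (by omega)]
    have e1 := Fin.append_left (Fin.append (Fin.append (Fin.append x c) w) u) v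
      (Fin.castAdd 2 (Fin.castAdd 2 (Fin.natAdd (n + 2 * m) j)))
    have e2 := Fin.append_left (Fin.append (Fin.append x c) w) u
      (Fin.castAdd 2 (Fin.natAdd (n + 2 * m) j))
    have e3 := Fin.append_left (Fin.append x c) w (Fin.natAdd (n + 2 * m) j)
    have e4 := Fin.append_right x c j
    exact e1.trans (e2.trans (e3.trans e4))
  have hw : ∀ j : Fin 2, pcEval (n + 2 * m + 2 + 2 + 2 + 2) (pcVar (n + 2 * m + 2 + j)) z = w j := by
    intro j
    rw [pcEval_var (by omega)]
    have e1 := Fin.append_left (Fin.append (Fin.append (Fin.append x c) w) u) v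
      (Fin.castAdd 2 (Fin.natAdd (n + 2 * m + 2) j))
    have e2 := Fin.append_left (Fin.append (Fin.append x c) w) u (Fin.natAdd (n + 2 * m + 2) j)
    have e3 := Fin.append_right (Fin.append x c) w j
    exact e1.trans (e2.trans e3)
  have hu : ∀ j : Fin 2, pcEval (n + 2 * m + 2 + 2 + 2 + 2) (pcVar (n + 2 * m + 4 + j)) z = u j := by
    intro j
    rw [pcEval_var (by omega)]
    have e1 := Fin.append_left (Fin.append (Fin.append (Fin.append x c) w) u) v
      (Fin.natAdd (n + 2 * m + 2 + 2) j)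
    have e2 := Fin.append_right (Fin.append (Fin.append x c) w) u j
    exact e1.trans e2
  have hv : ∀ j : Fin 2, pcEval (n + 2 * m + 2 + 2 + 2 + 2) (pcVar (n + 2 * m + 6 + j)) z = v j := by
    intro j
    rw [pcEval_var (by omega)]
    exact Fin.append_right (Fin.append (Fin.append (Fin.append x c) w) u) v j
  have hc0 := hc 0
  have hc1 := hc 1
  have hw0 := hw 0
  have hw1 := hw 1
  have hu0 := hu 0
  have hu1 := hu 1
  have hv0 := hv 0
  have hv1 := hv 1
  simp only [Fin.val_zero, Fin.val_one, add_zero] at hc0 hc1 hw0 hw1 hu0 hu1 hv0 hv1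
  have hM : pcEval (n + 2 * m + 2 + 2 + 2 + 2) (mC n m h q) z = cval (mC n m h q) :=
    (CC0_mC hq).eval _ _
  unfold gadC psiC offC nsq psi
  simp only [pcEval_append, pcEval_neg, pcEval_mul, pcEval_nat, hx, hc0, hc1, hw0, hw1, hu0, hu1,
    hv0, hv1, hM]
  push_cast
  ring

/-- Iterated averages are integrable. -/
private theorem GadB_int {n m : ℕ} {φ : (Fin (n + 2 * (m + 1)) → ℝ) → ℝ}
    (h : IntegrableOn φ (boxDisc n (m + 1))) :
    IntegrableOn (fun x => dAv fun w => φ (Fin.append x w : Fin (n + 2 * m + 2) → ℝ))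
      (boxDisc n m) := by
  have h1 : IntegrableOn (φ : (Fin (n + 2 * m + 2) → ℝ) → ℝ)
      (pS (a := n + 2 * m) (b := 2) (boxDisc n m) disc) := by
    rw [← boxDisc_succ]
    exact h
  exact (integrable_pS (measurableSet_boxDisc n m) measurableSet_disc h1).div_const Real.pi

/-- The last step. `Av_succ` four times (the order of the averages is `x`, `c`, `w`, `u`, `v`), integrability: `integrableOn_boxDisc_pp` for the total space and
`integrable_pS` for the iterated averages (or write them as averages and use that they are equal to the explicit bounded measurable functions of `gad4`, ...),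
`gad4`, `gad3`, `gad2`, `gad1`, then linearity; `cval_mC`, `mC_bound`. -/
theorem gad_spec {n m : ℕ} {h q : PCode} (hh : Tr (n + 2 * m) h) (hq : CC0 q) :
    0 < cval (mC n m h q) ∧ AA n (m + 4) (gadC n m h q) 0 =
      1 / 2 - (AA n m h 4 - cval q) / (1632 * (scC h q : ℝ) ^ 3 * cval (mC n m h q)) := by
  have hb := mC_bound (n := n) (m := m) (h := h) hq
  have hNge : (4 : ℝ) ≤ scC h q := by exact_mod_cast GadB_sc_ge h q
  have hK : (0 : ℝ) ≤ pcK h := Nat.cast_nonneg _
  have hKN : (pcK h : ℝ) ≤ scC h q := by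
    have : pcK h ≤ scC h q := by
      unfold scC
      omega
    exact_mod_cast this
  have hN : (0 : ℝ) < scC h q := by linarith
  have hMr : (0 : ℝ) < cval (mC n m h q) := by linarith
  have hval := cval_mC (n := n) (m := m) (h := h) hq
  refine ⟨by exact_mod_cast hMr, ?_⟩
  set N : ℝ := ((scC h q : ℕ) : ℝ) with hNdef
  set M : ℝ := ((cval (mC n m h q) : ℚ) : ℝ) with hMdef
  -- the four averages
  have hI0 : IntegrableOn (fun z => pp 0 (pcEval (n + 2 * (m + 4)) (gadC n m h q) z))
      (boxDisc n (m + 3 + 1)) := integrableOn_boxDisc_pp n (m + 4) 0 _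
  have hI1 := GadB_int hI0
  have hI2 := GadB_int (m := m + 2) hI1
  have hI3 := GadB_int (m := m + 1) hI2
  have hA : AA n (m + 4) (gadC n m h q) 0 = Av n m fun x => dAv fun c => dAv fun w => dAv fun u =>
      dAv fun v => pp 0 (pcEval (n + 2 * m + 2 + 2 + 2 + 2) (gadC n m h q)
        (Fin.append (Fin.append (Fin.append (Fin.append x c) w) u) v)) := by
    unfold AA
    rw [Av_succ (m := m + 3) hI0, Av_succ (m := m + 2) hI1, Av_succ (m := m + 1) hI2,
      Av_succ (m := m) hI3]
    rfl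
  rw [hA]
  have hin : ∀ x ∈ boxDisc n m, (dAv fun c => dAv fun w => dAv fun u =>
      dAv fun v => pp 0 (pcEval (n + 2 * m + 2 + 2 + 2 + 2) (gadC n m h q)
        (Fin.append (Fin.append (Fin.append (Fin.append x c) w) u) v))) =
      (1 - (45 / 4 * N - pcEval (n + 2 * m) h x) / M) -
        1 / (1632 * N ^ 3 * M) * pp 4 (pcEval (n + 2 * m) h x) := by
    intro x hx
    have hhx : |pcEval (n + 2 * m) h x| ≤ pcK h := abs_pcEval_le h (boxDisc_sub_cube n m hx)
    set y : ℝ := pcEval (n + 2 * m) h x with hy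
    have hyN : y ≤ N := ((abs_le.1 hhx).2).trans hKN
    have h4 : ∀ c ∈ disc, ∀ w ∈ disc, ∀ u ∈ disc,
        (dAv fun v => pp 0 (pcEval (n + 2 * m + 2 + 2 + 2 + 2) (gadC n m h q)
          (Fin.append (Fin.append (Fin.append (Fin.append x c) w) u) v))) =
        1 - (N * psi c w u - y) / M - pp 1 (y - N * psi c w u) / M := by
      intro c hc w hw u hu
      rw [← gad4 hMr (h := y) (N := N) (c := c) (w := w) (u := u) ?_]
      · refine dAv_congr fun v _ => ?_
        rw [eval_gadC rfl hh hq]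
      · have h5 := psi_le hc hw hu
        have h6 : N * psi c w u ≤ N * (89 / 4) := mul_le_mul_of_nonneg_left h5 hN.le
        have h7 := (abs_le.1 hhx).1
        linarith
    have h3 : ∀ c ∈ disc, ∀ w ∈ disc, (dAv fun u =>
        dAv fun v => pp 0 (pcEval (n + 2 * m + 2 + 2 + 2 + 2) (gadC n m h q)
          (Fin.append (Fin.append (Fin.append (Fin.append x c) w) u) v))) =
        1 - (N * (psi c w 0 + 1 / 2) - y) / M - pp 2 (y - N * psi c w 0) / (2 * N * M) := by
      intro c hc w hw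
      rw [dAv_congr fun u hu => h4 c hc w hw u hu, gad3 hMr hN hyN hc]
    have h2 : ∀ c ∈ disc, (dAv fun w => dAv fun u =>
        dAv fun v => pp 0 (pcEval (n + 2 * m + 2 + 2 + 2 + 2) (gadC n m h q)
          (Fin.append (Fin.append (Fin.append (Fin.append x c) w) u) v))) =
        1 - (N * (2 + c 0 ^ 2 + 17 * (1 - (c 0 ^ 2 + c 1 ^ 2)) + 1 / 2) - y) / M -
          pp 3 (y - 17 * N * (1 - (c 0 ^ 2 + c 1 ^ 2))) / (24 * N ^ 2 * M) := by
      intro c hc
      rw [dAv_congr fun w hw => h3 c hc w hw, gad2 hMr hN hyN hc]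
    rw [dAv_congr fun c hc => h2 c hc, gad1 hMr hN hyN]
    ring
  rw [Av_congr hin]
  have hIh : IntegrableOn (fun x => pcEval (n + 2 * m) h x) (boxDisc n m) :=
    integrableOn_boxDisc_pc n m h
  have hIp : IntegrableOn (fun x => pp 4 (pcEval (n + 2 * m) h x)) (boxDisc n m) :=
    integrableOn_boxDisc_pp n m 4 h
  have hIc : ∀ c : ℝ, IntegrableOn (fun _ : Fin (n + 2 * m) → ℝ => c) (boxDisc n m) := fun c =>
    integrableOn_const (by rw [volume_boxDisc]; exact ENNReal.ofReal_ne_top)
  have e1 : (fun x : Fin (n + 2 * m) → ℝ => (1 - (45 / 4 * N - pcEval (n + 2 * m) h x) / M) -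
        1 / (1632 * N ^ 3 * M) * pp 4 (pcEval (n + 2 * m) h x)) =
      fun x => ((1 - 45 / 4 * N / M) + 1 / M * pcEval (n + 2 * m) h x) -
        1 / (1632 * N ^ 3 * M) * pp 4 (pcEval (n + 2 * m) h x) := by
    funext x
    ring
  have hI5 : IntegrableOn (fun x => 1 / M * pcEval (n + 2 * m) h x) (boxDisc n m) :=
    hIh.const_mul _
  have hI6 : IntegrableOn (fun x => (1 - 45 / 4 * N / M) + 1 / M * pcEval (n + 2 * m) h x)
      (boxDisc n m) := (hIc _).add hI5
  have hI7 : IntegrableOn (fun x => 1 / (1632 * N ^ 3 * M) * pp 4 (pcEval (n + 2 * m) h x))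
      (boxDisc n m) := hIp.const_mul _
  rw [e1, Av_sub hI6 hI7, Av_add (hIc _) hI5, Av_const, Av_const_mul, Av_const_mul]
  have e2 : Av n m (fun x => pp 4 (pcEval (n + 2 * m) h x)) = AA n m h 4 := rfl
  rw [e2]
  set a : ℝ := Av n m fun x => pcEval (n + 2 * m) h x with ha
  have hM' : M ≠ 0 := hMr.ne'
  have hN' : N ≠ 0 := hN.ne'
  have e3 : a = 45 / 4 * N + cval q / (1632 * N ^ 3) - M / 2 := by
    rw [hval]
    ring
  rw [e3]
  field_simp
  ring

end Pool.Agent.Lib.MP_bbe012_lc.CD
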