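import Mathlib
import Pool.Agent.Lib.MP_bbe012_lc.CD.AvC
import Pool.Agent.Lib.MP_bbe012_lc.CV.StepI

/-!
# One round with discs
-/

namespace Pool.Agent.Lib.MP_bbe012_lc.CD

open MeasureTheory Set HC CV

/-- The inner average over `v`; as `inner_v` in CV/StepI.lean, with `dAv_pp` for the disc. -/
theorem inner_vD (n T k : ℕ) {L : List PCode} {R : SCode} (he : Tr n (eC L)) (hz : Tr n (zC L))
    (hR : Tr n (flat R)) {x : Fin n → ℝ} (hx : x ∈ cube n) {u : Fin 2 → ℝ} (hu : u ∈ cube 2) :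
    dAv (fun v => pp k (pcEval (n + 2 + 2) (flat (nextS n T (yB n T L R) L R))
        (Fin.append (Fin.append x u) v))) =
      1 / ((yB n T L R : ℝ) ^ 2 * (k + 1)) *
        pp (k + 1) (pcEval (n + 2) (fC n T L R) (Fin.append x u)) := by
  have h1 : ∀ v : Fin 2 → ℝ, pp k (pcEval (n + 2 + 2) (flat (nextS n T (yB n T L R) L R))
      (Fin.append (Fin.append x u) v)) =
      pp k (pcEval (n + 2) (fC n T L R) (Fin.append x u) -
        ((((yB n T L R : ℕ) : ℝ) * v 0 - (T * u 0 + (pcEval n (eC L) x - pcEval n (zC L) x) / 2)) ^ 2 +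
          (((yB n T L R : ℕ) : ℝ) * v 1) ^ 2)) := by
    intro v
    rw [eval_nextS n T (yB n T L R) he hz hR x u v]
  simp only [h1]
  have hYeq : ((yB n T L R : ℕ) : ℝ) = 1 + T + pcK (eC L) + pcK (zC L) + pcK (fC n T L R) := by
    rw [yB]; push_cast; ring
  have hT0 : (0 : ℝ) ≤ T := Nat.cast_nonneg T
  have hE := abs_pcEval_le (eC L) hx
  have hZ := abs_pcEval_le (zC L) hx
  have hF := abs_pcEval_le (fC n T L R) (StepI_append_mem hx hu)
  have hK : (0 : ℝ) ≤ pcK (fC n T L R) := Nat.cast_nonneg _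
  have hKe : (0 : ℝ) ≤ pcK (eC L) := Nat.cast_nonneg _
  have hKz : (0 : ℝ) ≤ pcK (zC L) := Nat.cast_nonneg _
  have hY : (0 : ℝ) < ((yB n T L R : ℕ) : ℝ) := by
    rw [hYeq]; positivity
  have hs := StepI_sqrt_le _ _ hF
  have hu0 : |u 0| ≤ 1 := by
    rw [abs_le]; exact ⟨(hu 0).1.le, (hu 0).2.le⟩
  have hTu : |(T : ℝ) * u 0| ≤ T := by
    rw [abs_mul, abs_of_nonneg hT0]
    nlinarith
  have hc : |(T : ℝ) * u 0 + (pcEval n (eC L) x - pcEval n (zC L) x) / 2| ≤
      T + (pcK (eC L) + pcK (zC L)) / 2 := by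
    rw [abs_le] at hTu hE hZ ⊢
    constructor <;> linarith [hTu.1, hTu.2, hE.1, hE.2, hZ.1, hZ.2]
  refine dAv_pp hY ?_ k
  rw [hYeq]
  linarith

/-- The second part of the inner average over `u`; as `StepI_inner` in CV/StepI.lean. -/
theorem inner_uD (n k : ℕ) {L : List PCode} {R : SCode} (he : Tr n (eC L))
    (hz : Tr n (zC L)) (hR : Tr n (flat R)) {x : Fin n → ℝ} (hx : x ∈ cube n) :
    dAv (fun u => pp (k + 1) (-(pcEval (n + 2) (fC n (tB L R) L R) (Fin.append x u)))) =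
        1 / ((tB L R : ℝ) ^ 2 * (k + 2)) *
          pp (k + 2) (pcEval n (eC L) x * pcEval n (zC L) x + pcEval n (flat R) x) := by
  have h1 : ∀ u : Fin 2 → ℝ, pp (k + 1) (-(pcEval (n + 2) (fC n (tB L R) L R) (Fin.append x u))) =
      pp (k + 1) ((pcEval n (eC L) x * pcEval n (zC L) x + pcEval n (flat R) x) -
        ((((tB L R : ℕ) : ℝ) * u 0 - (pcEval n (eC L) x + pcEval n (zC L) x) / 2) ^ 2 +
          (((tB L R : ℕ) : ℝ) * u 1) ^ 2)) := by
    intro u
    rw [eval_fC n (tB L R) he hz hR x u]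
    congr 1
    ring
  simp only [h1]
  have hYeq : ((tB L R : ℕ) : ℝ) = 1 + pcK (eC L) + pcK (zC L) + pcK (flat R) +
      pcK (eC L) * pcK (zC L) := by
    rw [tB]; push_cast; ring
  have hE := abs_pcEval_le (eC L) hx
  have hZ := abs_pcEval_le (zC L) hx
  have hF := abs_pcEval_le (flat R) hx
  have hK : (0 : ℝ) ≤ pcK (flat R) := Nat.cast_nonneg _
  have hKe : (0 : ℝ) ≤ pcK (eC L) := Nat.cast_nonneg _
  have hKz : (0 : ℝ) ≤ pcK (zC L) := Nat.cast_nonneg _
  have hY : (0 : ℝ) < ((tB L R : ℕ) : ℝ) := by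
    rw [hYeq]; positivity
  have ha : |pcEval n (eC L) x * pcEval n (zC L) x + pcEval n (flat R) x| ≤
      pcK (eC L) * pcK (zC L) + pcK (flat R) := by
    refine (abs_add_le _ _).trans (add_le_add ?_ hF)
    rw [abs_mul]
    exact mul_le_mul hE hZ (abs_nonneg _) hKe
  have hs := StepI_sqrt_le _ _ ha
  have hc : |(pcEval n (eC L) x + pcEval n (zC L) x) / 2| ≤ (pcK (eC L) + pcK (zC L)) / 2 := by
    rw [abs_le] at hE hZ ⊢
    constructor <;> linarith [hE.1, hE.2, hZ.1, hZ.2]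
  have hKK : (0 : ℝ) ≤ pcK (eC L) * pcK (zC L) := mul_nonneg hKe hKz
  have h2 := dAv_pp (a := pcEval n (eC L) x * pcEval n (zC L) x + pcEval n (flat R) x)
    (c := (pcEval n (eC L) x + pcEval n (zC L) x) / 2) (Y := ((tB L R : ℕ) : ℝ)) hY
    (by rw [hYeq]; linarith) (k + 1)
  rw [h2]
  push_cast
  ring

/-- One round, for the choice `L`, `R`; as `round_integral` in CV/StepI.lean, with `Av_succ` twice. -/
theorem round_av (n m k : ℕ) (hk : Even k) {L : List PCode} {R : SCode} (he : Tr (n + 2 * m) (eC L))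
    (hz : Tr (n + 2 * m) (zC L)) (hR : Tr (n + 2 * m) (flat R)) :
    AA n (m + 2) (flat (nextS (n + 2 * m) (tB L R) (yB (n + 2 * m) (tB L R) L R) L R)) k =
      1 / ((yB (n + 2 * m) (tB L R) L R : ℝ) ^ 2 * (k + 1)) *
        (Av n (m + 1) (fun x => pcEval (n + 2 * (m + 1)) (pcPow (fC (n + 2 * m) (tB L R) L R) (k + 1)) x) +
          1 / ((tB L R : ℝ) ^ 2 * (k + 2)) *
            Av n m (fun x => pp (k + 2) (pcEval (n + 2 * m) (eC L) x * pcEval (n + 2 * m) (zC L) x +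
              pcEval (n + 2 * m) (flat R) x))) := by
  have hA : AA n (m + 2) (flat (nextS (n + 2 * m) (tB L R) (yB (n + 2 * m) (tB L R) L R) L R)) k =
      Av n (m + 1) fun w => dAv fun v =>
        pp k (pcEval (n + 2 * m + 2 + 2) (flat (nextS (n + 2 * m) (tB L R) (yB (n + 2 * m) (tB L R) L R) L R))
          (Fin.append (w : Fin (n + 2 * m + 2) → ℝ) v)) :=
    Av_succ (n := n) (m := m + 1) (integrableOn_boxDisc_pp n (m + 2) k _)
  have hB : ∀ w ∈ boxDisc n (m + 1), (dAv fun v =>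
        pp k (pcEval (n + 2 * m + 2 + 2) (flat (nextS (n + 2 * m) (tB L R) (yB (n + 2 * m) (tB L R) L R) L R))
          (Fin.append (w : Fin (n + 2 * m + 2) → ℝ) v))) =
      1 / ((yB (n + 2 * m) (tB L R) L R : ℝ) ^ 2 * (k + 1)) *
        pp (k + 1) (pcEval (n + 2 * (m + 1)) (fC (n + 2 * m) (tB L R) L R) w) := by
    intro w hw
    have hw2 : (w : Fin (n + 2 * m + 2) → ℝ) ∈ cube (n + 2 * m + 2) := boxDisc_sub_cube n (m + 1) hw
    have h := inner_vD (n + 2 * m) (tB L R) k he hz hR (x := fun i => w (Fin.castAdd 2 i))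
      (fun i => hw2 (Fin.castAdd 2 i)) (u := fun i => w (Fin.natAdd (n + 2 * m) i))
      (fun i => hw2 (Fin.natAdd (n + 2 * m) i))
    rw [StepI_append_eq (n := n + 2 * m) (m := 2) w] at h
    exact h
  rw [hA, Av_congr hB, Av_const_mul]
  congr 1
  have hI1 : IntegrableOn (fun w => pcEval (n + 2 * (m + 1)) (pcPow (fC (n + 2 * m) (tB L R) L R) (k + 1)) w)
      (boxDisc n (m + 1)) := integrableOn_boxDisc_pc n (m + 1) _
  have hI2 : IntegrableOn (fun w : Fin (n + 2 * (m + 1)) → ℝ =>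
      pp (k + 1) (-(pcEval (n + 2 * (m + 1)) (fC (n + 2 * m) (tB L R) L R) w))) (boxDisc n (m + 1)) := by
    refine integrableOn_boxDisc ?_
    refine integrableOn_pp (k + 1) (B := pcK (fC (n + 2 * m) (tB L R) L R)) (measurable_pcEval _ _).neg ?_
    intro u hu
    rw [abs_neg]
    exact abs_pcEval_le _ hu
  have hC : Av n (m + 1) (fun w => pp (k + 1) (pcEval (n + 2 * (m + 1)) (fC (n + 2 * m) (tB L R) L R) w)) =
      Av n (m + 1) (fun w => pcEval (n + 2 * (m + 1)) (pcPow (fC (n + 2 * m) (tB L R) L R) (k + 1)) w) +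
        Av n (m + 1) (fun w => pp (k + 1) (-(pcEval (n + 2 * (m + 1)) (fC (n + 2 * m) (tB L R) L R) w))) := by
    rw [← Av_add hI1 hI2]
    refine Av_congr fun w _ => ?_
    rw [pcEval_pow]
    exact StepI_pp_split hk _
  rw [hC]
  congr 1
  rw [Av_succ hI2, ← Av_const_mul]
  refine Av_congr fun x hx => ?_
  exact inner_uD (n + 2 * m) k he hz hR (boxDisc_sub_cube n m hx)

/-- One round for a state: `tr_pick`, `round_av`, `pick_eval` for `trS _ S`, `pcEval_flat_trS`, `cval_pcAv`, `cval_mul`, `cval_append`, `cval_qinv'`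
(Cst.lean); as `step_integral` in CV/StepI.lean. -/
theorem stepD_spec (n k : ℕ) (hk : Even k) {s : St} (hs : CC0 s.2) :
    CC0 (stepD n k s).2 ∧ ∃ (T Y : ℕ) (g : ℚ), 1 ≤ T ∧ 1 ≤ Y ∧
      AA n (stepD n k s).1.1 (flat (stepD n k s).1.2) k =
        1 / ((Y : ℝ) ^ 2 * (k + 1)) *
          (g + 1 / ((T : ℝ) ^ 2 * (k + 2)) * AA n s.1.1 (flat s.1.2) (k + 2)) ∧
      cval (stepD n k s).2 =
        1 / ((Y : ℚ) ^ 2 * (k + 1)) * (g + 1 / ((T : ℚ) ^ 2 * (k + 2)) * cval s.2) := by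
  obtain ⟨⟨m, S⟩, Q⟩ := s
  obtain ⟨he, hz, hR⟩ := tr_pick (n + 2 * m) S
  set L := (pick (trS (n + 2 * m) S)).1 with hL
  set R := (pick (trS (n + 2 * m) S)).2 with hRd
  have hQ : CC0 Q := hs
  have hT : 1 ≤ tB L R := by unfold tB; omega
  have hY : 1 ≤ yB (n + 2 * m) (tB L R) L R := by unfold yB; omega
  have c1 : CC0 (pcAv n (m + 1) (pcPow (fC (n + 2 * m) (tB L R) L R) (k + 1))) := CC0.pcAv _ _ _
  have c2 : CC0 (pcMul [(qinv ((tB L R) ^ 2 * (k + 2) - 1), [])] Q) := CC0.mul (CC0.single _) hQ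
  refine ⟨CC0.mul (CC0.single _) (CC0.append c1 c2), tB L R, yB (n + 2 * m) (tB L R) L R,
    cval (pcAv n (m + 1) (pcPow (fC (n + 2 * m) (tB L R) L R) (k + 1))), hT, hY, ?_, ?_⟩
  · have h := round_av n m k hk he hz hR
    rw [← cval_pcAv n (m + 1)] at h
    have h2 : Av n m (fun x => pp (k + 2) (pcEval (n + 2 * m) (eC L) x * pcEval (n + 2 * m) (zC L) x +
              pcEval (n + 2 * m) (flat R) x)) = AA n m (flat S) (k + 2) := by
      refine Av_congr fun x _ => ?_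
      rw [← pick_eval (n + 2 * m) (trS (n + 2 * m) S) x, pcEval_flat_trS]
    rw [h2] at h
    exact h
  · show cval (nextQD n m k (tB L R) (yB (n + 2 * m) (tB L R) L R) (fC (n + 2 * m) (tB L R) L R) Q) = _
    have h1 : 1 ≤ (yB (n + 2 * m) (tB L R) L R) ^ 2 * (k + 1) := Nat.mul_pos (by positivity) (Nat.succ_pos k)
    have h2 : 1 ≤ (tB L R) ^ 2 * (k + 2) := Nat.mul_pos (by positivity) (by omega)
    rw [nextQD, cval_mul (CC0.single _) (CC0.append c1 c2), cval_append, cval_mul (CC0.single _) hQ,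
      cval_qinv' h1, cval_qinv' h2]
    push_cast
    ring

end Pool.Agent.Lib.MP_bbe012_lc.CD
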