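import Mathlib
import Pool.Agent.Lib.MP_bbe012_lc.CD.Round
import Pool.Agent.Lib.MP_bbe012_lc.CV.Deg

/-!
# The chain of rounds with discs
-/

namespace Pool.Agent.Lib.MP_bbe012_lc.CD

open MeasureTheory Set HC CV

/-- `stepD_spec`. -/
theorem stepD_diff (n k : ℕ) (hk : Even k) {s : St} (hs : CC0 s.2) :
    CC0 (stepD n k s).2 ∧ ∃ b : ℚ, 0 < b ∧
      AA n (stepD n k s).1.1 (flat (stepD n k s).1.2) k - cval (stepD n k s).2 =
        b * (AA n s.1.1 (flat s.1.2) (k + 2) - cval s.2) := by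
  obtain ⟨hcc, T, Y, g, hT, hY, h1, h2⟩ := stepD_spec n k hk hs
  have hT' : (0 : ℚ) < (T : ℚ) := by exact_mod_cast hT
  have hY' : (0 : ℚ) < (Y : ℚ) := by exact_mod_cast hY
  refine ⟨hcc, 1 / ((Y : ℚ) ^ 2 * (k + 1)) * (1 / ((T : ℚ) ^ 2 * (k + 2))), by positivity, ?_⟩
  rw [h1, h2]
  push_cast
  ring

theorem RunD_succ (n κ : ℕ) (s : St) (j : ℕ) :
    runD n κ s (j + 1) = stepD n (2 * (κ - 1 - j)) (runD n κ s j) := rfl

theorem RunD_step (n k : ℕ) (t u : St) (h : t.1 = (n + 2 * u.1.1, u.1.2)) :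
    (step k t).1 = (n + 2 * (stepD n k u).1.1, (stepD n k u).1.2) := by
  obtain ⟨a, c⟩ := t
  change a = _ at h
  subst h
  rfl

/-- Induction on `j ≤ κ`: the exponent after `j` rounds is `2 (κ - j)`. -/
theorem runD_diff (n κ : ℕ) {s : St} (hs : CC0 s.2) (j : ℕ) (hj : j ≤ κ) :
    CC0 (runD n κ s j).2 ∧ ∃ b : ℚ, 0 < b ∧
      AA n (runD n κ s j).1.1 (flat (runD n κ s j).1.2) (2 * (κ - j)) - cval (runD n κ s j).2 =
        b * (AA n s.1.1 (flat s.1.2) (2 * κ) - cval s.2) := by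
  induction j with
  | zero => exact ⟨hs, 1, one_pos, by simp [runD]⟩
  | succ j ih =>
    obtain ⟨h1, b, hb, h2⟩ := ih (by omega)
    obtain ⟨h3, b', hb', h4⟩ := stepD_diff n (2 * (κ - 1 - j)) (even_two_mul _) h1
    have e1 : 2 * (κ - 1 - j) + 2 = 2 * (κ - j) := by omega
    have e2 : κ - (j + 1) = κ - 1 - j := by omega
    refine ⟨h3, b' * b, mul_pos hb' hb, ?_⟩
    rw [RunD_succ, e2, h4, e1, h2]
    push_cast
    ring

/-- The sums of products are those of `run` (CV/Defs.lean): induction on `j`; the first component of `step k s` does not depend on `s.2`,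
and `n + 2 * (m + 2)` is `n + 2 * m + 4` by definition. -/
theorem runD_run (n κ : ℕ) (s : St) (q : PCode) (j : ℕ) :
    (run κ ((n + 2 * s.1.1, s.1.2), q) j).1 = (n + 2 * (runD n κ s j).1.1, (runD n κ s j).1.2) := by
  induction j with
  | zero => rfl
  | succ j ih => exact RunD_step n (2 * (κ - 1 - j)) _ _ ih

/-- `runD_run`, `deg1_run` (CV/Deg.lean). -/
theorem deg1_runD {n κ : ℕ} {s : St} (h : Deg1 (n + 2 * s.1.1) s.1.2) (j : ℕ) :
    Deg1 (n + 2 * (runD n κ s j).1.1) (runD n κ s j).1.2 := by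
  have h1 := deg1_run (κ := κ) (s := ((n + 2 * s.1.1, s.1.2), [])) h j
  rwa [runD_run n κ s [] j] at h1

/-- `runD_run`, `mu_run` (CV/Deg.lean). -/
theorem mu_runD (n κ : ℕ) (s : St) (j : ℕ) : mu (runD n κ s j).1.2 ≤ mu s.1.2 - j := by
  have h1 := mu_run κ ((n + 2 * s.1.1, s.1.2), []) j
  rwa [runD_run n κ s [] j] at h1

end Pool.Agent.Lib.MP_bbe012_lc.CD
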