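import Mathlib
import Pool.Agent.Lib.MP_bbe012_lc.CD.Dom
import Pool.Agent.Lib.MP_bbe012_lc.CV.Deg
import Pool.Agent.Lib.MP_bbe012_lc.CV.EvalS

/-!
# The exchange of two blocks of variables
-/

namespace Pool.Agent.Lib.MP_bbe012_lc.CD

open MeasureTheory Set HC CV

/-- The new position of a variable. -/
def sgm (n1 n2 k : ℕ) {M : ℕ} (hM : M = n1 + 2 * n2 + k) (l : Fin M) : Fin (n1 + k + 2 * n2) :=
  ⟨if (l : ℕ) < n1 then l else if (l : ℕ) < n1 + 2 * n2 then l + k else l - 2 * n2, by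
    have := l.2; split_ifs <;> omega⟩

/-- The old position of a variable. -/
private def Swap_inv (n1 n2 k : ℕ) {M : ℕ} (hM : M = n1 + 2 * n2 + k)
    (i : Fin (n1 + k + 2 * n2)) : Fin M :=
  ⟨if (i : ℕ) < n1 then i else if (i : ℕ) < n1 + k then i + 2 * n2 else i - k, by
    have := i.2; split_ifs <;> omega⟩

private theorem Swap_val (n1 n2 k : ℕ) {M : ℕ} (hM : M = n1 + 2 * n2 + k) (l : Fin M) :
    (sgm n1 n2 k hM l : ℕ) =
      if (l : ℕ) < n1 then (l : ℕ) else if (l : ℕ) < n1 + 2 * n2 then l + k else l - 2 * n2 := rfl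

private theorem Swap_inv_val (n1 n2 k : ℕ) {M : ℕ} (hM : M = n1 + 2 * n2 + k)
    (i : Fin (n1 + k + 2 * n2)) : (Swap_inv n1 n2 k hM i : ℕ) =
      if (i : ℕ) < n1 then (i : ℕ) else if (i : ℕ) < n1 + k then i + 2 * n2 else i - k := rfl

theorem sgm_bijective (n1 n2 k : ℕ) {M : ℕ} (hM : M = n1 + 2 * n2 + k) :
    Function.Bijective (sgm n1 n2 k hM) := by
  rw [Function.bijective_iff_has_inverse]
  refine ⟨Swap_inv n1 n2 k hM, fun l => ?_, fun i => ?_⟩
  · apply Fin.ext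
    have := l.2
    rw [Swap_inv_val, Swap_val]
    split_ifs <;> omega
  · apply Fin.ext
    have := i.2
    rw [Swap_val, Swap_inv_val]
    split_ifs <;> omega

private theorem Swap_getD (n1 n2 k : ℕ) {M : ℕ} (hM : M = n1 + 2 * n2 + k) (e : List ℕ)
    (l : Fin M) : (swE n1 n2 k e).getD (sgm n1 n2 k hM l : ℕ) 0 = e.getD l 0 := by
  have h : (if (sgm n1 n2 k hM l : ℕ) < n1 then (sgm n1 n2 k hM l : ℕ) else
      if (sgm n1 n2 k hM l : ℕ) < n1 + k then (sgm n1 n2 k hM l : ℕ) + 2 * n2 else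
        (sgm n1 n2 k hM l : ℕ) - k) = l := by
    have := l.2
    rw [Swap_val]
    split_ifs <;> omega
  unfold swE
  rw [List.getD_eq_getElem _ _ (by simp), List.getElem_map, List.getElem_range, h]

/-- The value of a polynomial after the exchange: `pcEval_cons` (Eval.lean), `getD` of `swE`, product over the bijection `sgm`. -/
theorem pcEval_swP (n1 n2 k : ℕ) {M : ℕ} (hM : M = n1 + 2 * n2 + k) (p : PCode)
    (x : Fin (n1 + k + 2 * n2) → ℝ) :
    pcEval (n1 + k + 2 * n2) (swP n1 n2 k p) x = pcEval M p fun l => x (sgm n1 n2 k hM l) := by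
  refine pcEval_map_exp (fun e => swE n1 n2 k e) x _ (fun e => ?_) p
  rw [← Function.Bijective.prod_comp (sgm_bijective n1 n2 k hM)
    (fun i => x i ^ (swE n1 n2 k e).getD i 0)]
  refine Finset.prod_congr rfl fun l _ => ?_
  rw [Swap_getD]

/-- `pcEval_flat`, `pcEval_prodL` (CV/EvalS.lean; add the import), `pcEval_swP`. -/
theorem pcEval_flat_swS (n1 n2 k : ℕ) {M : ℕ} (hM : M = n1 + 2 * n2 + k) (S : SCode)
    (x : Fin (n1 + k + 2 * n2) → ℝ) :
    pcEval (n1 + k + 2 * n2) (flat (swS n1 n2 k S)) x =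
      pcEval M (flat S) fun l => x (sgm n1 n2 k hM l) := by
  have hL : ∀ L : List PCode, pcEval (n1 + k + 2 * n2) (pcProdL (L.map (swP n1 n2 k))) x =
      pcEval M (pcProdL L) fun l => x (sgm n1 n2 k hM l) := by
    intro L
    rw [pcEval_prodL, pcEval_prodL, List.map_map]
    refine congrArg List.prod (List.map_congr_left fun p _ => ?_)
    exact pcEval_swP n1 n2 k hM p x
  induction S with
  | nil =>
    have h1 : flat (swS n1 n2 k []) = [] := rfl
    have h2 : flat [] = [] := rfl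
    rw [h1, h2, pcEval_nil, pcEval_nil]
  | cons L S ih =>
    have h1 : swS n1 n2 k (L :: S) = L.map (swP n1 n2 k) :: swS n1 n2 k S := rfl
    have h2 : ∀ (A : List PCode) (B : SCode), flat (A :: B) = pcProdL A ++ flat B := fun A B => by
      unfold flat
      rw [List.flatMap_cons]
    rw [h1, h2, h2, pcEval_append, pcEval_append, ih, hL]

/-- The domain before the exchange. -/
def mixD (n1 n2 : ℕ) {M : ℕ} (hM : n1 + 2 * n2 ≤ M) : Set (Fin M → ℝ) :=
  {z | (fun i : Fin (n1 + 2 * n2) => z ⟨i, by omega⟩) ∈ boxDisc n1 n2 ∧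
    ∀ i : Fin M, n1 + 2 * n2 ≤ (i : ℕ) → |z i| < 1}

private theorem Swap_sgm1 (n1 n2 k : ℕ) {M : ℕ} (hM : M = n1 + 2 * n2 + k) {l : ℕ} (hl : l < n1)
    (h1 : l < M) (h2 : l < n1 + k + 2 * n2) : sgm n1 n2 k hM ⟨l, h1⟩ = ⟨l, h2⟩ := by
  apply Fin.ext
  rw [Swap_val]
  simp only [if_pos hl]

private theorem Swap_sgm2 (n1 n2 k : ℕ) {M : ℕ} (hM : M = n1 + 2 * n2 + k) {l : ℕ} (hl : n1 ≤ l)
    (hl' : l < n1 + 2 * n2) (h1 : l < M) {l' : ℕ} (h2 : l' < n1 + k + 2 * n2) (h : l' = l + k) :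
    sgm n1 n2 k hM ⟨l, h1⟩ = ⟨l', h2⟩ := by
  apply Fin.ext
  rw [Swap_val]
  simp only [if_neg (not_lt.2 hl), if_pos hl', h]

private theorem Swap_sgm3 (n1 n2 k : ℕ) {M : ℕ} (hM : M = n1 + 2 * n2 + k) {l : ℕ}
    (hl' : n1 + 2 * n2 ≤ l) (h1 : l < M) {l' : ℕ} (h2 : l' < n1 + k + 2 * n2)
    (h : l' + 2 * n2 = l) : sgm n1 n2 k hM ⟨l, h1⟩ = ⟨l', h2⟩ := by
  apply Fin.ext
  rw [Swap_val]
  simp only [if_neg (not_lt.2 (show n1 ≤ l by omega)), if_neg (not_lt.2 hl')]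
  omega

theorem mem_mixD (n1 n2 k : ℕ) {M : ℕ} (hM : M = n1 + 2 * n2 + k) (x : Fin (n1 + k + 2 * n2) → ℝ) :
    (fun l => x (sgm n1 n2 k hM l)) ∈ mixD n1 n2 (by omega : n1 + 2 * n2 ≤ M) ↔
      x ∈ boxDisc (n1 + k) n2 := by
  constructor
  · rintro ⟨⟨h1, h2⟩, h3⟩
    refine ⟨fun i => ?_, fun j => ?_⟩
    · have hi' := i.2
      by_cases hi : (i : ℕ) < n1
      · have h4 := h1 ⟨i, hi⟩
        have e : sgm n1 n2 k hM ⟨i, by omega⟩ = Fin.castAdd (2 * n2) i :=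
          Swap_sgm1 n1 n2 k hM hi _ _
        rw [← e]
        exact h4
      · have h4 := h3 ⟨i + 2 * n2, by omega⟩ (show n1 + 2 * n2 ≤ (i : ℕ) + 2 * n2 by omega)
        have e : sgm n1 n2 k hM ⟨i + 2 * n2, by omega⟩ = Fin.castAdd (2 * n2) i :=
          Swap_sgm3 n1 n2 k hM (by omega) _ _ rfl
        rw [← e]
        exact h4
    · have hj := j.2
      have h4 := h2 j
      have e1 : sgm n1 n2 k hM ⟨n1 + 2 * j, by omega⟩ = ⟨n1 + k + 2 * j, by omega⟩ :=
        Swap_sgm2 n1 n2 k hM (by omega) (by omega) _ _ (by omega)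
      have e2 : sgm n1 n2 k hM ⟨n1 + 2 * j + 1, by omega⟩ = ⟨n1 + k + 2 * j + 1, by omega⟩ :=
        Swap_sgm2 n1 n2 k hM (by omega) (by omega) _ _ (by omega)
      rw [← e1, ← e2]
      exact h4
  · rintro ⟨h1, h2⟩
    refine ⟨⟨fun i => ?_, fun j => ?_⟩, fun i hi => ?_⟩
    · have hi' := i.2
      have h4 := h1 ⟨i, by omega⟩
      have e : sgm n1 n2 k hM ⟨i, by omega⟩ = ⟨i, by omega⟩ :=
        Swap_sgm1 n1 n2 k hM hi' _ _
      change |x (sgm n1 n2 k hM ⟨i, _⟩)| < 1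
      rw [e]
      exact h4
    · have hj := j.2
      have h4 := h2 j
      have e1 : sgm n1 n2 k hM ⟨n1 + 2 * j, by omega⟩ = ⟨n1 + k + 2 * j, by omega⟩ :=
        Swap_sgm2 n1 n2 k hM (by omega) (by omega) _ _ (by omega)
      have e2 : sgm n1 n2 k hM ⟨n1 + 2 * j + 1, by omega⟩ = ⟨n1 + k + 2 * j + 1, by omega⟩ :=
        Swap_sgm2 n1 n2 k hM (by omega) (by omega) _ _ (by omega)
      change x (sgm n1 n2 k hM ⟨n1 + 2 * j, _⟩) ^ 2 + x (sgm n1 n2 k hM ⟨n1 + 2 * j + 1, _⟩) ^ 2 < 1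
      rw [e1, e2]
      exact h4
    · have hi' := i.2
      have h4 := h1 ⟨i - 2 * n2, by omega⟩
      have e : sgm n1 n2 k hM ⟨i, hi'⟩ = ⟨i - 2 * n2, by omega⟩ :=
        Swap_sgm3 n1 n2 k hM hi _ _ (by omega)
      change |x (sgm n1 n2 k hM ⟨i, hi'⟩)| < 1
      rw [e]
      exact h4

/-- The permutation of the coordinates preserves the volume: `MeasureTheory.volume_measurePreserving_piCongrLeft` for
`Equiv.ofBijective _ (sgm_bijective ..)` (or `volume_measurePreserving_arrowCongr'`), `MeasurePreserving.setIntegral_preimage_emb`. -/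
theorem swap_integral (n1 n2 k : ℕ) {M : ℕ} (hM : M = n1 + 2 * n2 + k) (φ : (Fin M → ℝ) → ℝ) :
    ∫ x in boxDisc (n1 + k) n2, φ (fun l => x (sgm n1 n2 k hM l)) =
      ∫ z in mixD n1 n2 (by omega : n1 + 2 * n2 ≤ M), φ z := by
  let e : Fin M ≃ Fin (n1 + k + 2 * n2) := Equiv.ofBijective _ (sgm_bijective n1 n2 k hM)
  let F : (Fin (n1 + k + 2 * n2) → ℝ) ≃ᵐ (Fin M → ℝ) :=
    (MeasurableEquiv.piCongrLeft (fun _ => ℝ) e).symm
  have hF : ∀ x, F x = fun l => x (sgm n1 n2 k hM l) := fun x => rfl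
  have hmp : MeasurePreserving F volume volume :=
    (volume_measurePreserving_piCongrLeft (fun _ => ℝ) e).symm
  have hset : boxDisc (n1 + k) n2 = F ⁻¹' mixD n1 n2 (by omega : n1 + 2 * n2 ≤ M) := by
    ext x
    rw [mem_preimage, hF, mem_mixD]
  rw [hset, ← hmp.setIntegral_preimage_emb F.measurableEmbedding φ]
  rfl

/-- The blocks of the initial integral. -/
theorem pS_mixD (n1 n2 r m : ℕ) :
    pS (pS (pS (boxDisc n1 n2) (cube r)) (cube 1)) (cube m) =
      mixD n1 n2 (by omega : n1 + 2 * n2 ≤ n1 + 2 * n2 + r + 1 + m) := by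
  ext z
  constructor
  · rintro ⟨⟨⟨h1, h2⟩, h3⟩, h4⟩
    refine ⟨h1, fun i hi => ?_⟩
    have hi' := i.2
    by_cases c1 : (i : ℕ) < n1 + 2 * n2 + r
    · have h5 := abs_lt.2 (h2 ⟨i - (n1 + 2 * n2), by omega⟩)
      have e : i = Fin.castAdd m (Fin.castAdd 1 (Fin.natAdd (n1 + 2 * n2)
          ⟨i - (n1 + 2 * n2), by omega⟩)) := by
        apply Fin.ext
        simp only [Fin.val_castAdd, Fin.val_natAdd]
        omega
      rw [e]
      exact h5
    · by_cases c2 : (i : ℕ) < n1 + 2 * n2 + r + 1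
      · have h5 := abs_lt.2 (h3 ⟨i - (n1 + 2 * n2 + r), by omega⟩)
        have e : i = Fin.castAdd m (Fin.natAdd (n1 + 2 * n2 + r)
            ⟨i - (n1 + 2 * n2 + r), by omega⟩) := by
          apply Fin.ext
          simp only [Fin.val_castAdd, Fin.val_natAdd]
          omega
        rw [e]
        exact h5
      · have h5 := abs_lt.2 (h4 ⟨i - (n1 + 2 * n2 + r + 1), by omega⟩)
        have e : i = Fin.natAdd (n1 + 2 * n2 + r + 1) ⟨i - (n1 + 2 * n2 + r + 1), by omega⟩ := by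
          apply Fin.ext
          simp only [Fin.val_natAdd]
          omega
        rw [e]
        exact h5
  · rintro ⟨h1, h2⟩
    refine ⟨⟨⟨h1, fun i => ?_⟩, fun i => ?_⟩, fun i => ?_⟩
    · exact abs_lt.1 (h2 (Fin.castAdd m (Fin.castAdd 1 (Fin.natAdd (n1 + 2 * n2) i)))
        (by simp only [Fin.val_castAdd, Fin.val_natAdd]; omega))
    · exact abs_lt.1 (h2 (Fin.castAdd m (Fin.natAdd (n1 + 2 * n2 + r) i))
        (by simp only [Fin.val_castAdd, Fin.val_natAdd]; omega))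
    · exact abs_lt.1 (h2 (Fin.natAdd (n1 + 2 * n2 + r + 1) i)
        (by simp only [Fin.val_natAdd]; omega))

private theorem Swap_rename (n1 n2 k : ℕ) (p : PCode) :
    pcPoly (n1 + k + 2 * n2) (swP n1 n2 k p) =
      MvPolynomial.rename (sgm n1 n2 k (M := n1 + 2 * n2 + k) rfl) (pcPoly (n1 + 2 * n2 + k) p) := by
  induction p with
  | nil => simp [swP]
  | cons t p ih =>
    have h0 : swP n1 n2 k (t :: p) = (t.1, swE n1 n2 k t.2) :: swP n1 n2 k p := rfl
    rw [h0, pcPoly_cons, pcPoly_cons, ih, map_add]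
    congr 1
    have hb := sgm_bijective n1 n2 k (M := n1 + 2 * n2 + k) rfl
    have h1 : expVec (n1 + k + 2 * n2) (swE n1 n2 k t.2) =
        Finsupp.mapDomain (sgm n1 n2 k (M := n1 + 2 * n2 + k) rfl)
          (expVec (n1 + 2 * n2 + k) t.2) := by
      ext i
      obtain ⟨l, rfl⟩ := hb.2 i
      rw [expVec_apply, Finsupp.mapDomain_apply hb.1, expVec_apply, Swap_getD]
    rw [termPoly, termPoly, MvPolynomial.rename_monomial]
    simp only [h1]

/-- `pcPoly (n1 + k + 2 n2) (swP n1 n2 k p)` is the renaming of `pcPoly (n1 + 2 n2 + k) p`; as `Deg_trunc_rename`, `deg_trunc` in CV/Deg.lean. -/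
theorem deg_swP {n1 n2 k d : ℕ} {p : PCode} (hp : (pcPoly (n1 + 2 * n2 + k) p).totalDegree ≤ d) :
    (pcPoly (n1 + k + 2 * n2) (swP n1 n2 k p)).totalDegree ≤ d := by
  rw [Swap_rename]
  exact (MvPolynomial.totalDegree_rename_le _ _).trans hp

theorem deg1_swS {n1 n2 k : ℕ} {S : SCode} (hS : Deg1 (n1 + 2 * n2 + k) S) :
    Deg1 (n1 + k + 2 * n2) (swS n1 n2 k S) := by
  intro L hL
  unfold swS at hL
  obtain ⟨K, hK, rfl⟩ := List.mem_map.1 hL
  intro p hp
  obtain ⟨q, hq, rfl⟩ := List.mem_map.1 hp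
  exact deg_swP (hS K hK q hq)

theorem mu_swS (n1 n2 k : ℕ) (S : SCode) : mu (swS n1 n2 k S) = mu S := by
  unfold mu swS
  rw [List.map_map]
  congr 1
  refine List.map_congr_left fun L _ => ?_
  simp

end Pool.Agent.Lib.MP_bbe012_lc.CD
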