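import Mathlib
import Pool.Agent.Lib.MP_bbe012_lc.CD.RunD
import Pool.Agent.Lib.MP_bbe012_lc.CD.Swap
import Pool.Agent.Lib.MP_bbe012_lc.CD.GadB
import Pool.Agent.Lib.MP_bbe012_lc.CV.EvalS
import Pool.Agent.Lib.MP_bbe012_lc.CV.Deg

/-!
# The degree of the final polynomial
-/

namespace Pool.Agent.Lib.MP_bbe012_lc.CD

open MvPolynomial HC CV

private theorem DegD_prodL {n : ℕ} (L : List PCode) :
    Tr n (pcProdL (L.map (pcTrunc n))) := by
  induction L with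
  | nil => exact Tr.nat n 1
  | cons p L ih =>
    have h : pcProdL ((p :: L).map (pcTrunc n)) =
        pcMul (pcTrunc n p) (pcProdL (L.map (pcTrunc n))) := rfl
    rw [h]
    exact Tr.mul (tr_trunc n p) ih

/-- Induction on the lists, `tr_trunc`, `Tr.mul`, `Tr.append`, `Tr.nil`, `Tr.nat` (CV/EvalS.lean). -/
theorem tr_flat_trS (n : ℕ) (S : SCode) : Tr n (flat (trS n S)) := by
  induction S with
  | nil => exact Tr.nil n
  | cons L S ih =>
    have h : flat (trS n (L :: S)) = pcProdL (L.map (pcTrunc n)) ++ flat (trS n S) := by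
      unfold flat trS
      rw [List.map_cons, List.flatMap_cons]
    rw [h]
    exact Tr.append (DegD_prodL L) ih

theorem deg_nsq (M i : ℕ) : (pcPoly M (nsq i)).totalDegree ≤ 2 := by
  unfold nsq
  refine deg_append ?_ ?_
  · exact deg_mul (deg_var M _) (deg_var M _)
  · exact deg_mul (deg_var M _) (deg_var M _)

private theorem DegD_natMul {M d : ℕ} (k : ℕ) {p : PCode} (hp : (pcPoly M p).totalDegree ≤ d) :
    (pcPoly M (pcMul (pcNat k) p)).totalDegree ≤ d := by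
  have h := deg_mul (m := M) (a := 0) (b := d) (Deg_nat M k).le hp
  rwa [Nat.zero_add] at h

private theorem DegD_neg {M d : ℕ} {p : PCode} (hp : (pcPoly M p).totalDegree ≤ d) :
    (pcPoly M (pcNeg p)).totalDegree ≤ d := by
  rw [deg_neg]
  exact hp

private theorem DegD_off (M i j : ℕ) : (pcPoly M (offC i j)).totalDegree ≤ 2 := by
  unfold offC
  have h1 : (pcPoly M (pcMul (pcNat 2) (pcVar i) ++ pcNeg (pcVar j))).totalDegree ≤ 1 :=
    deg_append (DegD_natMul 2 (deg_var M i)) (DegD_neg (deg_var M j))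
  have h2 : (pcPoly M (pcMul (pcNat 2) (pcVar (i + 1)))).totalDegree ≤ 1 :=
    DegD_natMul 2 (deg_var M _)
  exact deg_append (deg_mul h1 h1) (deg_mul h2 h2)

theorem deg_psiC (M N : ℕ) : (pcPoly M (psiC N)).totalDegree ≤ 2 := by
  unfold psiC
  refine deg_append (DegD_off M _ _) (deg_append (DegD_natMul 17 (deg_append ?_ ?_)) (deg_nsq M _))
  · rw [Deg_nat]
    exact Nat.zero_le _
  · exact DegD_neg (deg_nsq M _)

/-- `CC0.deg` for `mC`. -/
theorem deg_gadC {M n m : ℕ} {h q : PCode} (hh : (pcPoly M h).totalDegree ≤ 3) (hq : CC0 q) :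
    (pcPoly M (gadC n m h q)).totalDegree ≤ 3 := by
  unfold gadC
  refine deg_append hh (deg_append (DegD_neg (DegD_natMul _ ?_)) ?_)
  · exact (deg_psiC M _).trans (by norm_num)
  · have h1 : (pcPoly M (mC n m h q)).totalDegree = 0 := (CC0_mC hq).deg M
    have h2 := deg_mul (m := M) (a := 0) (b := 2) h1.le (deg_nsq M (n + 2 * m + 6))
    exact h2.trans (by norm_num)

/-- `deg1_s0C` (CV/Deg.lean), `deg1_swS`, `deg1_runD`, `Deg_trS`, `deg_flat`, `mu_swS`, `mu_runD`, `deg_gadC`. -/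
theorem deg_coinD {n1 n2 : ℕ} {P Q : PCode} {c : CC} (hc : dCheck (n1 + 2 * n2) P Q c)
    (hq : CC0 (stFD n1 n2 P Q c).2) :
    (pcPoly ((coinD n1 n2 P Q c).1.1 + 2 * (coinD n1 n2 P Q c).1.2) (coinD n1 n2 P Q c).2).totalDegree ≤
      3 := by
  change (pcPoly (nI n1 c + 2 * ((stFD n1 n2 P Q c).1.1 + 4))
    (gadC (nI n1 c) (stFD n1 n2 P Q c).1.1 (hFD n1 n2 P Q c) (stFD n1 n2 P Q c).2)).totalDegree ≤ 3
  refine deg_gadC ?_ hq
  have h0 : Deg1 (nI n1 c + 2 * (st0D n1 n2 P Q c).1.1) (st0D n1 n2 P Q c).1.2 :=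
    deg1_swS (deg1_s0C _ _ _ _ _ _ _)
  have h1 : Deg1 (nI n1 c + 2 * (stFD n1 n2 P Q c).1.1) (stFD n1 n2 P Q c).1.2 :=
    deg1_runD h0 _
  have h2 : mu (stFD n1 n2 P Q c).1.2 = 0 := by
    have h3 : mu (stFD n1 n2 P Q c).1.2 ≤ mu (st0D n1 n2 P Q c).1.2 - (c.1.1.2 - 2) :=
      mu_runD _ _ _ _
    have h4 : mu (st0D n1 n2 P Q c).1.2 =
        mu (s0C (n1 + 2 * n2) c.1.1.1 (2 * c.1.1.2) P Q c.2.1.2) := mu_swS _ _ _ _
    have h5 := hc.2
    omega
  have h6 : Deg1 (nI n1 c + 2 * ((stFD n1 n2 P Q c).1.1 + 4))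
      (trS (nI n1 c + 2 * (stFD n1 n2 P Q c).1.1) (stFD n1 n2 P Q c).1.2) :=
    Deg_trS (by omega) h1
  refine deg_flat h6 ?_
  rw [Deg_mu_trS]
  exact h2

end Pool.Agent.Lib.MP_bbe012_lc.CD
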