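import Mathlib
import Pool.Agent.Lib.MP_bbe012_lc.CD.Dom

/-!
# The forward direction
-/

namespace Pool.Agent.Lib.MP_bbe012_lc.CD

open MeasureTheory Set HC CV

private theorem FwdD_u {N i : ℕ} (hi : i < N) (x : Fin N → ℝ) :
    pcEval N (pcNat 1 ++ pcNeg (pcMul (pcVar i) (pcVar i))) x = 1 - x ⟨i, hi⟩ ^ 2 := by
  rw [pcEval_append, pcEval_nat, pcEval_neg, pcEval_mul, pcEval_var hi]
  push_cast
  ring

private theorem FwdD_v {N i : ℕ} (hi : i + 1 < N) (x : Fin N → ℝ) :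
    pcEval N (pcNat 1 ++ pcNeg (nsq i)) x =
      1 - (x ⟨i, by omega⟩ ^ 2 + x ⟨i + 1, hi⟩ ^ 2) := by
  have h0 : i < N := by omega
  rw [nsq, pcEval_append, pcEval_nat, pcEval_neg, pcEval_append, pcEval_mul, pcEval_mul, pcEval_var h0,
    pcEval_var hi]
  push_cast
  ring

private theorem FwdD_abs (s : ℝ) : 0 < 1 - s ^ 2 ↔ |s| < 1 := by
  rw [sub_pos, sq_lt_one_iff_abs_lt_one]

/-- `pcEval_append`, `pcEval_neg`, `pcEval_mul`, `pcEval_var`, `pcEval_nat` (Eval.lean). -/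
theorem mem_sysBD (n m : ℕ) (x : Fin (n + 2 * m) → ℝ) :
    x ∈ sysSet (n + 2 * m) (sysBD n m) ↔ x ∈ boxDisc n m := by
  have h1 : x ∈ sysSet (n + 2 * m) (sysBD n m) ↔
      (∀ i < n, 0 < pcEval (n + 2 * m) (pcNat 1 ++ pcNeg (pcMul (pcVar i) (pcVar i))) x) ∧
      (∀ j < m, 0 < pcEval (n + 2 * m) (pcNat 1 ++ pcNeg (nsq (n + 2 * j))) x) := by
    unfold sysSet sysBD
    rw [mem_setOf_eq, List.forall_mem_append, List.forall_mem_map, List.forall_mem_map]
    simp only [List.mem_range, forall_const, reduceCtorEq, false_implies, and_true]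
  rw [h1]
  unfold boxDisc
  rw [mem_setOf_eq]
  refine and_congr ⟨fun h i => ?_, fun h i hi => ?_⟩ ⟨fun h j => ?_, fun h j hj => ?_⟩
  · have h2 := h i.1 i.2
    rw [FwdD_u (by omega : i.1 < n + 2 * m), FwdD_abs] at h2
    exact h2
  · rw [FwdD_u (by omega : i < n + 2 * m), FwdD_abs]
    exact h ⟨i, hi⟩
  · have h2 := h j.1 j.2
    have hj := j.2
    rw [FwdD_v (by omega : n + 2 * j.1 + 1 < n + 2 * m), sub_pos] at h2
    exact h2
  · rw [FwdD_v (by omega : n + 2 * j + 1 < n + 2 * m), sub_pos]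
    exact h ⟨j, hj⟩

private theorem FwdD_one_ne (n : ℕ) : pcPoly n (pcNat 1) ≠ 0 := by
  refine pcPoly_ne_zero_of_eval (n := n) (p := pcNat 1) (x := 0) ?_
  rw [pcEval_nat]; norm_num

private theorem FwdD_period (X : IntCode) : period (X, constInt (qnat 0)) = (value X : ℂ) := by
  have h0 : value (constInt (qnat 0)) = 0 := by
    rw [(constInt_spec (qnat 0)).2, qval_qnat]
    norm_num
  unfold period
  rw [h0]
  rfl

private theorem FwdD_mem (F : (ℕ × ℕ) × PCode) (x : Fin (F.1.1 + 2 * F.1.2) → ℝ) :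
    x ∈ sysSet (F.1.1 + 2 * F.1.2) ((true, F.2) :: sysBD F.1.1 F.1.2) ↔ x ∈ posBD F := by
  have h1 := mem_sysBD F.1.1 F.1.2 x
  unfold posBD
  unfold sysSet at *
  simp only [mem_setOf_eq] at h1 ⊢
  rw [List.forall_mem_cons, ← h1]
  simp only [forall_const, reduceCtorEq, false_implies, and_true]
  exact and_comm

private theorem FwdD_domain (F : (ℕ × ℕ) × PCode) : domain (volD F) = posBD F :=
  Set.ext fun x => FwdD_mem F x

private theorem FwdD_lt (n m : ℕ) : volume (boxDisc n m) < ⊤ := by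
  rw [volume_boxDisc]
  exact ENNReal.ofReal_lt_top

private theorem FwdD_vol_lt (F : (ℕ × ℕ) × PCode) : volume (posBD F) < ⊤ :=
  lt_of_le_of_lt (measure_mono fun _ hx => hx.1) (FwdD_lt F.1.1 F.1.2)

/-- As `volCode_spec` in HC/Dir.lean. -/
theorem volD_spec (F : (ℕ × ℕ) × PCode) :
    Admissible (volD F) ∧ value (volD F) = 2 * (volume (posBD F)).toReal := by
  have h1 : integrand (volD F) = fun _ => (2 : ℝ) := by
    funext x
    show pcEval (F.1.1 + 2 * F.1.2) (pcNat 2) x / pcEval (F.1.1 + 2 * F.1.2) (pcNat 1) x = 2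
    rw [pcEval_nat, pcEval_nat]
    norm_num
  refine ⟨⟨FwdD_one_ne (F.1.1 + 2 * F.1.2), ?_⟩, ?_⟩
  · rw [FwdD_domain, h1]
    exact integrableOn_const (FwdD_vol_lt F).ne
  · unfold value
    rw [FwdD_domain, h1]
    have h2 : ∫ _x in posBD F, (2 : ℝ) = volume.real (posBD F) • (2 : ℝ) :=
      setIntegral_const (2 : ℝ)
    refine h2.trans ?_
    rw [smul_eq_mul, mul_comm]
    rfl

theorem boxD_spec (F : (ℕ × ℕ) × PCode) :
    Admissible (boxD F) ∧ value (boxD F) = (volume (boxDisc F.1.1 F.1.2)).toReal := by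
  have hdom : domain (boxD F) = boxDisc F.1.1 F.1.2 :=
    Set.ext fun x => mem_sysBD F.1.1 F.1.2 x
  have h1 : integrand (boxD F) = fun _ => (1 : ℝ) := by
    funext x
    show pcEval (F.1.1 + 2 * F.1.2) (pcNat 1) x / pcEval (F.1.1 + 2 * F.1.2) (pcNat 1) x = 1
    rw [pcEval_nat]
    norm_num
  refine ⟨⟨FwdD_one_ne (F.1.1 + 2 * F.1.2), ?_⟩, ?_⟩
  · rw [hdom, h1]
    exact integrableOn_const (FwdD_lt F.1.1 F.1.2).ne
  · unfold value
    rw [hdom, h1]
    have h2 : ∫ _x in boxDisc F.1.1 F.1.2, (1 : ℝ) = volume.real (boxDisc F.1.1 F.1.2) • (1 : ℝ) :=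
      setIntegral_const (1 : ℝ)
    refine h2.trans ?_
    rw [smul_eq_mul, mul_one]
    rfl

/-- As `coinPair_spec` in HC/Dir.lean. -/
theorem pairD_spec (F : (ℕ × ℕ) × PCode) :
    (PeriodAdmissible (pairD F).1 ∧ PeriodAdmissible (pairD F).2) ∧
      (period (pairD F).1 = period (pairD F).2 ↔
        2 * volume (posBD F) = volume (boxDisc F.1.1 F.1.2)) := by
  refine ⟨⟨⟨(volD_spec F).1, (constInt_spec (qnat 0)).1⟩,
    ⟨(boxD_spec F).1, (constInt_spec (qnat 0)).1⟩⟩, ?_⟩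
  show period (volD F, constInt (qnat 0)) = period (boxD F, constInt (qnat 0)) ↔ _
  rw [FwdD_period, FwdD_period, Complex.ofReal_inj, (volD_spec F).2, (boxD_spec F).2]
  have hfin := (FwdD_vol_lt F).ne
  have h2 : (2 * volume (posBD F)).toReal = 2 * (volume (posBD F)).toReal := by
    rw [ENNReal.toReal_mul]
    norm_num
  rw [← h2]
  exact ENNReal.toReal_eq_toReal_iff' (ENNReal.mul_ne_top (by norm_num) hfin)
    (FwdD_lt F.1.1 F.1.2).ne

private theorem FwdD_sys : Primrec fun F : (ℕ × ℕ) × PCode => sysBD F.1.1 F.1.2 := by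
  have hu : Primrec fun z : ((ℕ × ℕ) × PCode) × ℕ =>
      ((true, pcNat 1 ++ pcNeg (pcMul (pcVar z.2) (pcVar z.2))) : Bool × PCode) :=
    Primrec.pair (Primrec.const true)
      (pr_append (pr_nat 1) (pr_neg (pr_mul (pr_var Primrec.snd) (pr_var Primrec.snd))))
  have h1 : Primrec fun F : (ℕ × ℕ) × PCode => (List.range F.1.1).map fun i =>
      ((true, pcNat 1 ++ pcNeg (pcMul (pcVar i) (pcVar i))) : Bool × PCode) :=
    Primrec.list_map (Primrec.list_range.comp (Primrec.fst.comp Primrec.fst)) hu.to₂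
  have hi : Primrec fun z : ((ℕ × ℕ) × PCode) × ℕ => z.1.1.1 + 2 * z.2 :=
    Primrec.nat_add.comp (Primrec.fst.comp (Primrec.fst.comp Primrec.fst))
      (Primrec.nat_mul.comp (Primrec.const 2) Primrec.snd)
  have hi1 : Primrec fun z : ((ℕ × ℕ) × PCode) × ℕ => z.1.1.1 + 2 * z.2 + 1 :=
    Primrec.succ.comp hi
  have hv : Primrec fun z : ((ℕ × ℕ) × PCode) × ℕ =>
      ((true, pcNat 1 ++ pcNeg (nsq (z.1.1.1 + 2 * z.2))) : Bool × PCode) :=
    Primrec.pair (Primrec.const true)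
      (pr_append (pr_nat 1) (pr_neg (pr_append (pr_mul (pr_var hi) (pr_var hi))
        (pr_mul (pr_var hi1) (pr_var hi1)))))
  have h2 : Primrec fun F : (ℕ × ℕ) × PCode => (List.range F.1.2).map fun j =>
      ((true, pcNat 1 ++ pcNeg (nsq (F.1.1 + 2 * j))) : Bool × PCode) :=
    Primrec.list_map (Primrec.list_range.comp (Primrec.snd.comp Primrec.fst)) hv.to₂
  exact Primrec.list_append.comp h1 h2

/-- As `primrec_coinPair` in HC/Dir.lean. -/
theorem primrec_pairD : Primrec pairD := by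
  have hN : Primrec fun F : (ℕ × ℕ) × PCode => F.1.1 + 2 * F.1.2 :=
    Primrec.nat_add.comp (Primrec.fst.comp Primrec.fst)
      (Primrec.nat_mul.comp (Primrec.const 2) (Primrec.snd.comp Primrec.fst))
  have h1 : Primrec volD :=
    Primrec.pair hN (Primrec.pair (Primrec.const (pcNat 2, pcNat 1))
      (Primrec.list_cons.comp (Primrec.pair (Primrec.const true) Primrec.snd) FwdD_sys))
  have h2 : Primrec boxD :=
    Primrec.pair hN (Primrec.pair (Primrec.const (pcNat 1, pcNat 1)) FwdD_sys)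
  exact Primrec.pair (Primrec.pair h1 (Primrec.const (constInt (qnat 0))))
    (Primrec.pair h2 (Primrec.const (constInt (qnat 0))))

end Pool.Agent.Lib.MP_bbe012_lc.CD
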