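import Mathlib
import Pool.Agent.Lib.MP_bbe012_lc.CD.Prod
import Pool.Agent.Lib.MP_bbe012_lc.HC.Sum

/-!
# The integral of the quotient attached to a certificate, for a general region

Copy of HC/Sum.lean with a region `U ⊆ cube n` instead of the cube.
-/

namespace Pool.Agent.Lib.MP_bbe012_lc.CD

open MeasureTheory Set Filter Topology HC CV

/-- As `value_log` in HC/Sum.lean (its proof works for every region). -/
theorem value_logU {n : ℕ} {P Q : PCode} {r N K : ℕ} {A w : PCode} {gs : List PCode}
    (hc : hcCheck n P Q (((r, N), K), (A, w), gs)) {U : Set (Fin n → ℝ)} (H : Region (pcPoly n Q) U)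
    (hint : IntegrableOn (fun x => pcEval n P x / pcEval n Q x) U) :
    ∫ x in U, pcEval n P x / pcEval n Q x =
      ∫ x in U, ∑ j ∈ Finset.range (r + 1), pcEval n (coefT n (r - j) w) x *
        pcEval n Q x ^ N * Real.log (pcEval n Q x) ^ j / (j.factorial : ℝ) := by
  obtain ⟨hN, hid⟩ := (hcCheck_iff n P Q r N K A w gs).1 hc
  have hN1 : 1 ≤ N := by omega
  have hlim := lim_zero H hN1 hid hint
  have hR : r < pcDeg w + r + 1 := by omega
  have hW : ∀ m, Continuous (fun x : Fin n → ℝ => pcEval n (coefT n m w) x) := fun m =>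
    continuous_evR _
  have ht := taylor H hN1 hR (fun k x => pcEval n (coefT n k w) x) hW
    (∫ x in U, pcEval n P x / pcEval n Q x) (by
      refine Tendsto.congr (fun t => ?_) hlim
      congr 1
      refine integral_congr_ae (Eventually.of_forall fun x => ?_)
      simp only
      congr 1
      exact pcEval_coefT n w (by omega) x t)
  exact ht

theorem SumU_EE_pos (n r : ℕ) (Q : PCode) {z : Fin (n + r) → ℝ}
    (hQ : 0 < pcEval n Q fun l => z (Fin.castAdd r l)) (hz : z ∈ cube (n + r)) (i : Fin r) :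
    0 < EE (pcEval n Q fun l => z (Fin.castAdd r l)) (z (Fin.natAdd n i)) :=
  EE_pos hQ (hz (Fin.natAdd n i))

/-- As `ratio_eq` in HC/Eval.lean, at one point. -/
theorem ratio_eqU (n r N : ℕ) (Q w : PCode) {z : Fin (n + r) → ℝ}
    (hQ : 0 < pcEval n Q fun l => z (Fin.castAdd r l)) (hz : z ∈ cube (n + r)) :
    pcEval (n + r) (aCode n r N Q w) z / pcEval (n + r) (dCode n r Q) z =
      ∑ j ∈ Finset.range (r + 1), pcEval (n + r) (wTerm n r w j) z *
        ((pcEval n Q fun l => z (Fin.castAdd r l)) ^ N *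
          (((pcEval n Q fun l => z (Fin.castAdd r l)) - 1) ^ j /
          ∏ i : Fin r, if (i : ℕ) < j then
            EE (pcEval n Q fun l => z (Fin.castAdd r l)) (z (Fin.natAdd n i)) else 1)) := by
  have hE := SumU_EE_pos n r Q hQ hz
  rw [pcEval_aCode, pcEval_dCode, Finset.sum_div]
  refine Finset.sum_congr rfl fun j _ => ?_
  have hs : (∏ i : Fin r, EE (pcEval n Q fun l => z (Fin.castAdd r l)) (z (Fin.natAdd n i))) =
      (∏ i : Fin r, if (i : ℕ) < j then 1 else
        EE (pcEval n Q fun l => z (Fin.castAdd r l)) (z (Fin.natAdd n i))) *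
      ∏ i : Fin r, if (i : ℕ) < j then
        EE (pcEval n Q fun l => z (Fin.castAdd r l)) (z (Fin.natAdd n i)) else 1 := by
    rw [← Finset.prod_mul_distrib]
    refine Finset.prod_congr rfl fun i _ => ?_
    split_ifs <;> ring
  have h1 : (∏ i : Fin r, if (i : ℕ) < j then 1 else
      EE (pcEval n Q fun l => z (Fin.castAdd r l)) (z (Fin.natAdd n i))) ≠ 0 := by
    refine Finset.prod_ne_zero_iff.mpr fun i _ => ?_
    split_ifs
    · exact one_ne_zero
    · exact (hE i).ne'
  have h2 : (∏ i : Fin r, if (i : ℕ) < j then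
      EE (pcEval n Q fun l => z (Fin.castAdd r l)) (z (Fin.natAdd n i)) else 1) ≠ 0 := by
    refine Finset.prod_ne_zero_iff.mpr fun i _ => ?_
    split_ifs
    · exact (hE i).ne'
    · exact one_ne_zero
  rw [hs]
  field_simp

/-- As `dCode_pos` in HC/Eval.lean, at one point. -/
theorem dCode_posU (n r : ℕ) (Q : PCode) {z : Fin (n + r) → ℝ}
    (hQ : 0 < pcEval n Q fun l => z (Fin.castAdd r l)) (hz : z ∈ cube (n + r)) :
    0 < pcEval (n + r) (dCode n r Q) z := by
  rw [pcEval_dCode]
  exact Finset.prod_pos fun i _ => SumU_EE_pos n r Q hQ hz i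

/-- As `inner_integral` in HC/Sum.lean. -/
theorem inner_integralU {n r N : ℕ} {Q w : PCode} {x : Fin n → ℝ} (hx : x ∈ cube n)
    (hQ : 0 < pcEval n Q x) :
    ∫ s in cube r, pcEval (n + r) (aCode n r N Q w) (Fin.append x s) /
        pcEval (n + r) (dCode n r Q) (Fin.append x s) =
      ∑ j ∈ Finset.range (r + 1), pcEval n (coefT n (r - j) w) x *
        pcEval n Q x ^ N * Real.log (pcEval n Q x) ^ j / (j.factorial : ℝ) := by
  have hleft : ∀ s : Fin r → ℝ, (fun l => (Fin.append x s : Fin (n + r) → ℝ) (Fin.castAdd r l)) = x :=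
    fun s => funext fun l => Fin.append_left _ _ _
  have e1 : ∫ s in cube r, pcEval (n + r) (aCode n r N Q w) (Fin.append x s) /
        pcEval (n + r) (dCode n r Q) (Fin.append x s)
      = ∫ s in cube r, ∑ j ∈ Finset.range (r + 1), (1 / ((j.factorial : ℝ) * 2 ^ (r - j)) *
          pcEval n (coefT n (r - j) w) x * pcEval n Q x ^ N) *
          ((pcEval n Q x - 1) ^ j / ∏ i : Fin r, (if (i : ℕ) < j then EE (pcEval n Q x) (s i) else 1)) := by
    refine setIntegral_congr_fun (Sum_cube_meas r) fun s hs => ?_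
    have hQs : 0 < pcEval n Q fun l => (Fin.append x s : Fin (n + r) → ℝ) (Fin.castAdd r l) := by
      rw [hleft s]
      exact hQ
    rw [ratio_eqU n r N Q w hQs (Sum_append_mem hx hs)]
    refine Finset.sum_congr rfl fun j _ => ?_
    rw [pcEval_wTerm, hleft s]
    simp only [Fin.append_right]
    ring
  rw [e1, integral_finsetSum _ fun j _ => ((Sum_integrable hQ r j).const_mul _)]
  refine Finset.sum_congr rfl fun j hj => ?_
  rw [integral_const_mul, integral_log_pow hQ (by rw [Finset.mem_range] at hj; omega)]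
  have h1 : (j.factorial : ℝ) ≠ 0 := by positivity
  have h2 : (2 : ℝ) ^ (r - j) ≠ 0 := by positivity
  field_simp

/-- `integral_pS`, `inner_integralU`, `value_logU`. -/
theorem integral_ratioU {n : ℕ} {P Q : PCode} {r N K : ℕ} {A w : PCode} {gs : List PCode}
    (hc : hcCheck n P Q (((r, N), K), (A, w), gs)) {U : Set (Fin n → ℝ)} (hU : U ⊆ cube n)
    (H : Region (pcPoly n Q) U) (hint : IntegrableOn (fun x => pcEval n P x / pcEval n Q x) U)
    (hG : IntegrableOn (fun z => pcEval (n + r) (aCode n r N Q w) z /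
      pcEval (n + r) (dCode n r Q) z) (pS U (cube r))) :
    ∫ z in pS U (cube r), pcEval (n + r) (aCode n r N Q w) z / pcEval (n + r) (dCode n r Q) z =
      ∫ x in U, pcEval n P x / pcEval n Q x := by
  rw [integral_pS H.measurableSet (Sum_cube_meas r) hG, value_logU hc H hint]
  exact setIntegral_congr_fun H.measurableSet fun x hx => inner_integralU (hU hx) (H.pos x hx)

end Pool.Agent.Lib.MP_bbe012_lc.CD
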