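import Mathlib
import Pool.Agent.Lib.MP_bbe012_lc.CV.TopB
import Pool.Agent.Lib.MP_bbe012_lc.CD.Defs

/-!
# The bounds for the initial polynomial at one point

Copy of CV/TopB.lean with the hypothesis `0 < Q` only at the point `z`.
-/

namespace Pool.Agent.Lib.MP_bbe012_lc.CD

open MeasureTheory Set HC CV

variable {n r : ℕ} {P Q : PCode} {rows : List (List QCode)} {z : Fin (n + r) → ℝ}

theorem q_posU (hQ : 0 < pcEval n Q fun l => z (Fin.castAdd r l)) :
    0 < pcEval (n + r) (pcTrunc n Q) z := by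
  rw [Eval_trunc]
  exact hQ

theorem TopBU_D_nonneg (hQ : 0 < pcEval n Q fun l => z (Fin.castAdd r l))
    (hz : z ∈ cube (n + r)) : 0 ≤ pcEval (n + r) (dCode n r Q) z := by
  rw [pcEval_dCode]
  exact Finset.prod_nonneg fun i _ => (EE_pos hQ (hz (Fin.natAdd n i))).le

theorem q_pow_leU (hQ : 0 < pcEval n Q fun l => z (Fin.castAdd r l)) (hz : z ∈ cube (n + r)) :
    pcEval (n + r) (pcTrunc n Q) z ^ r ≤ (bQ n Q : ℝ) ^ r * pcEval (n + r) (dCode n r Q) z := by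
  have h0 := q_posU hQ
  have h1 := q_le (Q := Q) hz
  rw [pcEval_dCode]
  have e : pcEval (n + r) (pcTrunc n Q) z = pcEval n Q fun l => z (Fin.castAdd r l) :=
    Eval_trunc n r Q z
  rw [e] at h0 h1 ⊢
  have h2 : (pcEval n Q fun l => z (Fin.castAdd r l)) ^ r =
      ∏ _i : Fin r, pcEval n Q fun l => z (Fin.castAdd r l) := by
    rw [Finset.prod_const, Finset.card_univ, Fintype.card_fin]
  have h3 : (bQ n Q : ℝ) ^ r = ∏ _i : Fin r, (bQ n Q : ℝ) := by
    rw [Finset.prod_const, Finset.card_univ, Fintype.card_fin]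
  rw [h2, h3, ← Finset.prod_mul_distrib]
  refine Finset.prod_le_prod (fun i _ => h0.le) fun i _ => ?_
  exact le_mul_EE h0 TopB_one_le h1 (hz (Fin.natAdd n i))

theorem a2C_boundsU (hQ : 0 < pcEval n Q fun l => z (Fin.castAdd r l)) (hz : z ∈ cube (n + r)) :
    pcEval (n + r) (dCode n r Q) z ≤ pcEval (n + r) (a2C n r P Q rows) z ∧
      pcEval (n + r) (a2C n r P Q rows) z ≤
        2 * kC n r P Q rows * pcEval (n + r) (dCode n r Q) z := by
  have hD := TopBU_D_nonneg (r := r) hQ hz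
  have hq := q_posU (r := r) hQ
  have h1 := q_pow_leU (r := r) hQ hz
  have h2 := abs_pcEval_le (a1C n r P Q rows) hz
  rw [eval_a2C]
  set D := pcEval (n + r) (dCode n r Q) z with hDd
  set q := pcEval (n + r) (pcTrunc n Q) z with hqd
  set A1 := pcEval (n + r) (a1C n r P Q rows) z with hA1
  have hK : ((kC n r P Q rows : ℕ) : ℝ) = 1 + (bQ n Q : ℝ) ^ r * (pcK (a1C n r P Q rows) : ℝ) := by
    unfold kC
    push_cast
    ring
  have hqr : 0 ≤ q ^ r := pow_nonneg hq.le r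
  have hk0 : (0 : ℝ) ≤ (pcK (a1C n r P Q rows) : ℝ) := Nat.cast_nonneg _
  have h3 : |q ^ r * A1| ≤ (bQ n Q : ℝ) ^ r * D * (pcK (a1C n r P Q rows) : ℝ) := by
    rw [abs_mul, abs_of_nonneg hqr]
    exact mul_le_mul h1 h2 (abs_nonneg _) (hqr.trans h1)
  have h4 := abs_le.1 h3
  have hb : (0 : ℝ) ≤ (bQ n Q : ℝ) ^ r := by positivity
  have h5 : 0 ≤ (bQ n Q : ℝ) ^ r * (pcK (a1C n r P Q rows) : ℝ) * D :=
    mul_nonneg (mul_nonneg hb hk0) hD
  rw [hK]
  constructor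
  · nlinarith [h4.1]
  · nlinarith [h4.2]

theorem a_le_oneU (hQ : 0 < pcEval n Q fun l => z (Fin.castAdd r l)) (hz : z ∈ cube (n + r)) :
    pcEval (n + r) (pcTrunc n Q) z ^ (r + 1) * pcEval (n + r) (a2C n r P Q rows) z ≤
      2 * pcEval (n + r) (dCode n r Q) z * t0C n r P Q rows := by
  have hq := q_posU (r := r) hQ
  have h1 := q_le (Q := Q) hz
  have h2 := a2C_boundsU (P := P) (rows := rows) hQ hz
  have hD := TopBU_D_nonneg (r := r) hQ hz
  have h3 : pcEval (n + r) (pcTrunc n Q) z ^ (r + 1) ≤ (bQ n Q : ℝ) ^ (r + 1) :=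
    pow_le_pow_left₀ hq.le h1 _
  have h4 := mul_le_mul h3 h2.2 (hD.trans h2.1) (by positivity : (0 : ℝ) ≤ (bQ n Q : ℝ) ^ (r + 1))
  have h5 : ((t0C n r P Q rows : ℕ) : ℝ) = (bQ n Q : ℝ) ^ (r + 1) * (kC n r P Q rows : ℝ) := by
    unfold t0C
    push_cast
    ring
  rw [h5]
  linarith

theorem a_le_twoU (hQ : 0 < pcEval n Q fun l => z (Fin.castAdd r l)) (hz : z ∈ cube (n + r)) :
    pcEval (n + r) (pcTrunc n Q) z ^ (r + 1) * pcEval (n + r) (a2C n r P Q rows) z ≤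
      2 * (pcEval (n + r) (a2C n r P Q rows) z ^ 2) * t0C n r P Q rows := by
  have hq := q_posU (r := r) hQ
  have h1 := q_le (Q := Q) hz
  have h2 := a2C_boundsU (P := P) (rows := rows) hQ hz
  have hD := TopBU_D_nonneg (r := r) hQ hz
  have h0 := q_pow_leU (r := r) hQ hz
  set q := pcEval (n + r) (pcTrunc n Q) z with hqd
  set D := pcEval (n + r) (dCode n r Q) z with hDd
  set A := pcEval (n + r) (a2C n r P Q rows) z with hAd
  have hA : 0 ≤ A := hD.trans h2.1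
  have hb1 : (1 : ℝ) ≤ (bQ n Q : ℝ) := TopB_one_le
  have hb : (0 : ℝ) ≤ (bQ n Q : ℝ) := zero_le_one.trans hb1
  have hk1 : (1 : ℝ) ≤ (kC n r P Q rows : ℝ) := by
    have : 1 ≤ kC n r P Q rows := by
      unfold kC
      omega
    exact_mod_cast this
  have h3 : q ^ (r + 1) ≤ (bQ n Q : ℝ) ^ (r + 1) * A := by
    rw [pow_succ, pow_succ]
    have h4 := mul_le_mul h0 h1 hq.le (by positivity : (0 : ℝ) ≤ (bQ n Q : ℝ) ^ r * D)
    have h5 := mul_le_mul_of_nonneg_left h2.1 (by positivity : (0 : ℝ) ≤ (bQ n Q : ℝ) ^ r * (bQ n Q : ℝ))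
    linarith
  have h5 : ((t0C n r P Q rows : ℕ) : ℝ) = (bQ n Q : ℝ) ^ (r + 1) * (kC n r P Q rows : ℝ) := by
    unfold t0C
    push_cast
    ring
  rw [h5]
  have h6 := mul_le_mul_of_nonneg_right h3 hA
  have h7 : (0 : ℝ) ≤ (bQ n Q : ℝ) ^ (r + 1) * A * A := by positivity
  have h8 := mul_le_mul_of_nonneg_left hk1 h7
  have h9 : 0 ≤ (bQ n Q : ℝ) ^ (r + 1) * A * A * (kC n r P Q rows : ℝ) := by positivity
  nlinarith

end Pool.Agent.Lib.MP_bbe012_lc.CD
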