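import Mathlib
import Pool.Agent.Lib.MP_bbe012_lc.CD.TopBU
import Pool.Agent.Lib.MP_bbe012_lc.CD.SumU
import Pool.Agent.Lib.MP_bbe012_lc.CD.Cst

/-!
# The initial integral for a general region

Copy of CV/Top.lean with `U × (-1, 1)^r` instead of the cube.
-/

namespace Pool.Agent.Lib.MP_bbe012_lc.CD

open MeasureTheory Set HC CV

variable {n : ℕ} {U : Set (Fin n → ℝ)}

theorem TopU_sub (r : ℕ) (hU : U ⊆ cube n) : pS U (cube r) ⊆ cube (n + r) := by
  rw [cube_pS]
  exact pS_mono hU subset_rfl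

theorem TopU_meas (r : ℕ) (hm : MeasurableSet U) : MeasurableSet (pS U (cube r)) :=
  measurableSet_pS hm (Sum_cube_meas r)

/-- As `II_s0C` in CV/Top.lean. -/
theorem II_s0U (r m : ℕ) (P Q : PCode) (rows : List (List QCode)) (hU : U ⊆ cube n)
    (hm : MeasurableSet U) (hQ : ∀ y ∈ U, 0 < pcEval n Q y) :
    ∫ w in pS (pS (pS U (cube r)) (cube 1)) (cube m),
        pp m (pcEval (n + r + 1 + m) (flat (s0C n r m P Q rows)) w) =
      1 / ((t0C n r P Q rows : ℝ) ^ (m + 1) * ∏ i ∈ Finset.range (m + 1), ((m : ℝ) + i + 1)) *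
        ∫ z in pS U (cube r), pcEval (n + r) (pcTrunc n Q) z ^ ((r + 1) * (2 * m + 1)) *
          pcEval (n + r) (a2C n r P Q rows) z / pcEval (n + r) (dCode n r Q) z := by
  obtain ⟨T, hT⟩ : ∃ T : ℝ, T = (t0C n r P Q rows : ℝ) := ⟨_, rfl⟩
  have hT1 : (1 : ℝ) ≤ T := by
    rw [hT]
    exact_mod_cast one_le_t0C
  have hT0 : 0 < T := by linarith
  obtain ⟨c1, hc1⟩ : ∃ c1 : ℝ, c1 = ∏ i ∈ Finset.range m, ((m : ℝ) + i + 1) := ⟨_, rfl⟩
  have hc0 : 0 < c1 := by
    rw [hc1]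
    exact Finset.prod_pos fun i _ => by positivity
  have hm0 := TopU_meas r hm
  have hm1 : MeasurableSet (pS (pS U (cube r)) (cube 1)) := measurableSet_pS hm0 (Sum_cube_meas 1)
  have hs0 := TopU_sub r hU
  have hs1 : pS (pS U (cube r)) (cube 1) ⊆ cube (n + r + 1) := by
    rw [cube_pS]
    exact pS_mono hs0 subset_rfl
  have hs2 : pS (pS (pS U (cube r)) (cube 1)) (cube m) ⊆ cube (n + r + 1 + m) := by
    rw [cube_pS]
    exact pS_mono hs1 subset_rfl
  have hint := (integrableOn_pp_pcEval (n + r + 1 + m) m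
    (flat (s0C n r m P Q rows))).mono_set hs2
  have hF := integrable_pS hm1 (Sum_cube_meas m) hint
  obtain ⟨F, hFd⟩ : ∃ F : (Fin (n + r + 1) → ℝ) → ℝ, F = fun x => ∫ s in cube m,
    pp m (pcEval (n + r + 1 + m) (flat (s0C n r m P Q rows)) (Fin.append x s)) := ⟨_, rfl⟩
  rw [← hFd] at hF
  have e1 : ∀ z ∈ pS U (cube r), ∀ τ ∈ cube 1, F (Fin.append z τ) =
      1 / ((T * pcEval (n + r) (a2C n r P Q rows) z ^ 2) ^ m * c1) *
        pp (2 * m) (pcEval (n + r) (pcTrunc n Q) z ^ (r + 1) * pcEval (n + r) (a2C n r P Q rows) z -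
          pcEval (n + r) (dCode n r Q) z * (T * (1 + τ 0))) := by
    intro z hz τ hτ
    have hQz : 0 < pcEval n Q fun l => z (Fin.castAdd r l) := hQ _ hz.1
    have hzc := hs0 hz
    have hD := dCode_posU n r Q hQz hzc
    have hA : 0 < pcEval (n + r) (a2C n r P Q rows) z := lt_of_lt_of_le hD (a2C_boundsU hQz hzc).1
    have h2 := a_le_twoU (P := P) (rows := rows) hQz hzc
    rw [← hT] at h2
    have h3 : 0 ≤ pcEval (n + r) (dCode n r Q) z * (T * (1 + τ 0)) := by
      have : 0 < 1 + τ 0 := by linarith [(hτ 0).1]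
      positivity
    rw [hFd]
    simp only [eval_s0C, ← hT]
    rw [integral_pp_lines (pow_pos hA 2) hT0 (by linarith) m m, ← hc1, two_mul]
  have e2 : ∀ z ∈ pS U (cube r), ∫ s in cube 1, F (Fin.append z s) =
      1 / (T ^ (m + 1) * (c1 * ((m : ℝ) + m + 1))) *
        (pcEval (n + r) (pcTrunc n Q) z ^ ((r + 1) * (2 * m + 1)) *
          pcEval (n + r) (a2C n r P Q rows) z / pcEval (n + r) (dCode n r Q) z) := by
    intro z hz
    have hQz : 0 < pcEval n Q fun l => z (Fin.castAdd r l) := hQ _ hz.1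
    have hzc := hs0 hz
    have hD := dCode_posU n r Q hQz hzc
    have hA : 0 < pcEval (n + r) (a2C n r P Q rows) z := lt_of_lt_of_le hD (a2C_boundsU hQz hzc).1
    have hq := q_posU hQz
    have h1 := a_le_oneU (P := P) (rows := rows) hQz hzc
    rw [← hT] at h1
    rw [setIntegral_congr_fun (Sum_cube_meas 1) (e1 z hz), integral_const_mul,
      integral_cube_one (fun t => pp (2 * m) (pcEval (n + r) (pcTrunc n Q) z ^ (r + 1) *
        pcEval (n + r) (a2C n r P Q rows) z - pcEval (n + r) (dCode n r Q) z * (T * (1 + t)))),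
      integral_pp_line hD hT0 h1 (2 * m), pp_of_pos (by positivity)]
    obtain ⟨A, hAd⟩ : ∃ A, A = pcEval (n + r) (a2C n r P Q rows) z := ⟨_, rfl⟩
    obtain ⟨D, hDd⟩ : ∃ D, D = pcEval (n + r) (dCode n r Q) z := ⟨_, rfl⟩
    obtain ⟨q, hqd⟩ : ∃ q, q = pcEval (n + r) (pcTrunc n Q) z := ⟨_, rfl⟩
    rw [← hAd] at hA ⊢
    rw [← hDd] at hD ⊢
    rw [← hqd] at hq ⊢
    have h5 : (m : ℝ) + m + 1 ≠ 0 := by positivity
    have h6 : (2 * (m : ℝ) + 1) ≠ 0 := by positivity
    have h7 : (m : ℝ) + m + 1 = 2 * m + 1 := by ring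
    have h8 : (q ^ (r + 1) * A) ^ (2 * m + 1) = q ^ ((r + 1) * (2 * m + 1)) * (A ^ (2 * m) * A) := by
      rw [mul_pow, ← pow_mul, ← pow_succ]
    have h9 : (T * A ^ 2) ^ m = T ^ m * A ^ (2 * m) := by
      rw [mul_pow, ← pow_mul]
    rw [h7, h8, h9]
    push_cast
    field_simp
    ring
  rw [integral_pS hm1 (Sum_cube_meas m) hint]
  have e3 : (fun x => ∫ s in cube m,
    pp m (pcEval (n + r + 1 + m) (flat (s0C n r m P Q rows)) (Fin.append x s))) = F := hFd.symm
  rw [e3, integral_pS hm0 (Sum_cube_meas 1) hF, setIntegral_congr_fun hm0 e2,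
    integral_const_mul, Finset.prod_range_succ, ← hc1, ← hT]

/-- As `Top_split` in CV/Top.lean. -/
theorem TopU_split (n r κ : ℕ) (P Q : PCode) (rows : List (List QCode))
    {z : Fin (n + r) → ℝ} (hQ : 0 < pcEval n Q fun l => z (Fin.castAdd r l))
    (hz : z ∈ cube (n + r)) :
    pcEval (n + r) (pcTrunc n Q) z ^ ((r + 1) * (2 * (2 * κ) + 1)) *
      pcEval (n + r) (a2C n r P Q rows) z / pcEval (n + r) (dCode n r Q) z =
      kC n r P Q rows * pcEval (n + r) (pcTrunc n Q) z ^ ((r + 1) * (2 * (2 * κ) + 1)) +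
        pcEval (n + r) (aCode n r (nN r κ) Q (wC n P Q rows)) z /
          pcEval (n + r) (dCode n r Q) z := by
  have hD := dCode_posU n r Q hQ hz
  rw [pcEval_aCode_wC, eval_a2C, Top_nN, pow_add]
  field_simp

/-- As `Top_integrable` in CV/Top.lean. -/
theorem TopU_integrable (r κ : ℕ) (P Q : PCode) (rows : List (List QCode)) (hU : U ⊆ cube n)
    (hm : MeasurableSet U) (hQ : ∀ y ∈ U, 0 < pcEval n Q y) :
    IntegrableOn (fun z => pcEval (n + r) (aCode n r (nN r κ) Q (wC n P Q rows)) z /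
      pcEval (n + r) (dCode n r Q) z) (pS U (cube r)) := by
  have hs0 := TopU_sub r hU
  have hm0 := TopU_meas r hm
  have hfin : volume (pS U (cube r)) ≠ ⊤ := by
    refine ne_top_of_le_ne_top ?_ (measure_mono hs0)
    rw [volume_cube]
    exact ENNReal.pow_ne_top (by simp)
  refine Measure.integrableOn_of_bounded (M := (bQ n Q : ℝ) ^ ((r + 1) * (2 * (2 * κ) + 1)) *
    ((bQ n Q : ℝ) ^ r * pcK (a1C n r P Q rows))) hfin
    (Top_measurable n r κ P Q rows).aestronglyMeasurable ?_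
  rw [ae_restrict_iff' hm0]
  refine Filter.Eventually.of_forall fun z hz => ?_
  have hQz : 0 < pcEval n Q fun l => z (Fin.castAdd r l) := hQ _ hz.1
  have hzc := hs0 hz
  have hD := dCode_posU n r Q hQz hzc
  have hq := q_posU hQz
  have hq1 := q_le (Q := Q) hzc
  have hqr := q_pow_leU hQz hzc
  have hA := abs_pcEval_le (a1C n r P Q rows) hzc
  rw [pcEval_aCode_wC, Top_nN, pow_add, Real.norm_eq_abs, abs_div, abs_of_pos hD, div_le_iff₀ hD,
    abs_mul, abs_mul, abs_of_pos (pow_pos hq _), abs_of_pos (pow_pos hq _)]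
  have h1 : pcEval (n + r) (pcTrunc n Q) z ^ ((r + 1) * (2 * (2 * κ) + 1)) ≤
      (bQ n Q : ℝ) ^ ((r + 1) * (2 * (2 * κ) + 1)) := pow_le_pow_left₀ hq.le hq1 _
  have h2 : 0 ≤ |pcEval (n + r) (a1C n r P Q rows) z| := abs_nonneg _
  have h3 : (0 : ℝ) ≤ (bQ n Q : ℝ) ^ r * pcEval (n + r) (dCode n r Q) z := by positivity
  have h4 : (0 : ℝ) ≤ (bQ n Q : ℝ) ^ ((r + 1) * (2 * (2 * κ) + 1)) := by positivity
  calc pcEval (n + r) (pcTrunc n Q) z ^ ((r + 1) * (2 * (2 * κ) + 1)) *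
        pcEval (n + r) (pcTrunc n Q) z ^ r * |pcEval (n + r) (a1C n r P Q rows) z|
      ≤ (bQ n Q : ℝ) ^ ((r + 1) * (2 * (2 * κ) + 1)) *
        ((bQ n Q : ℝ) ^ r * pcEval (n + r) (dCode n r Q) z) * pcK (a1C n r P Q rows) :=
        mul_le_mul (mul_le_mul h1 hqr (pow_pos hq _).le h4) hA h2 (mul_nonneg h4 h3)
    _ = _ := by ring

theorem TopU_open {h : MvPolynomial (Fin n) ℚ} (H : Region h U) : MeasurableSet U :=
  (isOpen_iff_mem_nhds.2 fun _ hx => H.mem_nhds hx).measurableSet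

theorem TopU_int_q (r N : ℕ) (Q : PCode) (hU : U ⊆ cube n) :
    IntegrableOn (fun z => pcEval (n + r) (pcTrunc n Q) z ^ N) (pS U (cube r)) := by
  have h := LogB_aux2 (n + r) ((continuous_pcEval (n + r) (pcTrunc n Q)).pow N)
  exact h.mono_set (TopU_sub r hU)

/-- As `Top_split` and `Top_integrable` in CV/Top.lean, then `integral_ratioU`. -/
theorem ratio_splitU {r κ K0 : ℕ} {P Q A0 : PCode} {rows : List (List QCode)} {gs : List PCode}
    (hc : hcCheck n P Q (((r, nN r κ), K0), (A0, wC n P Q rows), gs)) (hU : U ⊆ cube n)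
    (H : Region (pcPoly n Q) U) (hint : IntegrableOn (fun x => pcEval n P x / pcEval n Q x) U) :
    ∫ z in pS U (cube r), pcEval (n + r) (pcTrunc n Q) z ^ ((r + 1) * (2 * (2 * κ) + 1)) *
          pcEval (n + r) (a2C n r P Q rows) z / pcEval (n + r) (dCode n r Q) z =
      kC n r P Q rows * (∫ z in pS U (cube r),
          pcEval (n + r) (pcTrunc n Q) z ^ ((r + 1) * (2 * (2 * κ) + 1))) +
        ∫ x in U, pcEval n P x / pcEval n Q x := by
  have hm := TopU_open H
  have hQ : ∀ y ∈ U, 0 < pcEval n Q y := fun y hy => H.pos y hy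
  have hG := TopU_integrable r κ P Q rows hU hm hQ
  have hq := TopU_int_q r ((r + 1) * (2 * (2 * κ) + 1)) Q hU
  have hrat := integral_ratioU hc hU H hint hG
  have e : ∀ z ∈ pS U (cube r), pcEval (n + r) (pcTrunc n Q) z ^ ((r + 1) * (2 * (2 * κ) + 1)) *
      pcEval (n + r) (a2C n r P Q rows) z / pcEval (n + r) (dCode n r Q) z =
      kC n r P Q rows * pcEval (n + r) (pcTrunc n Q) z ^ ((r + 1) * (2 * (2 * κ) + 1)) +
        pcEval (n + r) (aCode n r (nN r κ) Q (wC n P Q rows)) z /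
          pcEval (n + r) (dCode n r Q) z := fun z hz =>
    TopU_split n r κ P Q rows (hQ _ hz.1) (TopU_sub r hU hz)
  rw [setIntegral_congr_fun (TopU_meas r hm) e, integral_add (hq.const_mul _) hG,
    integral_const_mul, hrat]

/-- The initial integral: the two previous theorems; the value of `c0C` as in `eval_c0C` (CV/Top.lean), with `CC0.eval`, `CC0.c0C`. -/
theorem initU {r κ K0 : ℕ} {P Q A0 : PCode} {rows : List (List QCode)} {gs : List PCode}
    (hc : hcCheck n P Q (((r, nN r κ), K0), (A0, wC n P Q rows), gs)) (hU : U ⊆ cube n)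
    (H : Region (pcPoly n Q) U) (hint : IntegrableOn (fun x => pcEval n P x / pcEval n Q x) U) :
    0 < cval (c0C (2 * κ) (t0C n r P Q rows)) ∧
    ∫ w in pS (pS (pS U (cube r)) (cube 1)) (cube (2 * κ)),
        pp (2 * κ) (pcEval (n + r + 1 + 2 * κ) (flat (s0C n r (2 * κ) P Q rows)) w) =
      cval (c0C (2 * κ) (t0C n r P Q rows)) * (kC n r P Q rows * (2 ^ r * ∫ y in U,
          pcEval n Q y ^ ((r + 1) * (2 * (2 * κ) + 1))) +
        ∫ x in U, pcEval n P x / pcEval n Q x) := by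
  have hm := TopU_open H
  have hQ : ∀ y ∈ U, 0 < pcEval n Q y := fun y hy => H.pos y hy
  have hT1 : 1 ≤ t0C n r P Q rows := one_le_t0C
  have hc0 : (cval (c0C (2 * κ) (t0C n r P Q rows)) : ℝ) =
      1 / ((t0C n r P Q rows : ℝ) ^ (2 * κ + 1) *
        ∏ i ∈ Finset.range (2 * κ + 1), (((2 * κ : ℕ) : ℝ) + i + 1)) := by
    rw [← CC0.eval (CC0.c0C (2 * κ) (t0C n r P Q rows)) 1 (fun _ => 0), eval_c0C (2 * κ) hT1]
  have hpos : (0 : ℝ) < (cval (c0C (2 * κ) (t0C n r P Q rows)) : ℝ) := by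
    rw [hc0]
    have h1 : (0 : ℝ) < (t0C n r P Q rows : ℝ) := by exact_mod_cast hT1
    have h2 : (0 : ℝ) < ∏ i ∈ Finset.range (2 * κ + 1), (((2 * κ : ℕ) : ℝ) + i + 1) :=
      Finset.prod_pos fun i _ => by positivity
    positivity
  refine ⟨by exact_mod_cast hpos, ?_⟩
  rw [II_s0U r (2 * κ) P Q rows hU hm hQ, ← hc0, ratio_splitU hc hU H hint]
  have e : ∫ z in pS U (cube r), pcEval (n + r) (pcTrunc n Q) z ^ ((r + 1) * (2 * (2 * κ) + 1)) =
      2 ^ r * ∫ y in U, pcEval n Q y ^ ((r + 1) * (2 * (2 * κ) + 1)) := by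
    rw [integral_pS hm (Sum_cube_meas r) (TopU_int_q r _ Q hU)]
    have e1 : ∀ (x : Fin n → ℝ) (y : Fin r → ℝ), pcEval (n + r) (pcTrunc n Q) (Fin.append x y) =
        pcEval n Q x := by
      intro x y
      rw [Eval_trunc]
      simp only [Fin.append_left]
    simp only [e1]
    rw [← integral_const_mul]
    congr 1
    ext x
    rw [setIntegral_const, measureReal_def, volume_cube]
    simp
  rw [e]

end Pool.Agent.Lib.MP_bbe012_lc.CD
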