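import Mathlib
import Pool.Agent.Lib.MP_bbe012_lc.CD.TopU
import Pool.Agent.Lib.MP_bbe012_lc.CD.Swap
import Pool.Agent.Lib.MP_bbe012_lc.CD.AvC

/-!
# The initial state
-/

namespace Pool.Agent.Lib.MP_bbe012_lc.CD

open MeasureTheory Set HC CV

theorem CC0_q0D (n1 n2 r m : ℕ) (P Q : PCode) (rows : List (List QCode)) :
    CC0 (q0D n1 n2 r m P Q rows) :=
  CC0.mul (CC0.pow (CC0.single _) _) (CC0.mul (CC0.c0C _ _) (CC0.mul (CC0.nat _) (CC0.pcAv _ _ _)))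

/-- The average over the product of intervals and discs is the normalised integral over the product of `U` and the cubes: `swap_integral` with
`hM : n1 + 2 n2 + r + 1 + m = n1 + 2 n2 + (r + 1 + m)`, `pcEval_flat_swS`, `pS_mixD`, and the sets differ by a null set (`volume_pS_diff`,
`setIntegral_congr_set`). -/
theorem AA_swS (n1 n2 r m k : ℕ) (S : SCode) {U : Set (Fin (n1 + 2 * n2) → ℝ)} (hm : MeasurableSet U)
    (hU : U ⊆ boxDisc n1 n2) (h0 : volume (boxDisc n1 n2 \ U) = 0) :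
    AA (n1 + (r + 1 + m)) n2 (flat (swS n1 n2 (r + 1 + m) S)) k =
      (∫ w in pS (pS (pS U (cube r)) (cube 1)) (cube m),
        pp k (pcEval (n1 + 2 * n2 + r + 1 + m) (flat S) w)) / (2 ^ (n1 + (r + 1 + m)) * Real.pi ^ n2) := by
  have hM : n1 + 2 * n2 + r + 1 + m = n1 + 2 * n2 + (r + 1 + m) := by omega
  have hb := measurableSet_boxDisc n1 n2
  have hb1 := measurableSet_pS hb (Sum_cube_meas r)
  have hb2 := measurableSet_pS hb1 (Sum_cube_meas 1)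
  have hu1 := measurableSet_pS hm (Sum_cube_meas r)
  have hu2 := measurableSet_pS hu1 (Sum_cube_meas 1)
  have h1 := volume_pS_diff hb hm (Sum_cube_meas r) h0
  have h2 := volume_pS_diff hb1 hu1 (Sum_cube_meas 1) h1
  have h3 := volume_pS_diff hb2 hu2 (Sum_cube_meas m) h2
  have hsub : pS (pS (pS U (cube r)) (cube 1)) (cube m) ⊆
      pS (pS (pS (boxDisc n1 n2) (cube r)) (cube 1)) (cube m) :=
    pS_mono (pS_mono (pS_mono hU subset_rfl) subset_rfl) subset_rfl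
  have hae : (pS (pS (pS (boxDisc n1 n2) (cube r)) (cube 1)) (cube m) : Set _) =ᵐ[volume]
      (pS (pS (pS U (cube r)) (cube 1)) (cube m) : Set _) :=
    (ae_eq_set.2 ⟨h3, by rw [sdiff_eq_empty.2 hsub]; exact measure_empty⟩)
  unfold AA Av
  congr 1
  simp only [pcEval_flat_swS n1 n2 (r + 1 + m) hM S]
  rw [swap_integral n1 n2 (r + 1 + m) hM (fun z => pp k (pcEval (n1 + 2 * n2 + r + 1 + m) (flat S) z)),
    ← pS_mixD]
  exact setIntegral_congr_set hae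

/-- The value of `q0D`: `cval_mul`, `cval_pow`, `cval_qinv`, `cval_nat`, `cval_pcAv`, and the integrals over `boxDisc n1 n2` and `U` are equal;
`pcEval_trunc` (Eval.lean). -/
theorem cval_q0D (n1 n2 r m : ℕ) (P Q : PCode) (rows : List (List QCode))
    {U : Set (Fin (n1 + 2 * n2) → ℝ)} (hm : MeasurableSet U) (hU : U ⊆ boxDisc n1 n2)
    (h0 : volume (boxDisc n1 n2 \ U) = 0) :
    (cval (q0D n1 n2 r m P Q rows) : ℝ) = (1 / 2) ^ (m + 1) *
      (cval (c0C m (t0C (n1 + 2 * n2) r P Q rows)) * (kC (n1 + 2 * n2) r P Q rows *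
        ((∫ y in U, pcEval (n1 + 2 * n2) Q y ^ ((r + 1) * (2 * m + 1))) / (2 ^ n1 * Real.pi ^ n2)))) := by
  have hae : (boxDisc n1 n2 : Set _) =ᵐ[volume] (U : Set _) :=
    (ae_eq_set.2 ⟨h0, by rw [sdiff_eq_empty.2 hU]; exact measure_empty⟩)
  have h1 : CC0 (pcPow [(qinv 1, [])] (m + 1)) := CC0.pow (CC0.single _) _
  have h2 : CC0 (c0C m (t0C (n1 + 2 * n2) r P Q rows)) := CC0.c0C _ _
  have h3 : CC0 (pcNat (kC (n1 + 2 * n2) r P Q rows)) := CC0.nat _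
  have h4 : CC0 (pcAv n1 n2 (pcPow (pcTrunc (n1 + 2 * n2) Q) ((r + 1) * (2 * m + 1)))) :=
    CC0.pcAv _ _ _
  have e : (cval (pcAv n1 n2 (pcPow (pcTrunc (n1 + 2 * n2) Q) ((r + 1) * (2 * m + 1)))) : ℝ) =
      (∫ y in U, pcEval (n1 + 2 * n2) Q y ^ ((r + 1) * (2 * m + 1))) / (2 ^ n1 * Real.pi ^ n2) := by
    rw [cval_pcAv]
    unfold Av
    congr 1
    have e1 : ∀ x : Fin (n1 + 2 * n2) → ℝ,
        pcEval (n1 + 2 * n2) (pcPow (pcTrunc (n1 + 2 * n2) Q) ((r + 1) * (2 * m + 1))) x =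
        pcEval (n1 + 2 * n2) Q x ^ ((r + 1) * (2 * m + 1)) := by
      intro x
      rw [pcEval_pow, pcEval_trunc le_rfl]
      rfl
    simp only [e1]
    exact setIntegral_congr_set hae
  unfold q0D
  rw [cval_mul h1 (h2.mul (h3.mul h4)), cval_mul h2 (h3.mul h4), cval_mul h3 h4,
    cval_pow (CC0.single _), cval_qinv, cval_nat]
  push_cast
  rw [e]
  norm_num

/-- The initial state: `initU` with `n = n1 + 2 n2` (`boxDisc_sub_cube`), `AA_swS`, `cval_q0D`; `c0 = cval (c0C ..) / 2^(n1 + (r + 1 + 2 κ))`. -/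
theorem st0D_spec {n1 n2 : ℕ} {P Q : PCode} {c : CC} (hc : dCheck (n1 + 2 * n2) P Q c)
    {U : Set (Fin (n1 + 2 * n2) → ℝ)} (hU : U ⊆ boxDisc n1 n2) (h0 : volume (boxDisc n1 n2 \ U) = 0)
    (H : Region (pcPoly (n1 + 2 * n2) Q) U)
    (hint : IntegrableOn (fun x => pcEval (n1 + 2 * n2) P x / pcEval (n1 + 2 * n2) Q x) U) :
    CC0 (st0D n1 n2 P Q c).2 ∧ ∃ c0 : ℚ, 0 < c0 ∧
      AA (nI n1 c) n2 (flat (st0D n1 n2 P Q c).1.2) (2 * c.1.1.2) - cval (st0D n1 n2 P Q c).2 =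
        c0 * ((∫ x in U, pcEval (n1 + 2 * n2) P x / pcEval (n1 + 2 * n2) Q x) / Real.pi ^ n2) := by
  obtain ⟨⟨⟨r, κ⟩, K0⟩, ⟨A0, rows⟩, gs⟩ := c
  have hm : MeasurableSet U := H.isOpen.measurableSet
  have hhc : hcCheck (n1 + 2 * n2) P Q
      (((r, nN r κ), K0), (A0, wC (n1 + 2 * n2) P Q rows), gs) := hc.1
  obtain ⟨hpos, hI⟩ := initU hhc (hU.trans (boxDisc_sub_cube n1 n2)) H hint
  refine ⟨CC0_q0D _ _ _ _ _ _ _, cval (c0C (2 * κ) (t0C (n1 + 2 * n2) r P Q rows)) /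
    2 ^ (n1 + (r + 1 + 2 * κ)), by positivity, ?_⟩
  change AA (n1 + (r + 1 + 2 * κ)) n2 (flat (swS n1 n2 (r + 1 + 2 * κ)
      (s0C (n1 + 2 * n2) r (2 * κ) P Q rows))) (2 * κ) -
      (cval (q0D n1 n2 r (2 * κ) P Q rows) : ℝ) = _
  rw [AA_swS n1 n2 r (2 * κ) (2 * κ) _ hm hU h0, hI, cval_q0D n1 n2 r (2 * κ) P Q rows hm hU h0]
  have hpi : (Real.pi ^ n2 : ℝ) ≠ 0 := (pow_pos Real.pi_pos _).ne'
  push_cast
  rw [show n1 + (r + 1 + 2 * κ) = n1 + (r + (2 * κ + 1)) by ring, pow_add, pow_add, one_div_pow]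
  have h2a : (2 : ℝ) ^ n1 ≠ 0 := by positivity
  have h2b : (2 : ℝ) ^ r ≠ 0 := by positivity
  have h2c : (2 : ℝ) ^ (2 * κ + 1) ≠ 0 := by positivity
  generalize (2 : ℝ) ^ (2 * κ + 1) = w3 at *
  generalize (2 : ℝ) ^ r = w2 at *
  generalize (2 : ℝ) ^ n1 = w1 at *
  field_simp
  ring

end Pool.Agent.Lib.MP_bbe012_lc.CD
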