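import Mathlib
import Pool.Agent.Lib.MP_bbe012_lc.CD.Dom

/-!
# Integrals over the line as integrals over the interval and over the disc
-/

namespace Pool.Agent.Lib.MP_bbe012_lc.CD

open MeasureTheory Set HC CV

/-- The substitution `t = y / (1 - y^2)`: `subst_inj`, `subst_surj`, `subst_deriv` (Bd.lean),
`lintegral_image_eq_lintegral_abs_deriv_mul`. -/
theorem lintegral_line {f : ℝ → ENNReal} (hf : Measurable f) :
    ∫⁻ y in Ioo (-1 : ℝ) 1, f (y / (1 - y ^ 2)) * ENNReal.ofReal ((1 + y ^ 2) / (1 - y ^ 2) ^ 2) =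
      ∫⁻ t, f t := by
  have h1 : (fun y : ℝ => y / (1 - y ^ 2)) '' Ioo (-1 : ℝ) 1 = univ := by
    ext x
    simp only [mem_image, mem_univ, iff_true]
    exact subst_surj x
  have h2 := lintegral_image_eq_lintegral_abs_deriv_mul (s := Ioo (-1 : ℝ) 1)
    (f := fun y : ℝ => y / (1 - y ^ 2)) (f' := fun y => (1 + y ^ 2) / (1 - y ^ 2) ^ 2) measurableSet_Ioo
    (fun y hy => (subst_deriv hy).hasDerivWithinAt) (fun x hx y hy h => subst_inj hx hy h) f
  rw [h1, Measure.restrict_univ] at h2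
  rw [h2]
  refine setLIntegral_congr_fun measurableSet_Ioo fun y _ => ?_
  show f (y / (1 - y ^ 2)) * ENNReal.ofReal ((1 + y ^ 2) / (1 - y ^ 2) ^ 2) =
    ENNReal.ofReal |(1 + y ^ 2) / (1 - y ^ 2) ^ 2| * f (y / (1 - y ^ 2))
  rw [abs_of_nonneg (by positivity), mul_comm]

theorem MixA_scale {x : ℝ} (hx : x ≠ 0) {g : ℝ → ENNReal} (hg : Measurable g) :
    ∫⁻ y, g y = ENNReal.ofReal |x| * ∫⁻ t, g (x * t) := by
  conv_lhs => rw [← Real.smul_map_volume_mul_left hx]
  rw [lintegral_smul_measure, lintegral_map hg (measurable_const_mul x), smul_eq_mul]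

theorem MixA_abs {r : ℝ} (hr : 0 ≤ r) : ∫⁻ x in Ioo (-r) r, ENNReal.ofReal |x| = ENNReal.ofReal (r ^ 2) := by
  have hc : Continuous fun x : ℝ => |x| := continuous_abs
  have hi : ∀ a b : ℝ, IntervalIntegrable (fun x : ℝ => |x|) volume a b := fun a b => hc.intervalIntegrable a b
  have h1 : ∫ x in (-r)..r, |x| = r ^ 2 := by
    rw [← intervalIntegral.integral_add_adjacent_intervals (hi (-r) 0) (hi 0 r)]
    have h2 : ∫ x in (-r)..0, |x| = ∫ x in (-r)..0, -x := by
      refine intervalIntegral.integral_congr fun x hx => ?_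
      rw [uIcc_of_le (by linarith)] at hx
      exact abs_of_nonpos hx.2
    have h3 : ∫ x in (0 : ℝ)..r, |x| = ∫ x in (0 : ℝ)..r, x := by
      refine intervalIntegral.integral_congr fun x hx => ?_
      rw [uIcc_of_le hr] at hx
      exact abs_of_nonneg hx.1
    rw [h2, h3, intervalIntegral.integral_neg, integral_id, integral_id]
    ring
  rw [intervalIntegral.integral_of_le (by linarith), integral_Ioc_eq_integral_Ioo] at h1
  rw [← h1, ofReal_integral_eq_lintegral_ofReal]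
  · have h4 := (hi (-r) r)
    rw [intervalIntegrable_iff_integrableOn_Ioo_of_le (by linarith)] at h4
    exact h4
  · exact Filter.Eventually.of_forall fun x => abs_nonneg x

/-- the inner integral -/
theorem MixA_inner (t : ℝ) :
    ∫⁻ x in {x : ℝ | x ^ 2 * (1 + t ^ 2) < 1}, ENNReal.ofReal |x| = ENNReal.ofReal (1 / (1 + t ^ 2)) := by
  have h0 : 0 < 1 + t ^ 2 := by positivity
  obtain ⟨r, hr, hr2⟩ : ∃ r : ℝ, 0 ≤ r ∧ r ^ 2 = 1 / (1 + t ^ 2) :=
    ⟨Real.sqrt (1 / (1 + t ^ 2)), Real.sqrt_nonneg _, Real.sq_sqrt (by positivity)⟩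
  have h1 : {x : ℝ | x ^ 2 * (1 + t ^ 2) < 1} = Ioo (-r) r := by
    ext x
    rw [mem_ofPred_eq, mem_Ioo, ← abs_lt, ← lt_div_iff₀ h0, ← hr2, sq_lt_sq, abs_of_nonneg hr]
  rw [h1, MixA_abs hr, hr2]

/-- The direction of a point of the disc. For fixed `x ≠ 0` substitute `y = x t` (`lintegral` of a scaled function): the integral is
`∫⁻ t, f t (1 + t^2) ∫⁻ x in {x^2 (1 + t^2) < 1}, |x|`, and the inner integral is `1 / (1 + t^2)`. Or polar coordinates. -/
theorem lintegral_dir {f : ℝ → ENNReal} (hf : Measurable f) :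
    ∫⁻ w in disc, f (w 1 / w 0) * ENNReal.ofReal ((w 0 ^ 2 + w 1 ^ 2) / w 0 ^ 2) = ∫⁻ t, f t := by
  obtain ⟨D, hD⟩ : ∃ D : Set (ℝ × ℝ), D = {p | p.1 ^ 2 + p.2 ^ 2 < 1} := ⟨_, rfl⟩
  have hDm : MeasurableSet D := by
    rw [hD]
    exact measurableSet_lt (by fun_prop) (by fun_prop)
  obtain ⟨F, hF⟩ : ∃ F : ℝ × ℝ → ENNReal, F = fun p => f (p.2 / p.1) *
      ENNReal.ofReal ((p.1 ^ 2 + p.2 ^ 2) / p.1 ^ 2) := ⟨_, rfl⟩
  have hFm : Measurable F := by
    rw [hF]
    refine Measurable.mul (hf.comp (measurable_snd.div measurable_fst)) ?_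
    exact ENNReal.measurable_ofReal.comp
      (((measurable_fst.pow_const 2).add (measurable_snd.pow_const 2)).div (measurable_fst.pow_const 2))
  have hGm : Measurable (D.indicator F) := hFm.indicator hDm
  have s1 : ∫⁻ w in disc, f (w 1 / w 0) * ENNReal.ofReal ((w 0 ^ 2 + w 1 ^ 2) / w 0 ^ 2) =
      ∫⁻ p in D, F p := by
    rw [← (volume_preserving_finTwoArrow ℝ).setLIntegral_comp_preimage hDm hFm, hD, hF]
    rfl
  rw [s1, ← lintegral_indicator hDm, Measure.volume_eq_prod, lintegral_prod _ hGm.aemeasurable]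
  -- the scaled function
  obtain ⟨H, hH⟩ : ∃ H : ℝ → ℝ → ENNReal, H = fun x t => ({x : ℝ | x ^ 2 * (1 + t ^ 2) < 1}).indicator
      (fun x => ENNReal.ofReal |x|) x * (f t * ENNReal.ofReal (1 + t ^ 2)) := ⟨_, rfl⟩
  have s2 : ∀ᵐ x : ℝ, ∫⁻ y, D.indicator F (x, y) = ∫⁻ t, H x t := by
    have h0 : ∀ᵐ x : ℝ, x ≠ 0 := by
      rw [ae_iff]
      simp
    filter_upwards [h0] with x hx
    have hm : Measurable fun t : ℝ => D.indicator F (x, x * t) :=
      (hGm.comp measurable_prodMk_left).comp (measurable_const_mul x)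
    rw [MixA_scale hx (g := fun y => D.indicator F (x, y)) (hGm.comp measurable_prodMk_left),
      ← lintegral_const_mul _ hm]
    refine lintegral_congr fun t => ?_
    rw [hH]
    show ENNReal.ofReal |x| * D.indicator F (x, x * t) = ({x : ℝ | x ^ 2 * (1 + t ^ 2) < 1}).indicator
      (fun x => ENNReal.ofReal |x|) x * (f t * ENNReal.ofReal (1 + t ^ 2))
    have h1 : (x, x * t) ∈ D ↔ x ∈ {x : ℝ | x ^ 2 * (1 + t ^ 2) < 1} := by
      rw [hD]
      show x ^ 2 + (x * t) ^ 2 < 1 ↔ x ^ 2 * (1 + t ^ 2) < 1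
      rw [show x ^ 2 + (x * t) ^ 2 = x ^ 2 * (1 + t ^ 2) by ring]
    by_cases h2 : x ∈ {x : ℝ | x ^ 2 * (1 + t ^ 2) < 1}
    · rw [indicator_of_mem (h1.2 h2), indicator_of_mem h2, hF]
      show ENNReal.ofReal |x| * (f (x * t / x) * ENNReal.ofReal ((x ^ 2 + (x * t) ^ 2) / x ^ 2)) = _
      rw [mul_div_cancel_left₀ t hx, show (x ^ 2 + (x * t) ^ 2) / x ^ 2 = 1 + t ^ 2 by field_simp]
    · rw [indicator_of_notMem (fun h => h2 (h1.1 h)), indicator_of_notMem h2, mul_zero, zero_mul]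
  rw [lintegral_congr_ae s2, lintegral_lintegral_swap]
  · refine lintegral_congr fun t => ?_
    have h0 : 0 < 1 + t ^ 2 := by positivity
    have hm : MeasurableSet {x : ℝ | x ^ 2 * (1 + t ^ 2) < 1} :=
      measurableSet_lt (by fun_prop) (by fun_prop)
    have habs : Measurable fun x : ℝ => ENNReal.ofReal |x| :=
      ENNReal.measurable_ofReal.comp continuous_abs.measurable
    rw [hH]
    show ∫⁻ x, ({x : ℝ | x ^ 2 * (1 + t ^ 2) < 1}).indicator
      (fun x => ENNReal.ofReal |x|) x * (f t * ENNReal.ofReal (1 + t ^ 2)) = f t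
    rw [lintegral_mul_const _ (habs.indicator hm), lintegral_indicator hm, MixA_inner t, mul_comm, mul_assoc,
      ← ENNReal.ofReal_mul h0.le, mul_one_div_cancel h0.ne', ENNReal.ofReal_one, mul_one]
  · have hset : MeasurableSet {p : ℝ × ℝ | p.1 ^ 2 * (1 + p.2 ^ 2) < 1} :=
      measurableSet_lt (by fun_prop) (by fun_prop)
    have h3 : Function.uncurry H = fun p : ℝ × ℝ => ({p : ℝ × ℝ | p.1 ^ 2 * (1 + p.2 ^ 2) < 1}).indicator
        (fun p => ENNReal.ofReal |p.1|) p * (f p.2 * ENNReal.ofReal (1 + p.2 ^ 2)) := by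
      rw [hH]
      rfl
    rw [h3]
    refine Measurable.aemeasurable (Measurable.mul ?_ ?_)
    · exact (ENNReal.measurable_ofReal.comp (continuous_abs.measurable.comp measurable_fst)).indicator hset
    · exact (hf.comp measurable_snd).mul (ENNReal.measurable_ofReal.comp (by fun_prop))

end Pool.Agent.Lib.MP_bbe012_lc.CD
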