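import Mathlib
import Pool.Agent.Lib.MP_bbe012_lc.CD.MixA

/-!
# Integrals over the whole space as integrals over the product of intervals and discs
-/

namespace Pool.Agent.Lib.MP_bbe012_lc.CD

open MeasureTheory Set HC CV

/-- The substitution: `u_i / (1 - u_i^2)` for the intervals, `y / x` for the discs. -/
noncomputable def phiM (n1 n2 : ℕ) (u : Fin (n1 + 2 * n2) → ℝ) : Fin (n1 + n2) → ℝ := fun i =>
  if h : (i : ℕ) < n1 then u ⟨i, by omega⟩ / (1 - u ⟨i, by omega⟩ ^ 2)
  else u ⟨n1 + 2 * (i - n1) + 1, by omega⟩ / u ⟨n1 + 2 * (i - n1), by omega⟩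

/-- The density. -/
noncomputable def jacM (n1 n2 : ℕ) (u : Fin (n1 + 2 * n2) → ℝ) : ℝ :=
  (∏ i : Fin n1, (1 + u ⟨i, by omega⟩ ^ 2) / (1 - u ⟨i, by omega⟩ ^ 2) ^ 2) *
    ∏ j : Fin n2, (u ⟨n1 + 2 * j, by omega⟩ ^ 2 + u ⟨n1 + 2 * j + 1, by omega⟩ ^ 2) /
      u ⟨n1 + 2 * j, by omega⟩ ^ 2

theorem measurable_phiM (n1 n2 : ℕ) : Measurable (phiM n1 n2) := by
  have e : ∀ k : Fin (n1 + 2 * n2), Measurable (fun u : Fin (n1 + 2 * n2) → ℝ => u k) :=
    fun k => measurable_pi_apply k
  refine measurable_pi_lambda _ fun i => ?_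
  by_cases h : (i : ℕ) < n1
  · simp only [phiM, dif_pos h]
    exact (e _).div (measurable_const.sub ((e _).pow_const 2))
  · simp only [phiM, dif_neg h]
    exact (e _).div (e _)

theorem measurable_jacM (n1 n2 : ℕ) : Measurable (jacM n1 n2) := by
  have e : ∀ k : Fin (n1 + 2 * n2), Measurable (fun u : Fin (n1 + 2 * n2) → ℝ => u k) :=
    fun k => measurable_pi_apply k
  unfold jacM
  refine Measurable.mul ?_ ?_
  · refine Finset.measurable_prod _ fun i _ => ?_
    exact (measurable_const.add ((e _).pow_const 2)).div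
      ((measurable_const.sub ((e _).pow_const 2)).pow_const 2)
  · refine Finset.measurable_prod _ fun i _ => ?_
    exact (((e _).pow_const 2).add ((e _).pow_const 2)).div ((e _).pow_const 2)

theorem jacM_nonneg (n1 n2 : ℕ) (u : Fin (n1 + 2 * n2) → ℝ) : 0 ≤ jacM n1 n2 u := by
  unfold jacM
  refine mul_nonneg (Finset.prod_nonneg fun i _ => by positivity) (Finset.prod_nonneg fun i _ => by positivity)

/-- The substitution rule for a set, a map and a density. -/
def MixB_T {a a' : ℕ} (A : Set (Fin a → ℝ)) (φ : (Fin a → ℝ) → (Fin a' → ℝ)) (j : (Fin a → ℝ) → ℝ) : Prop :=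
  ∀ F : (Fin a' → ℝ) → ENNReal, Measurable F → ∫⁻ u in A, F (φ u) * ENNReal.ofReal (j u) = ∫⁻ x, F x

theorem MixB_append (a b : ℕ) : Measurable (fun p : (Fin a → ℝ) × (Fin b → ℝ) => Fin.append p.1 p.2) := by
  refine measurable_pi_lambda _ fun i => ?_
  refine Fin.addCases (fun k => ?_) (fun k => ?_) i
  · simp only [Fin.append_left]
    exact (measurable_pi_apply k).comp measurable_fst
  · simp only [Fin.append_right]
    exact (measurable_pi_apply k).comp measurable_snd

/-- Tonelli. -/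
theorem MixB_prod {a a' b b' : ℕ} {A : Set (Fin a → ℝ)} {B : Set (Fin b → ℝ)} (hA : MeasurableSet A)
    (hB : MeasurableSet B) {φ : (Fin a → ℝ) → (Fin a' → ℝ)} {ψ : (Fin b → ℝ) → (Fin b' → ℝ)}
    {j : (Fin a → ℝ) → ℝ} {k : (Fin b → ℝ) → ℝ} (hφ : Measurable φ) (hψ : Measurable ψ) (hj : Measurable j)
    (hk : Measurable k) (hj0 : ∀ u, 0 ≤ j u) (hTA : MixB_T A φ j) (hTB : MixB_T B ψ k) :
    MixB_T (pS A B) (fun u => Fin.append (φ fun i => u (Fin.castAdd b i)) (ψ fun i => u (Fin.natAdd a i)))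
      (fun u => j (fun i => u (Fin.castAdd b i)) * k (fun i => u (Fin.natAdd a i))) := by
  intro F hF
  have hpre : pS A B = (split a b) ⁻¹' (A ×ˢ B) := by
    ext z
    simp only [pS, Set.mem_ofPred_eq, Set.mem_preimage, split_apply, Set.mem_prod]
  set f : (Fin a → ℝ) × (Fin b → ℝ) → ENNReal :=
    fun p => F (Fin.append (φ p.1) (ψ p.2)) * ENNReal.ofReal (j p.1 * k p.2) with hf
  have hfm : Measurable f := by
    refine Measurable.mul ?_ ?_
    · refine hF.comp ((MixB_append a' b').comp ((hφ.comp measurable_fst).prodMk (hψ.comp measurable_snd)))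
    · exact ((hj.comp measurable_fst).mul (hk.comp measurable_snd)).ennreal_ofReal
  have h1 : ∫⁻ u in pS A B, F (Fin.append (φ fun i => u (Fin.castAdd b i)) (ψ fun i => u (Fin.natAdd a i))) *
      ENNReal.ofReal (j (fun i => u (Fin.castAdd b i)) * k (fun i => u (Fin.natAdd a i))) =
      ∫⁻ p in A ×ˢ B, f p := by
    rw [hpre, ← (measurePreserving_split a b).setLIntegral_comp_preimage (hA.prod hB) hfm]
    refine lintegral_congr fun u => ?_
    rw [split_apply]
  have hG : Measurable (fun x' : Fin a' → ℝ => ∫⁻ y' : Fin b' → ℝ, F (Fin.append x' y')) :=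
    Measurable.lintegral_prod_right' (f := fun p : (Fin a' → ℝ) × (Fin b' → ℝ) => F (Fin.append p.1 p.2))
      (hF.comp (MixB_append a' b'))
  have h2 : ∫⁻ p in A ×ˢ B, f p = ∫⁻ x in A, (∫⁻ y' : Fin b' → ℝ, F (Fin.append (φ x) y')) * ENNReal.ofReal (j x) := by
    rw [MeasureTheory.Measure.volume_eq_prod, ← MeasureTheory.Measure.prod_restrict,
      MeasureTheory.lintegral_prod _ hfm.aemeasurable]
    refine lintegral_congr fun x => ?_
    have h3 := hTB (fun y' => F (Fin.append (φ x) y'))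
      (hF.comp ((MixB_append a' b').comp (measurable_const.prodMk measurable_id)))
    rw [← h3, mul_comm, ← lintegral_const_mul']
    · refine lintegral_congr fun y => ?_
      simp only [hf]
      rw [ENNReal.ofReal_mul (hj0 x)]
      ring
    · exact ENNReal.ofReal_ne_top
  rw [h1, h2, hTA _ hG]
  have hFm : Measurable (fun p : (Fin a' → ℝ) × (Fin b' → ℝ) => F (Fin.append p.1 p.2)) :=
    hF.comp (MixB_append a' b')
  have h4 : ∫⁻ z : Fin (a' + b') → ℝ, F z =
      ∫⁻ p : (Fin a' → ℝ) × (Fin b' → ℝ), F (Fin.append p.1 p.2) := by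
    rw [← (measurePreserving_split a' b').lintegral_comp hFm]
    refine lintegral_congr fun z => ?_
    rw [split_apply, append_parts]
  rw [h4, MeasureTheory.Measure.volume_eq_prod, MeasureTheory.lintegral_prod _ hFm.aemeasurable]

theorem MixB_one {F : (Fin 1 → ℝ) → ENNReal} (hF : Measurable F) : ∫⁻ t : ℝ, F (fun _ => t) = ∫⁻ x, F x := by
  have hm : Measurable (fun t : ℝ => F (fun _ => t)) := hF.comp (measurable_pi_lambda _ fun _ => measurable_id)
  rw [← (MeasureTheory.volume_preserving_funUnique (Fin 1) ℝ).lintegral_comp hm]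
  refine lintegral_congr fun x => ?_
  congr 1
  funext i
  rw [Subsingleton.elim i default]
  rfl

theorem MixB_line1 : MixB_T (cube 1) (fun u i => u i / (1 - u i ^ 2))
    (fun u => ∏ i, (1 + u i ^ 2) / (1 - u i ^ 2) ^ 2) := by
  intro F hF
  have hm0 : Measurable (fun t : ℝ => F (fun _ => t)) := hF.comp (measurable_pi_lambda _ fun _ => measurable_id)
  have hm : Measurable (fun y : ℝ => F (fun _ => y / (1 - y ^ 2)) *
      ENNReal.ofReal ((1 + y ^ 2) / (1 - y ^ 2) ^ 2)) := by
    refine Measurable.mul ?_ ?_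
    · exact hm0.comp (measurable_id.div (measurable_const.sub (measurable_id.pow_const 2)))
    · exact ((measurable_const.add (measurable_id.pow_const 2)).div
        ((measurable_const.sub (measurable_id.pow_const 2)).pow_const 2)).ennreal_ofReal
  rw [← MixB_one hF, ← lintegral_line hm0,
    ← (MeasureTheory.volume_preserving_funUnique (Fin 1) ℝ).setLIntegral_comp_preimage measurableSet_Ioo hm]
  have hset : (cube 1 : Set (Fin 1 → ℝ)) = (MeasurableEquiv.funUnique (Fin 1) ℝ) ⁻¹' (Ioo (-1 : ℝ) 1) := by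
    ext u
    constructor
    · intro h
      exact h 0
    · intro h i
      rw [Subsingleton.elim i 0]
      exact h
  rw [hset]
  refine lintegral_congr fun u => ?_
  have h1 : (fun i : Fin 1 => u i / (1 - u i ^ 2)) =
      fun _ => (MeasurableEquiv.funUnique (Fin 1) ℝ) u / (1 - (MeasurableEquiv.funUnique (Fin 1) ℝ) u ^ 2) := by
    funext i
    rw [Subsingleton.elim i 0]
    rfl
  show F (fun i : Fin 1 => u i / (1 - u i ^ 2)) *
    ENNReal.ofReal (∏ i, (1 + u i ^ 2) / (1 - u i ^ 2) ^ 2) = _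
  rw [h1, Fin.prod_univ_one]
  rfl

theorem MixB_mline (n : ℕ) : Measurable (fun (u : Fin n → ℝ) (i : Fin n) => u i / (1 - u i ^ 2)) :=
  measurable_pi_lambda _ fun i => (measurable_pi_apply i).div
    (measurable_const.sub ((measurable_pi_apply i).pow_const 2))

theorem MixB_mjac (n : ℕ) : Measurable (fun (u : Fin n → ℝ) => ∏ i, (1 + u i ^ 2) / (1 - u i ^ 2) ^ 2) :=
  Finset.measurable_prod _ fun i _ => (measurable_const.add ((measurable_pi_apply i).pow_const 2)).div
      ((measurable_const.sub ((measurable_pi_apply i).pow_const 2)).pow_const 2)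

theorem MixB_mcube (n : ℕ) : MeasurableSet (cube n) := by
  have : cube n = ⋂ i : Fin n, (fun u : Fin n → ℝ => u i) ⁻¹' (Ioo (-1 : ℝ) 1) := by
    ext u
    simp [cube]
  rw [this]
  exact MeasurableSet.iInter fun i => (measurable_pi_apply i) measurableSet_Ioo

theorem MixB_line (n : ℕ) : MixB_T (cube n) (fun u i => u i / (1 - u i ^ 2))
    (fun u => ∏ i, (1 + u i ^ 2) / (1 - u i ^ 2) ^ 2) := by
  induction n with
  | zero =>
    intro F hF
    have h1 : (cube 0 : Set (Fin 0 → ℝ)) = Set.univ := by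
      ext u
      simp [cube]
    rw [h1, Measure.restrict_univ]
    refine lintegral_congr fun u => ?_
    show F (fun i : Fin 0 => u i / (1 - u i ^ 2)) *
      ENNReal.ofReal (∏ i : Fin 0, (1 + u i ^ 2) / (1 - u i ^ 2) ^ 2) = _
    rw [Finset.univ_eq_empty, Finset.prod_empty, ENNReal.ofReal_one, mul_one]
    congr 1
    exact Subsingleton.elim _ _
  | succ n ih =>
    have h1 := MixB_prod (MixB_mcube n) (MixB_mcube 1) (MixB_mline n) (MixB_mline 1) (MixB_mjac n) (MixB_mjac 1)
      (fun u => Finset.prod_nonneg fun i _ => by positivity) ih MixB_line1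
    have h2 : (fun u : Fin (n + 1) → ℝ => Fin.append
        ((fun (u : Fin n → ℝ) (i : Fin n) => u i / (1 - u i ^ 2)) fun i => u (Fin.castAdd 1 i))
        ((fun (u : Fin 1 → ℝ) (i : Fin 1) => u i / (1 - u i ^ 2)) fun i => u (Fin.natAdd n i))) =
        fun u i => u i / (1 - u i ^ 2) := by
      funext u i
      refine Fin.addCases (fun k => ?_) (fun k => ?_) i
      · rw [Fin.append_left]
      · rw [Fin.append_right]
    have h3 : (fun u : Fin (n + 1) → ℝ =>
        (fun (u : Fin n → ℝ) => ∏ i, (1 + u i ^ 2) / (1 - u i ^ 2) ^ 2) (fun i => u (Fin.castAdd 1 i)) *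
        (fun (u : Fin 1 → ℝ) => ∏ i, (1 + u i ^ 2) / (1 - u i ^ 2) ^ 2) (fun i => u (Fin.natAdd n i))) =
        fun u => ∏ i, (1 + u i ^ 2) / (1 - u i ^ 2) ^ 2 := by
      funext u
      rw [Fin.prod_univ_add]
    rw [h2, h3] at h1
    rw [cube_pS n 1]
    exact h1

theorem MixB_disc : MixB_T disc (fun w (_ : Fin 1) => w 1 / w 0) (fun w => (w 0 ^ 2 + w 1 ^ 2) / w 0 ^ 2) := by
  intro F hF
  have hm0 : Measurable (fun t : ℝ => F (fun _ => t)) := hF.comp (measurable_pi_lambda _ fun _ => measurable_id)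
  rw [← MixB_one hF, ← lintegral_dir hm0]

/-- Induction on `n2`, and for `n2 = 0` induction on `n1`, with Tonelli's theorem (`split a b`, `measurePreserving_split` in Split.lean,
`lintegral_prod`), `boxDisc_succ`, `lintegral_line`, `lintegral_dir`. (For `n2 = 0` the substitution is in Bd.lean, too.) -/
theorem lintegral_phiM (n1 n2 : ℕ) {f : (Fin (n1 + n2) → ℝ) → ENNReal} (hf : Measurable f) :
    ∫⁻ u in boxDisc n1 n2, f (phiM n1 n2 u) * ENNReal.ofReal (jacM n1 n2 u) = ∫⁻ x, f x := by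
  revert f
  show ∀ {f : (Fin (n1 + n2) → ℝ) → ENNReal}, Measurable f →
    ∫⁻ u in boxDisc n1 n2, f (phiM n1 n2 u) * ENNReal.ofReal (jacM n1 n2 u) = ∫⁻ x, f x
  suffices h : MixB_T (boxDisc n1 n2) (phiM n1 n2) (jacM n1 n2) from fun {f} hf => h f hf
  induction n2 with
  | zero =>
    rw [boxDisc_zero]
    have h1 := MixB_line n1
    have h2 : (phiM n1 0 : (Fin n1 → ℝ) → (Fin n1 → ℝ)) = fun u i => u i / (1 - u i ^ 2) := by
      funext u i
      simp only [phiM]
      rw [dif_pos (show (i : ℕ) < n1 from i.isLt)]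
    have h3 : (jacM n1 0 : (Fin n1 → ℝ) → ℝ) = fun u => ∏ i, (1 + u i ^ 2) / (1 - u i ^ 2) ^ 2 := by
      funext u
      simp only [jacM]
      rw [Finset.univ_eq_empty (α := Fin 0), Finset.prod_empty, mul_one]
      rfl
    show MixB_T (a := n1) (a' := n1) (cube n1) (phiM n1 0) (jacM n1 0)
    rw [h2, h3]
    exact h1
  | succ n2 ih =>
    have h1 := MixB_prod (measurableSet_boxDisc n1 n2) measurableSet_disc (measurable_phiM n1 n2)
      (measurable_pi_lambda (fun (w : Fin 2 → ℝ) (_ : Fin 1) => w 1 / w 0) fun _ =>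
        (measurable_pi_apply 1).div (measurable_pi_apply 0)) (measurable_jacM n1 n2)
      ((((measurable_pi_apply (0 : Fin 2)).pow_const 2).add ((measurable_pi_apply 1).pow_const 2)).div
        ((measurable_pi_apply 0).pow_const 2)) (jacM_nonneg n1 n2) ih MixB_disc
    have h2 : (phiM n1 (n2 + 1) : (Fin (n1 + 2 * n2 + 2) → ℝ) → (Fin (n1 + n2 + 1) → ℝ)) =
        fun u => Fin.append (phiM n1 n2 fun i => u (Fin.castAdd 2 i))
          ((fun (w : Fin 2 → ℝ) (_ : Fin 1) => w 1 / w 0) fun i => u (Fin.natAdd (n1 + 2 * n2) i)) := by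
      funext u i
      refine Fin.addCases (m := n1 + n2) (n := 1) (fun k => ?_) (fun k => ?_) i
      · rw [Fin.append_left]
        simp only [phiM]
        by_cases hk : (k : ℕ) < n1
        · rw [dif_pos (show ((Fin.castAdd 1 k : Fin (n1 + n2 + 1)) : ℕ) < n1 from hk), dif_pos hk]
          rfl
        · rw [dif_neg (show ¬ ((Fin.castAdd 1 k : Fin (n1 + n2 + 1)) : ℕ) < n1 from hk), dif_neg hk]
          rfl
      · rw [Fin.append_right]
        simp only [phiM]
        have hk : ((Fin.natAdd (n1 + n2) k : Fin (n1 + n2 + 1)) : ℕ) = n1 + n2 := by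
          rw [Fin.val_natAdd]
          have := k.isLt
          omega
        rw [dif_neg (by rw [hk]; omega)]
        have e1 : (⟨n1 + 2 * (((Fin.natAdd (n1 + n2) k : Fin (n1 + n2 + 1)) : ℕ) - n1) + 1, by rw [hk]; omega⟩ :
            Fin (n1 + 2 * n2 + 2)) = Fin.natAdd (n1 + 2 * n2) 1 := by
          apply Fin.ext
          show n1 + 2 * (((Fin.natAdd (n1 + n2) k : Fin (n1 + n2 + 1)) : ℕ) - n1) + 1 = n1 + 2 * n2 + 1
          omega
        have e0 : (⟨n1 + 2 * (((Fin.natAdd (n1 + n2) k : Fin (n1 + n2 + 1)) : ℕ) - n1), by rw [hk]; omega⟩ :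
            Fin (n1 + 2 * n2 + 2)) = Fin.natAdd (n1 + 2 * n2) 0 := by
          apply Fin.ext
          show n1 + 2 * (((Fin.natAdd (n1 + n2) k : Fin (n1 + n2 + 1)) : ℕ) - n1) = n1 + 2 * n2 + 0
          omega
        exact congrArg₂ (fun x y : Fin (n1 + 2 * n2 + 2) => u x / u y) e1 e0
    have h3 : (jacM n1 (n2 + 1) : (Fin (n1 + 2 * n2 + 2) → ℝ) → ℝ) =
        fun u => jacM n1 n2 (fun i => u (Fin.castAdd 2 i)) *
          (fun w : Fin 2 → ℝ => (w 0 ^ 2 + w 1 ^ 2) / w 0 ^ 2) (fun i => u (Fin.natAdd (n1 + 2 * n2) i)) := by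
      funext u
      simp only [jacM]
      rw [Fin.prod_univ_castSucc (n := n2), ← mul_assoc]
      rfl
    show MixB_T (a := n1 + 2 * n2 + 2) (a' := n1 + n2 + 1) (boxDisc n1 (n2 + 1)) (phiM n1 (n2 + 1))
      (jacM n1 (n2 + 1))
    rw [boxDisc_succ, h2, h3]
    exact h1

/-- The measure with the density `jacM` on the product of intervals and discs has the image `volume` under `phiM` (`lintegral_phiM` for indicators,
`Measure.ext`); `integrable_map_measure`, `integral_map`, `integrable_withDensity_iff_integrable_smul'`, `integral_withDensity_eq_integral_toReal_smul`. -/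
theorem integral_phiM (n1 n2 : ℕ) {g : (Fin (n1 + n2) → ℝ) → ℝ} (hm : Measurable g)
    (hg : Integrable g) :
    IntegrableOn (fun u => g (phiM n1 n2 u) * jacM n1 n2 u) (boxDisc n1 n2) ∧
      ∫ u in boxDisc n1 n2, g (phiM n1 n2 u) * jacM n1 n2 u = ∫ x, g x := by
  set μ : Measure (Fin (n1 + 2 * n2) → ℝ) :=
    (volume.restrict (boxDisc n1 n2)).withDensity (fun u => ENNReal.ofReal (jacM n1 n2 u)) with hμ
  have hjm : Measurable (fun u => ENNReal.ofReal (jacM n1 n2 u)) := (measurable_jacM n1 n2).ennreal_ofReal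
  have hφ := measurable_phiM n1 n2
  have hmap : Measure.map (phiM n1 n2) μ = volume := by
    refine Measure.ext fun s hs => ?_
    rw [Measure.map_apply hφ hs, hμ, withDensity_apply _ (hφ hs)]
    have h1 := lintegral_phiM n1 n2 (f := s.indicator 1) (measurable_one.indicator hs)
    rw [lintegral_indicator_one hs] at h1
    rw [← h1, ← lintegral_indicator (hφ hs)]
    refine lintegral_congr fun u => ?_
    by_cases hu : phiM n1 n2 u ∈ s
    · rw [Set.indicator_of_mem (show u ∈ phiM n1 n2 ⁻¹' s from hu), Set.indicator_of_mem hu]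
      simp
    · rw [Set.indicator_of_notMem (show u ∉ phiM n1 n2 ⁻¹' s from hu), Set.indicator_of_notMem hu]
      simp
  have hlt : ∀ᵐ u ∂(volume.restrict (boxDisc n1 n2)), ENNReal.ofReal (jacM n1 n2 u) < ⊤ :=
    Filter.Eventually.of_forall fun u => ENNReal.ofReal_lt_top
  have hg' : Integrable g (Measure.map (phiM n1 n2) μ) := by rw [hmap]; exact hg
  have h2 : Integrable (g ∘ phiM n1 n2) μ :=
    (integrable_map_measure hm.aestronglyMeasurable hφ.aemeasurable).1 hg'
  have hfun : (fun u => (ENNReal.ofReal (jacM n1 n2 u)).toReal • (g ∘ phiM n1 n2) u) =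
      fun u => g (phiM n1 n2 u) * jacM n1 n2 u := by
    funext u
    rw [ENNReal.toReal_ofReal (jacM_nonneg n1 n2 u), smul_eq_mul, mul_comm]
    rfl
  constructor
  · have h3 := (integrable_withDensity_iff_integrable_smul' hjm hlt).1 h2
    rw [hfun] at h3
    exact h3
  · have h4 : ∫ x, g x = ∫ x, g x ∂(Measure.map (phiM n1 n2) μ) := by rw [hmap]
    rw [h4, integral_map hφ.aemeasurable hm.aestronglyMeasurable, hμ,
      integral_withDensity_eq_integral_toReal_smul hjm hlt]
    have h5 := congrArg (fun F => ∫ u in boxDisc n1 n2, F u) hfun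
    exact h5.symm

end Pool.Agent.Lib.MP_bbe012_lc.CD
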