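import Mathlib
import Pool.Agent.Lib.MP_bbe012_lc.CD.MixB
import Pool.Agent.Lib.MP_bbe012_lc.Region

/-!
# The rational functions on the product of intervals and discs
-/

namespace Pool.Agent.Lib.MP_bbe012_lc.CD

open MeasureTheory Set MvPolynomial HC CV

/-- The common denominator `∏ (1 - u_i^2) ∏ x_j^2`. -/
noncomputable def delP (n1 n2 : ℕ) : MvPolynomial (Fin (n1 + 2 * n2)) ℚ :=
  (∏ i : Fin n1, (1 - X ⟨i, by omega⟩ ^ 2)) * ∏ j : Fin n2, X ⟨n1 + 2 * j, by omega⟩ ^ 2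

/-- The polynomial `∏ (1 - x_j^2 - y_j^2)`. -/
noncomputable def edgP (n1 n2 : ℕ) : MvPolynomial (Fin (n1 + 2 * n2)) ℚ :=
  ∏ j : Fin n2, (1 - (X ⟨n1 + 2 * j, by omega⟩ ^ 2 + X ⟨n1 + 2 * j + 1, by omega⟩ ^ 2))

/-- The points of the product of intervals and discs with all `x_j ≠ 0`. -/
def mixU (n1 n2 : ℕ) : Set (Fin (n1 + 2 * n2) → ℝ) :=
  {u | u ∈ boxDisc n1 n2 ∧ ∀ j : Fin n2, u ⟨n1 + 2 * j, by omega⟩ ≠ 0}

/-- The set `{u | u_i = 0}` is a null set (`Measure.pi_hyperplane` or `volume` of a proper linear subspace). -/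
theorem volume_mixU (n1 n2 : ℕ) : volume (boxDisc n1 n2 \ mixU n1 n2) = 0 := by
  have h1 : boxDisc n1 n2 \ mixU n1 n2 ⊆
      ⋃ j : Fin n2, {u : Fin (n1 + 2 * n2) → ℝ | u ⟨n1 + 2 * j, by omega⟩ = 0} := by
    rintro u ⟨hu, hu'⟩
    by_contra hno
    refine hu' ⟨hu, fun j hj => hno ?_⟩
    exact mem_iUnion.2 ⟨j, hj⟩
  refine measure_mono_null h1 (measure_iUnion_null fun j => ?_)
  rw [volume_pi]
  exact Measure.pi_hyperplane _ _ _

theorem MixC_evR_X {n : ℕ} (i : Fin n) (u : Fin n → ℝ) : evR (X i) u = u i := by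
  unfold evR
  exact aeval_X _ _

theorem MixC_evR_mul {n : ℕ} (p q : MvPolynomial (Fin n) ℚ) (u : Fin n → ℝ) :
    evR (p * q) u = evR p u * evR q u := by
  unfold evR
  exact map_mul _ _ _

theorem MixC_evR_add {n : ℕ} (p q : MvPolynomial (Fin n) ℚ) (u : Fin n → ℝ) :
    evR (p + q) u = evR p u + evR q u := by
  unfold evR
  exact map_add _ _ _

theorem MixC_evR_sub {n : ℕ} (p q : MvPolynomial (Fin n) ℚ) (u : Fin n → ℝ) :
    evR (p - q) u = evR p u - evR q u := by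
  unfold evR
  exact map_sub _ _ _

theorem MixC_evR_one {n : ℕ} (u : Fin n → ℝ) : evR (1 : MvPolynomial (Fin n) ℚ) u = 1 := by
  unfold evR
  exact map_one _

theorem MixC_evR_pow {n : ℕ} (p : MvPolynomial (Fin n) ℚ) (k : ℕ) (u : Fin n → ℝ) :
    evR (p ^ k) u = evR p u ^ k := by
  unfold evR
  exact map_pow _ _ _

theorem MixC_evR_prod {n m : ℕ} (s : Finset (Fin m)) (f : Fin m → MvPolynomial (Fin n) ℚ)
    (u : Fin n → ℝ) : evR (∏ i ∈ s, f i) u = ∏ i ∈ s, evR (f i) u := by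
  unfold evR
  exact map_prod _ _ _

theorem MixC_delP (n1 n2 : ℕ) (u : Fin (n1 + 2 * n2) → ℝ) : evR (delP n1 n2) u =
    (∏ i : Fin n1, (1 - u ⟨i, by omega⟩ ^ 2)) * ∏ j : Fin n2, u ⟨n1 + 2 * j, by omega⟩ ^ 2 := by
  unfold delP
  simp only [MixC_evR_mul, MixC_evR_prod, MixC_evR_sub, MixC_evR_one, MixC_evR_pow, MixC_evR_X]

theorem MixC_edgP (n1 n2 : ℕ) (u : Fin (n1 + 2 * n2) → ℝ) : evR (edgP n1 n2) u =
    ∏ j : Fin n2, (1 - (u ⟨n1 + 2 * j, by omega⟩ ^ 2 + u ⟨n1 + 2 * j + 1, by omega⟩ ^ 2)) := by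
  unfold edgP
  simp only [MixC_evR_prod, MixC_evR_sub, MixC_evR_one, MixC_evR_add, MixC_evR_pow, MixC_evR_X]

theorem MixC_abs {n1 n2 : ℕ} {u : Fin (n1 + 2 * n2) → ℝ} (hu : u ∈ boxDisc n1 n2) (i : Fin n1) :
    |u ⟨i, by omega⟩| < 1 := hu.1 i

theorem delP_pos {n1 n2 : ℕ} {u : Fin (n1 + 2 * n2) → ℝ} (hu : u ∈ mixU n1 n2) :
    0 < evR (delP n1 n2) u := by
  rw [MixC_delP]
  refine mul_pos (Finset.prod_pos fun i _ => ?_) (Finset.prod_pos fun j _ => ?_)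
  · have h1 := (sq_lt_one_iff_abs_lt_one _).2 (MixC_abs hu.1 i)
    linarith
  · have h1 := hu.2 j
    positivity

theorem edgP_pos {n1 n2 : ℕ} {u : Fin (n1 + 2 * n2) → ℝ} (hu : u ∈ mixU n1 n2) :
    0 < evR (edgP n1 n2) u := by
  rw [MixC_edgP]
  refine Finset.prod_pos fun j _ => ?_
  have h1 := hu.1.2 j
  linarith

theorem MixC_del_left {n1 n2 : ℕ} {u : Fin (n1 + 2 * n2) → ℝ} (hu : evR (delP n1 n2) u ≠ 0)
    (i : Fin n1) : 1 - u ⟨i, by omega⟩ ^ 2 ≠ 0 := by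
  rw [MixC_delP] at hu
  exact Finset.prod_ne_zero_iff.1 (left_ne_zero_of_mul hu) i (Finset.mem_univ i)

theorem MixC_del_right {n1 n2 : ℕ} {u : Fin (n1 + 2 * n2) → ℝ} (hu : evR (delP n1 n2) u ≠ 0)
    (j : Fin n2) : u ⟨n1 + 2 * j, by omega⟩ ≠ 0 := by
  rw [MixC_delP] at hu
  have h1 := Finset.prod_ne_zero_iff.1 (right_ne_zero_of_mul hu) j (Finset.mem_univ j)
  exact fun h => h1 (by rw [h]; norm_num)

/-- The variables. -/
theorem MixC_var (n1 n2 : ℕ) (i : Fin (n1 + n2)) :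
    ∃ V : MvPolynomial (Fin (n1 + 2 * n2)) ℚ, ∀ u : Fin (n1 + 2 * n2) → ℝ,
      evR (delP n1 n2) u ≠ 0 → evR V u = evR (delP n1 n2) u * phiM n1 n2 u i := by
  by_cases h : (i : ℕ) < n1
  · refine ⟨X ⟨i, by omega⟩ *
      ((∏ l ∈ Finset.univ.erase (⟨i, h⟩ : Fin n1), (1 - X ⟨l, by omega⟩ ^ 2)) *
        ∏ j : Fin n2, X ⟨n1 + 2 * j, by omega⟩ ^ 2), fun u hu => ?_⟩
    have h1 := MixC_del_left hu ⟨i, h⟩
    rw [MixC_delP, ← Finset.mul_prod_erase Finset.univ _ (Finset.mem_univ (⟨i, h⟩ : Fin n1))]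
    simp only [MixC_evR_mul, MixC_evR_prod, MixC_evR_sub, MixC_evR_one, MixC_evR_pow, MixC_evR_X]
    unfold phiM
    rw [dif_pos h]
    simp only at h1
    field_simp
  · refine ⟨(X ⟨n1 + 2 * (i - n1), by omega⟩ * X ⟨n1 + 2 * (i - n1) + 1, by omega⟩) *
      ((∏ l : Fin n1, (1 - X ⟨l, by omega⟩ ^ 2)) *
        ∏ j ∈ Finset.univ.erase (⟨i - n1, by omega⟩ : Fin n2), X ⟨n1 + 2 * j, by omega⟩ ^ 2),
      fun u hu => ?_⟩
    have h1 := MixC_del_right hu ⟨i - n1, by omega⟩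
    rw [MixC_delP, ← Finset.mul_prod_erase (Finset.univ : Finset (Fin n2)) _
      (Finset.mem_univ (⟨i - n1, by omega⟩ : Fin n2))]
    simp only [MixC_evR_mul, MixC_evR_prod, MixC_evR_sub, MixC_evR_one, MixC_evR_pow, MixC_evR_X]
    unfold phiM
    rw [dif_neg h]
    simp only at h1
    field_simp

/-- The composition of a polynomial with `phiM`: induction on the polynomial (`MvPolynomial.induction_on`); for the variables `u_i / (1 - u_i^2) * delP` and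
`(y_j / x_j) * delP = y_j x_j * ..` are polynomials; for sums multiply by powers of `delP`. -/
theorem exists_comp (n1 n2 : ℕ) (A : MvPolynomial (Fin (n1 + n2)) ℚ) :
    ∃ (k : ℕ) (A' : MvPolynomial (Fin (n1 + 2 * n2)) ℚ), ∀ u : Fin (n1 + 2 * n2) → ℝ,
      evR (delP n1 n2) u ≠ 0 → evR A' u = evR (delP n1 n2) u ^ k * evR A (phiM n1 n2 u) := by
  induction A using MvPolynomial.induction_on with
  | C a =>
    refine ⟨0, C a, fun u _ => ?_⟩
    unfold evR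
    rw [pow_zero, one_mul, aeval_C, aeval_C]
  | add p q hp hq =>
    obtain ⟨k, p', hp'⟩ := hp
    obtain ⟨l, q', hq'⟩ := hq
    refine ⟨k + l, delP n1 n2 ^ l * p' + delP n1 n2 ^ k * q', fun u hu => ?_⟩
    rw [MixC_evR_add, MixC_evR_mul, MixC_evR_mul, MixC_evR_pow, MixC_evR_pow, hp' u hu, hq' u hu,
      MixC_evR_add, pow_add]
    ring
  | mul_X p i hp =>
    obtain ⟨k, p', hp'⟩ := hp
    obtain ⟨V, hV⟩ := MixC_var n1 n2 i
    refine ⟨k + 1, p' * V, fun u hu => ?_⟩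
    rw [MixC_evR_mul, MixC_evR_mul, MixC_evR_X, hp' u hu, hV u hu, pow_succ]
    ring

/-- `J' = ∏ (1 + u_i^2) ∏ (x_j^2 + y_j^2) x_j^2`. -/
theorem exists_jac (n1 n2 : ℕ) : ∃ J' : MvPolynomial (Fin (n1 + 2 * n2)) ℚ,
    ∀ u : Fin (n1 + 2 * n2) → ℝ, evR (delP n1 n2) u ≠ 0 →
      evR J' u = evR (delP n1 n2) u ^ 2 * jacM n1 n2 u := by
  refine ⟨(∏ i : Fin n1, (1 + X ⟨i, by omega⟩ ^ 2)) *
    ∏ j : Fin n2, ((X ⟨n1 + 2 * j, by omega⟩ ^ 2 + X ⟨n1 + 2 * j + 1, by omega⟩ ^ 2) *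
      X ⟨n1 + 2 * j, by omega⟩ ^ 2), fun u hu => ?_⟩
  rw [MixC_delP]
  unfold jacM
  simp only [MixC_evR_mul, MixC_evR_prod, MixC_evR_add, MixC_evR_one, MixC_evR_pow, MixC_evR_X]
  have e1 : ∏ i : Fin n1, (1 + u ⟨i, by omega⟩ ^ 2) =
      (∏ i : Fin n1, (1 - u ⟨i, by omega⟩ ^ 2)) ^ 2 *
        ∏ i : Fin n1, (1 + u ⟨i, by omega⟩ ^ 2) / (1 - u ⟨i, by omega⟩ ^ 2) ^ 2 := by
    rw [← Finset.prod_pow, ← Finset.prod_mul_distrib]
    refine Finset.prod_congr rfl fun i _ => ?_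
    have h1 := MixC_del_left hu i
    field_simp
  have e2 : ∏ j : Fin n2, ((u ⟨n1 + 2 * j, by omega⟩ ^ 2 + u ⟨n1 + 2 * j + 1, by omega⟩ ^ 2) *
      u ⟨n1 + 2 * j, by omega⟩ ^ 2) =
      (∏ j : Fin n2, u ⟨n1 + 2 * j, by omega⟩ ^ 2) ^ 2 *
        ∏ j : Fin n2, (u ⟨n1 + 2 * j, by omega⟩ ^ 2 + u ⟨n1 + 2 * j + 1, by omega⟩ ^ 2) /
          u ⟨n1 + 2 * j, by omega⟩ ^ 2 := by
    rw [← Finset.prod_pow, ← Finset.prod_mul_distrib]
    refine Finset.prod_congr rfl fun j _ => ?_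
    have h1 := MixC_del_right hu j
    field_simp
  rw [e1, e2]
  ring

/-- If a polynomial is a multiple of `delP` and `edgP` and is positive on `mixU`, then `mixU` is a region (as `prepR_region` in HC/Prep.lean): a point at which the
polynomial does not vanish has all `|u_i| ≠ 1`, `|w_j| ≠ 1`, `x_j ≠ 0`. -/
theorem region_mixU {n1 n2 : ℕ} {h g : MvPolynomial (Fin (n1 + 2 * n2)) ℚ}
    (hh : h = g * (delP n1 n2 * edgP n1 n2)) (hpos : ∀ u ∈ mixU n1 n2, 0 < evR h u) :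
    Region h (mixU n1 n2) := by
  refine ⟨?_, hpos, fun x hx => ?_⟩
  · exact isBounded_cube.subset fun u hu => boxDisc_sub_cube n1 n2 hu.1
  rw [hh, MixC_evR_mul, MixC_evR_mul] at hx
  have hd : evR (delP n1 n2) x ≠ 0 := left_ne_zero_of_mul (right_ne_zero_of_mul hx)
  have he : evR (edgP n1 n2) x ≠ 0 := right_ne_zero_of_mul (right_ne_zero_of_mul hx)
  by_cases hc : x ∈ mixU n1 n2
  · left
    have hopen : IsOpen (mixU n1 n2) := by
      have e : mixU n1 n2 = (⋂ i : Fin n1, {u : Fin (n1 + 2 * n2) → ℝ | |u ⟨i, by omega⟩| < 1}) ∩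
          ((⋂ j : Fin n2, {u : Fin (n1 + 2 * n2) → ℝ |
            u ⟨n1 + 2 * j, by omega⟩ ^ 2 + u ⟨n1 + 2 * j + 1, by omega⟩ ^ 2 < 1}) ∩
            ⋂ j : Fin n2, {u : Fin (n1 + 2 * n2) → ℝ | u ⟨n1 + 2 * j, by omega⟩ ≠ 0}) := by
        ext u
        rw [mem_inter_iff, mem_inter_iff, mem_iInter, mem_iInter, mem_iInter]
        exact ⟨fun h => ⟨h.1.1, h.1.2, h.2⟩, fun h => ⟨⟨h.1, h.2.1⟩, h.2.2⟩⟩
      rw [e]
      refine (isOpen_iInter_of_finite fun i => ?_).inter ((isOpen_iInter_of_finite fun j => ?_).inter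
        (isOpen_iInter_of_finite fun j => ?_))
      · exact isOpen_lt (continuous_apply _).abs continuous_const
      · exact isOpen_lt (by fun_prop) continuous_const
      · exact isOpen_ne_fun (continuous_apply _) continuous_const
    exact hopen.mem_nhds hc
  right
  by_cases h1 : ∀ i : Fin n1, |x ⟨i, by omega⟩| < 1
  · have h2 : ∃ j : Fin n2, ¬ x ⟨n1 + 2 * j, by omega⟩ ^ 2 + x ⟨n1 + 2 * j + 1, by omega⟩ ^ 2 < 1 := by
      by_contra hno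
      push Not at hno
      exact hc ⟨⟨h1, hno⟩, fun j => MixC_del_right hd j⟩
    obtain ⟨j, hj⟩ := h2
    have h3 : 1 < x ⟨n1 + 2 * j, by omega⟩ ^ 2 + x ⟨n1 + 2 * j + 1, by omega⟩ ^ 2 := by
      refine lt_of_le_of_ne (not_lt.1 hj) fun h4 => he ?_
      rw [MixC_edgP]
      exact Finset.prod_eq_zero (Finset.mem_univ j) (by rw [← h4, sub_self])
    have hopen : IsOpen {u : Fin (n1 + 2 * n2) → ℝ |
        1 < u ⟨n1 + 2 * j, by omega⟩ ^ 2 + u ⟨n1 + 2 * j + 1, by omega⟩ ^ 2} :=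
      isOpen_lt continuous_const (by fun_prop)
    refine Filter.mem_of_superset (hopen.mem_nhds h3) fun u hu huc => ?_
    exact absurd (huc.1.2 j) (not_lt.2 (le_of_lt hu))
  · push Not at h1
    obtain ⟨i, hi⟩ := h1
    have h3 : 1 < |x ⟨i, by omega⟩| := by
      refine lt_of_le_of_ne hi fun h4 => MixC_del_left hd i ?_
      rw [← sq_abs, ← h4]
      norm_num
    have hopen : IsOpen {u : Fin (n1 + 2 * n2) → ℝ | 1 < |u ⟨i, by omega⟩|} :=
      isOpen_lt continuous_const (continuous_apply _).abs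
    refine Filter.mem_of_superset (hopen.mem_nhds h3) fun u hu huc => ?_
    exact absurd (huc.1.1 i) (not_lt.2 (le_of_lt hu))

end Pool.Agent.Lib.MP_bbe012_lc.CD
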