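import Mathlib
import Pool.Agent.Lib.MP_bbe012_lc.CD.MixC

/-!
# Integrals over the whole space: assembly
-/

namespace Pool.Agent.Lib.MP_bbe012_lc.CD

open MeasureTheory Set MvPolynomial HC CV

/-- `exists_comp` for the numerator and the denominator, `exists_jac`: with `Δ = delP`, `E = edgP`, `P = A' Δ^kB J' Δ E`, `Q = B' Δ^kA Δ^2 Δ E`;
codes by `exists_pcPoly` (`evR (pcPoly n p) x = pcEval n p x` is `rfl`); `integral_phiM` for `g = A / B`, `volume_mixU`, `setIntegral_congr_set`. -/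
theorem exists_mix (n1 n2 : ℕ) {A B : PCode} (hB : ∀ x : Fin (n1 + n2) → ℝ, 1 ≤ pcEval (n1 + n2) B x)
    (hi : Integrable fun x : Fin (n1 + n2) → ℝ => pcEval (n1 + n2) A x / pcEval (n1 + n2) B x) :
    ∃ P Q : PCode, Region (pcPoly (n1 + 2 * n2) Q) (mixU n1 n2) ∧
      IntegrableOn (fun x => pcEval (n1 + 2 * n2) P x / pcEval (n1 + 2 * n2) Q x) (mixU n1 n2) ∧
      ∫ x in mixU n1 n2, pcEval (n1 + 2 * n2) P x / pcEval (n1 + 2 * n2) Q x =
        ∫ x : Fin (n1 + n2) → ℝ, pcEval (n1 + n2) A x / pcEval (n1 + n2) B x := by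
  obtain ⟨kA, A', hA'⟩ := exists_comp n1 n2 (pcPoly (n1 + n2) A)
  obtain ⟨kB, B', hB'⟩ := exists_comp n1 n2 (pcPoly (n1 + n2) B)
  obtain ⟨J', hJ'⟩ := exists_jac n1 n2
  obtain ⟨P, hP⟩ := exists_pcPoly (A' * delP n1 n2 ^ kB * J' * (delP n1 n2 * edgP n1 n2))
  obtain ⟨Q, hQ⟩ := exists_pcPoly (B' * delP n1 n2 ^ kA * delP n1 n2 ^ 2 * (delP n1 n2 * edgP n1 n2))
  have evP : ∀ x : Fin (n1 + 2 * n2) → ℝ, pcEval (n1 + 2 * n2) P x =
      evR A' x * evR (delP n1 n2) x ^ kB * evR J' x * (evR (delP n1 n2) x * evR (edgP n1 n2) x) := by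
    intro x
    have h1 : pcEval (n1 + 2 * n2) P x = evR (pcPoly (n1 + 2 * n2) P) x := rfl
    rw [h1, hP]
    simp only [MixC_evR_mul, MixC_evR_pow]
  have evQ : ∀ x : Fin (n1 + 2 * n2) → ℝ, pcEval (n1 + 2 * n2) Q x =
      evR B' x * evR (delP n1 n2) x ^ kA * evR (delP n1 n2) x ^ 2 *
        (evR (delP n1 n2) x * evR (edgP n1 n2) x) := by
    intro x
    have h1 : pcEval (n1 + 2 * n2) Q x = evR (pcPoly (n1 + 2 * n2) Q) x := rfl
    rw [h1, hQ]
    simp only [MixC_evR_mul, MixC_evR_pow]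
  have evA : ∀ x : Fin (n1 + 2 * n2) → ℝ, evR (pcPoly (n1 + n2) A) (phiM n1 n2 x) =
      pcEval (n1 + n2) A (phiM n1 n2 x) := fun _ => rfl
  have evB : ∀ x : Fin (n1 + 2 * n2) → ℝ, evR (pcPoly (n1 + n2) B) (phiM n1 n2 x) =
      pcEval (n1 + n2) B (phiM n1 n2 x) := fun _ => rfl
  have hBpos : ∀ x : Fin (n1 + 2 * n2) → ℝ, 0 < pcEval (n1 + n2) B (phiM n1 n2 x) :=
    fun x => lt_of_lt_of_le one_pos (hB _)
  have hQpos : ∀ x ∈ mixU n1 n2, 0 < evR (pcPoly (n1 + 2 * n2) Q) x := by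
    intro x hx
    have h1 : evR (pcPoly (n1 + 2 * n2) Q) x = pcEval (n1 + 2 * n2) Q x := rfl
    have h2 := delP_pos hx
    have h3 := edgP_pos hx
    have h4 := hBpos x
    rw [h1, evQ x, hB' x h2.ne', evB x]
    positivity
  have hval : ∀ x ∈ mixU n1 n2, pcEval (n1 + 2 * n2) P x / pcEval (n1 + 2 * n2) Q x =
      (fun y : Fin (n1 + n2) → ℝ => pcEval (n1 + n2) A y / pcEval (n1 + n2) B y) (phiM n1 n2 x) *
        jacM n1 n2 x := by
    intro x hx
    have h2 := delP_pos hx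
    have h3 := edgP_pos hx
    have h4 := hBpos x
    rw [evP x, evQ x, hA' x h2.ne', hB' x h2.ne', hJ' x h2.ne', evA x, evB x]
    have h2' := h2.ne'
    have h3' := h3.ne'
    have h4' := h4.ne'
    show _ = pcEval (n1 + n2) A (phiM n1 n2 x) / pcEval (n1 + n2) B (phiM n1 n2 x) * jacM n1 n2 x
    field_simp
  have hm : Measurable fun y : Fin (n1 + n2) → ℝ => pcEval (n1 + n2) A y / pcEval (n1 + n2) B y :=
    (measurable_pcEval _ _).div (measurable_pcEval _ _)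
  obtain ⟨h5, h6⟩ := integral_phiM n1 n2 hm hi
  have hreg : Region (pcPoly (n1 + 2 * n2) Q) (mixU n1 n2) :=
    region_mixU (g := B' * delP n1 n2 ^ kA * delP n1 n2 ^ 2) hQ hQpos
  have hsub : mixU n1 n2 ⊆ boxDisc n1 n2 := fun u hu => hu.1
  have hms : MeasurableSet (mixU n1 n2) := hreg.isOpen.measurableSet
  have hae : (mixU n1 n2 : Set (Fin (n1 + 2 * n2) → ℝ)) =ᵐ[volume] boxDisc n1 n2 := by
    refine Filter.EventuallyLE.antisymm (Filter.Eventually.of_forall fun u hu => hsub hu) ?_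
    exact ae_le_set.2 (volume_mixU n1 n2)
  refine ⟨P, Q, hreg, ?_, ?_⟩
  · refine (h5.mono_set hsub).congr_fun (fun x hx => ?_) hms
    exact (hval x hx).symm
  · rw [setIntegral_congr_fun hms hval, setIntegral_congr_set hae, h6]

end Pool.Agent.Lib.MP_bbe012_lc.CD
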