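import Mathlib
import Pool.Agent.Lib.MP_bbe012_lc.CD.Defs
import Pool.Agent.Lib.MP_bbe012_lc.CV.PrimB

/-!
# The codes are primitive recursive
-/

namespace Pool.Agent.Lib.MP_bbe012_lc.CD

open Primrec HC CV

variable {α : Type} [Primcodable α]

private theorem PrimD_qinv {c : α → ℕ} (hc : Primrec c) :
    Primrec fun a => ([(qinv (c a), [])] : PCode) :=
  pr_const1 (pair (const (1, 0)) hc)

private theorem PrimD_odd {i : α → ℕ} (hi : Primrec i) :
    Primrec fun a => pcProdRange (i a) fun l => pcNat (2 * l + 1) :=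
  pr_prodRange (g := fun _ l => pcNat (2 * l + 1)) hi
    (pr_natv (succ.comp (nat_mul.comp (const 2) snd))).to₂

theorem pr_dMom {i j : α → ℕ} (hi : Primrec i) (hj : Primrec j) :
    Primrec fun a => dMom (i a) (j a) :=
  pr_mul (PrimD_qinv (nat_add.comp hi hj)) (pr_mul (PrimD_odd hi) (pr_mul (PrimD_odd hj)
    (pr_prodRange (g := fun _ l => [(qinv (2 * l + 1), [])]) (nat_add.comp hi hj)
      (PrimD_qinv (succ.comp (nat_mul.comp (const 2) snd))).to₂)))

private theorem PrimD_iFac {e : α → List ℕ} {i : α → ℕ} (he : Primrec e) (hi : Primrec i) :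
    Primrec fun a => iFac (e a) (i a) := by
  have hg : Primrec fun a => (e a).getD (i a) 0 := (list_getD 0).comp he hi
  have hc : PrimrecPred fun a => (e a).getD (i a) 0 % 2 = 1 :=
    Primrec.eq.comp (nat_mod.comp hg (const 2)) (const 1)
  exact Primrec.ite hc (const []) (PrimD_qinv hg)

private theorem PrimD_dFac {n j : α → ℕ} {e : α → List ℕ} (hn : Primrec n) (he : Primrec e)
    (hj : Primrec j) : Primrec fun a => dFac (n a) (e a) (j a) := by
  have h0 : Primrec fun a => n a + 2 * j a := nat_add.comp hn (nat_mul.comp (const 2) hj)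
  have hg : Primrec fun a => (e a).getD (n a + 2 * j a) 0 := (list_getD 0).comp he h0
  have hg' : Primrec fun a => (e a).getD (n a + 2 * j a + 1) 0 :=
    (list_getD 0).comp he (succ.comp h0)
  have hc : PrimrecPred fun a => (e a).getD (n a + 2 * j a) 0 % 2 = 1 ∨
      (e a).getD (n a + 2 * j a + 1) 0 % 2 = 1 :=
    (Primrec.eq.comp (nat_mod.comp hg (const 2)) (const 1)).or
      (Primrec.eq.comp (nat_mod.comp hg' (const 2)) (const 1))
  exact Primrec.ite hc (const []) (pr_dMom (nat_div.comp hg (const 2)) (nat_div.comp hg' (const 2)))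

/-- As `pr_pcInt` in CV/Prim.lean. -/
theorem pr_pcAv {n m : α → ℕ} {p : α → PCode} (hn : Primrec n) (hm : Primrec m) (hp : Primrec p) :
    Primrec fun a => pcAv (n a) (m a) (p a) := by
  have h1 : Primrec₂ fun (z : α × (QCode × List ℕ)) (i : ℕ) => iFac z.2.2 i :=
    (PrimD_iFac (snd.comp (snd.comp fst)) snd).to₂
  have h2 : Primrec₂ fun (z : α × (QCode × List ℕ)) (j : ℕ) => dFac (n z.1) z.2.2 j :=
    (PrimD_dFac (hn.comp (fst.comp fst)) (snd.comp (snd.comp fst)) snd).to₂
  have h3 : Primrec fun z : α × (QCode × List ℕ) => pcProdRange (n z.1) (iFac z.2.2) :=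
    pr_prodRange (g := fun (z : α × (QCode × List ℕ)) i => iFac z.2.2 i) (hn.comp fst) h1
  have h4 : Primrec fun z : α × (QCode × List ℕ) => pcProdRange (m z.1) (dFac (n z.1) z.2.2) :=
    pr_prodRange (g := fun (z : α × (QCode × List ℕ)) j => dFac (n z.1) z.2.2 j)
      (hm.comp fst) h2
  have h5 : Primrec fun z : α × (QCode × List ℕ) => ([(z.2.1, [])] : PCode) :=
    pr_const1 (fst.comp snd)
  exact list_flatMap hp (pr_mul h5 (pr_mul h3 h4)).to₂

theorem pr_nextQD {n m k T Y : α → ℕ} {f q : α → PCode} (hn : Primrec n) (hm : Primrec m)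
    (hk : Primrec k) (hT : Primrec T) (hY : Primrec Y) (hf : Primrec f) (hq : Primrec q) :
    Primrec fun a => nextQD (n a) (m a) (k a) (T a) (Y a) (f a) (q a) := by
  have ha : Primrec fun a => Y a ^ 2 * (k a + 1) - 1 :=
    nat_sub.comp (nat_mul.comp (pr_natPow hY (const 2)) (succ.comp hk)) (const 1)
  have hb : Primrec fun a => T a ^ 2 * (k a + 2) - 1 :=
    nat_sub.comp (nat_mul.comp (pr_natPow hT (const 2)) (nat_add.comp hk (const 2))) (const 1)
  exact pr_mul (PrimD_qinv ha) (pr_append (pr_pcAv hn (succ.comp hm) (pr_pow hf (succ.comp hk)))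
    (pr_mul (PrimD_qinv hb) hq))

/-- As `primrec_step` in CV/Prim.lean. -/
theorem pr_stepD {n k : α → ℕ} {s : α → St} (hn : Primrec n) (hk : Primrec k) (hs : Primrec s) :
    Primrec fun a => stepD (n a) (k a) (s a) := by
  have hm : Primrec fun a => (s a).1.1 := fst.comp (fst.comp hs)
  have hS : Primrec fun a => (s a).1.2 := snd.comp (fst.comp hs)
  have hq : Primrec fun a => (s a).2 := snd.comp hs
  have hN : Primrec fun a => n a + 2 * (s a).1.1 :=
    nat_add.comp hn (nat_mul.comp (const 2) hm)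
  have hp : Primrec fun a => pick (trS (n a + 2 * (s a).1.1) (s a).1.2) := pr_pick (pr_trS hN hS)
  have hL : Primrec fun a => (pick (trS (n a + 2 * (s a).1.1) (s a).1.2)).1 := fst.comp hp
  have hR : Primrec fun a => (pick (trS (n a + 2 * (s a).1.1) (s a).1.2)).2 := snd.comp hp
  have hT : Primrec fun a => tB (pick (trS (n a + 2 * (s a).1.1) (s a).1.2)).1
      (pick (trS (n a + 2 * (s a).1.1) (s a).1.2)).2 := pr_tB hL hR
  have hY := pr_yB hN hT hL hR
  exact pair (pair (nat_add.comp hm (const 2)) (pr_nextS hN hT hY hL hR))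
    (pr_nextQD hn hm hk hT hY (pr_fC hN hT hL hR) hq)

/-- As `pr_run` in CV/Prim.lean. -/
theorem pr_runD {n κ j : α → ℕ} {s : α → St} (hn : Primrec n) (hκ : Primrec κ) (hs : Primrec s)
    (hj : Primrec j) : Primrec fun a => runD (n a) (κ a) (s a) (j a) := by
  refine nat_rec' (f := j) (g := s)
    (h := fun a (q : ℕ × St) => stepD (n a) (2 * (κ a - 1 - q.1)) q.2) hj hs ?_
  have h1 : Primrec fun z : α × (ℕ × St) => 2 * (κ z.1 - 1 - z.2.1) :=
    nat_mul.comp (const 2) (nat_sub.comp (nat_sub.comp (hκ.comp fst) (const 1)) (fst.comp snd))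
  exact (pr_stepD (hn.comp fst) h1 (snd.comp snd)).to₂

private theorem PrimD_swE {n1 n2 k : α → ℕ} {e : α → List ℕ} (h1 : Primrec n1) (h2 : Primrec n2)
    (hk : Primrec k) (he : Primrec e) : Primrec fun a => swE (n1 a) (n2 a) (k a) (e a) := by
  have hr : Primrec fun a => List.range (n1 a + k a + 2 * n2 a) :=
    list_range.comp (nat_add.comp (nat_add.comp h1 hk) (nat_mul.comp (const 2) h2))
  have hc1 : PrimrecPred fun z : α × ℕ => z.2 < n1 z.1 := nat_lt.comp snd (h1.comp fst)
  have hc2 : PrimrecPred fun z : α × ℕ => z.2 < n1 z.1 + k z.1 :=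
    nat_lt.comp snd (nat_add.comp (h1.comp fst) (hk.comp fst))
  have hi : Primrec fun z : α × ℕ => if z.2 < n1 z.1 then z.2 else
      if z.2 < n1 z.1 + k z.1 then z.2 + 2 * n2 z.1 else z.2 - k z.1 :=
    Primrec.ite hc1 snd (Primrec.ite hc2
      (nat_add.comp snd (nat_mul.comp (const 2) (h2.comp fst))) (nat_sub.comp snd (hk.comp fst)))
  exact list_map (g := fun a i => (e a).getD (if i < n1 a then i else
    if i < n1 a + k a then i + 2 * n2 a else i - k a) 0) hr
    ((list_getD 0).comp (he.comp fst) hi).to₂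

theorem pr_swP {n1 n2 k : α → ℕ} {p : α → PCode} (h1 : Primrec n1) (h2 : Primrec n2)
    (hk : Primrec k) (hp : Primrec p) : Primrec fun a => swP (n1 a) (n2 a) (k a) (p a) :=
  list_map (g := fun a (t : QCode × List ℕ) => (t.1, swE (n1 a) (n2 a) (k a) t.2)) hp
    (pair (fst.comp snd) (PrimD_swE (h1.comp fst) (h2.comp fst) (hk.comp fst)
      (snd.comp snd))).to₂

theorem pr_swS {n1 n2 k : α → ℕ} {S : α → SCode} (h1 : Primrec n1) (h2 : Primrec n2)
    (hk : Primrec k) (hS : Primrec S) : Primrec fun a => swS (n1 a) (n2 a) (k a) (S a) := by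
  have h3 : Primrec₂ fun (a : α × List PCode) (q : PCode) =>
      swP (n1 a.1) (n2 a.1) (k a.1) q :=
    (pr_swP (h1.comp (fst.comp fst)) (h2.comp (fst.comp fst)) (hk.comp (fst.comp fst)) snd).to₂
  have h4 : Primrec₂ fun (a : α) (L : List PCode) => L.map (swP (n1 a) (n2 a) (k a)) :=
    (list_map (f := fun p : α × List PCode => p.2)
      (g := fun (p : α × List PCode) (q : PCode) => swP (n1 p.1) (n2 p.1) (k p.1) q) snd h3).to₂
  exact list_map hS h4

private theorem PrimD_nsq {i : α → ℕ} (hi : Primrec i) : Primrec fun a => nsq (i a) :=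
  pr_append (pr_mul (pr_var hi) (pr_var hi))
    (pr_mul (pr_var (succ.comp hi)) (pr_var (succ.comp hi)))

private theorem PrimD_offC {i j : α → ℕ} (hi : Primrec i) (hj : Primrec j) :
    Primrec fun a => offC (i a) (j a) := by
  have h1 : Primrec fun a => pcMul (pcNat 2) (pcVar (i a)) ++ pcNeg (pcVar (j a)) :=
    pr_append (pr_mul (pr_nat 2) (pr_var hi)) (pr_neg (pr_var hj))
  have h2 : Primrec fun a => pcMul (pcNat 2) (pcVar (i a + 1)) :=
    pr_mul (pr_nat 2) (pr_var (succ.comp hi))
  exact pr_append (pr_mul h1 h1) (pr_mul h2 h2)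

private theorem PrimD_psiC {N : α → ℕ} (hN : Primrec N) : Primrec fun a => psiC (N a) :=
  pr_append (PrimD_offC (nat_add.comp hN (const 2)) hN)
    (pr_append (pr_mul (pr_nat 17) (pr_append (pr_nat 1) (pr_neg (PrimD_nsq hN))))
      (PrimD_nsq (nat_add.comp hN (const 4))))

private theorem PrimD_scC {h q : α → PCode} (hh : Primrec h) (hq : Primrec q) :
    Primrec fun a => scC (h a) (q a) :=
  nat_add.comp (nat_add.comp (nat_mul.comp (const 12) (primrec_pcK.comp hh))
    (nat_mul.comp (const 4) (primrec_pcK.comp hq))) (const 4)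

private theorem PrimD_mC {n m : α → ℕ} {h q : α → PCode} (hn : Primrec n) (hm : Primrec m)
    (hh : Primrec h) (hq : Primrec q) : Primrec fun a => mC (n a) (m a) (h a) (q a) := by
  have hs := PrimD_scC hh hq
  have h1 : Primrec fun a => 1632 * scC (h a) (q a) ^ 3 - 1 :=
    nat_sub.comp (nat_mul.comp (const 1632) (pr_natPow hs (const 3))) (const 1)
  have h2 : Primrec fun a => pcNat (45 * scC (h a) (q a)) :=
    pr_natv (nat_mul.comp (const 45) hs)
  exact pr_mul (pr_nat 2) (pr_append (pr_mul (PrimD_qinv (const 3)) h2)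
    (pr_append (pr_neg (pr_pcAv hn hm hh)) (pr_mul (PrimD_qinv h1) hq)))

theorem pr_gadC {n m : α → ℕ} {h q : α → PCode} (hn : Primrec n) (hm : Primrec m)
    (hh : Primrec h) (hq : Primrec q) : Primrec fun a => gadC (n a) (m a) (h a) (q a) := by
  have hN : Primrec fun a => n a + 2 * m a := nat_add.comp hn (nat_mul.comp (const 2) hm)
  exact pr_append hh (pr_append (pr_neg (pr_mul (pr_natv (PrimD_scC hh hq)) (PrimD_psiC hN)))
    (pr_mul (PrimD_mC hn hm hh hq) (PrimD_nsq (nat_add.comp hN (const 6)))))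

end Pool.Agent.Lib.MP_bbe012_lc.CD
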