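import Mathlib
import Pool.Agent.Lib.MP_bbe012_lc.CD.PrimD

/-!
# The final polynomial is computable
-/

namespace Pool.Agent.Lib.MP_bbe012_lc.CD

open Primrec HC CV

/-- The cubic polynomial for a cube (`n2 = 0`). -/
def coinR (R : ℕ × PCode × PCode) (c : CC) : (ℕ × ℕ) × PCode := coinD R.1 0 R.2.1 R.2.2 c

section General

variable {α : Type} [Primcodable α]

private theorem PrimE_qinv {i : α → ℕ} (hi : Primrec i) : Primrec fun a => qinv (i a) :=
  pair (const (1, 0)) hi

private theorem PrimE_c0C {m T : α → ℕ} (hm : Primrec m) (hT : Primrec T) :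
    Primrec fun a => c0C (m a) (T a) := by
  have h : Primrec₂ fun (a : α) (i : ℕ) => ([(qinv (m a + i), [])] : PCode) :=
    pr_const1 (PrimE_qinv (nat_add.comp (hm.comp fst) snd))
  exact pr_mul (pr_pow (pr_const1 (PrimE_qinv (nat_sub.comp hT (const 1)))) (succ.comp hm))
    (pr_prodRange (g := fun a i => [(qinv (m a + i), [])]) (succ.comp hm) h)

/-- The initial rational number. -/
theorem PrimE_q0D {n1 n2 r m : α → ℕ} {P Q : α → PCode} {rows : α → List (List QCode)}
    (h1 : Primrec n1) (h2 : Primrec n2) (hr : Primrec r) (hm : Primrec m) (hP : Primrec P)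
    (hQ : Primrec Q) (hrows : Primrec rows) :
    Primrec fun a => q0D (n1 a) (n2 a) (r a) (m a) (P a) (Q a) (rows a) := by
  have hn : Primrec fun a => n1 a + 2 * n2 a := nat_add.comp h1 (nat_mul.comp (const 2) h2)
  have he : Primrec fun a => (r a + 1) * (2 * m a + 1) :=
    nat_mul.comp (succ.comp hr) (succ.comp (nat_mul.comp (const 2) hm))
  have h0 : Primrec fun _ : α => ([(qinv 1, [])] : PCode) := const _
  exact pr_mul (pr_pow h0 (succ.comp hm)) (pr_mul (PrimE_c0C hm (pr_t0C hn hr hP hQ hrows))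
    (pr_mul (pr_natv (pr_kC hn hr hP hQ hrows))
      (pr_pcAv h1 h2 (pr_pow (pr_trunc hn hQ) he))))

end General

private theorem PrimE_n : Primrec fun x : (ℕ × PCode × PCode) × CC => x.1.1 := fst.comp fst

private theorem PrimE_P : Primrec fun x : (ℕ × PCode × PCode) × CC => x.1.2.1 :=
  fst.comp (snd.comp fst)

private theorem PrimE_Q : Primrec fun x : (ℕ × PCode × PCode) × CC => x.1.2.2 :=
  snd.comp (snd.comp fst)

private theorem PrimE_r : Primrec fun x : (ℕ × PCode × PCode) × CC => x.2.1.1.1 :=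
  fst.comp (fst.comp (fst.comp snd))

private theorem PrimE_kap : Primrec fun x : (ℕ × PCode × PCode) × CC => x.2.1.1.2 :=
  snd.comp (fst.comp (fst.comp snd))

private theorem PrimE_rows : Primrec fun x : (ℕ × PCode × PCode) × CC => x.2.2.1.2 :=
  snd.comp (fst.comp (snd.comp snd))

private theorem PrimE_two : Primrec fun x : (ℕ × PCode × PCode) × CC => 2 * x.2.1.1.2 :=
  nat_mul.comp (const 2) PrimE_kap

private theorem PrimE_k : Primrec fun x : (ℕ × PCode × PCode) × CC =>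
    x.2.1.1.1 + 1 + 2 * x.2.1.1.2 :=
  nat_add.comp (succ.comp PrimE_r) PrimE_two

private theorem PrimE_nI : Primrec fun x : (ℕ × PCode × PCode) × CC => nI x.1.1 x.2 :=
  nat_add.comp PrimE_n PrimE_k

private theorem PrimE_s0 : Primrec fun x : (ℕ × PCode × PCode) × CC =>
    s0C (x.1.1 + 2 * 0) x.2.1.1.1 (2 * x.2.1.1.2) x.1.2.1 x.1.2.2 x.2.2.1.2 :=
  pr_s0C (nat_add.comp PrimE_n (const (2 * 0))) PrimE_r PrimE_two PrimE_P PrimE_Q PrimE_rows

private theorem PrimE_st0 : Primrec fun x : (ℕ × PCode × PCode) × CC =>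
    st0D x.1.1 0 x.1.2.1 x.1.2.2 x.2 :=
  pair (pair (const 0) (pr_swS PrimE_n (const 0) PrimE_k PrimE_s0))
    (PrimE_q0D PrimE_n (const 0) PrimE_r PrimE_two PrimE_P PrimE_Q PrimE_rows)

private theorem PrimE_stF : Primrec fun x : (ℕ × PCode × PCode) × CC =>
    stFD x.1.1 0 x.1.2.1 x.1.2.2 x.2 :=
  pr_runD PrimE_nI PrimE_kap PrimE_st0 (nat_sub.comp PrimE_kap (const 2))

private theorem PrimE_hF : Primrec fun x : (ℕ × PCode × PCode) × CC =>
    hFD x.1.1 0 x.1.2.1 x.1.2.2 x.2 :=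
  pr_flat (pr_trS (nat_add.comp PrimE_nI (nat_mul.comp (const 2) (fst.comp (fst.comp PrimE_stF))))
    (snd.comp (fst.comp PrimE_stF)))

/-- As in CV/PrimB.lean: `pr_s0C`, `pr_t0C`, `pr_kC`, the code `c0C`, `pr_pcAv`, `pr_swS`, `pr_runD`, `pr_flat`, `pr_trS`, `pr_gadC`. -/
theorem primrec_coinR : Primrec₂ coinR :=
  pair (pair PrimE_nI (nat_add.comp (fst.comp (fst.comp PrimE_stF)) (const 4)))
    (pr_gadC PrimE_nI (fst.comp (fst.comp PrimE_stF)) PrimE_hF (snd.comp PrimE_stF))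

end Pool.Agent.Lib.MP_bbe012_lc.CD
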